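import Pool.Agent.Weil.Pla
import Pool.Agent.CvQ.Defs

/-!
# Absolutely irreducible plane curves have many points over large prime fields
-/

set_option autoImplicit false

namespace Pool.Agent.Weil

open Polynomial Pool.Agent.CvB Pool.Agent.CvF

theorem wl : CvQ.Wl := by
  classical
  intro D B
  obtain ⟨C, hC⟩ := weil_plane (2 * D)
  refine ⟨(C + B + 1) ^ 2, ?_⟩
  intro p _ hp F hF hi
  have htd : F ∈ Td (ZMod p) (2 * D) := by
    intro i j hij
    by_cases hj : D < j
    · rw [coeff_eq_zero_of_natDegree_lt (lt_of_le_of_lt hF.1 hj), coeff_zero]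
    · exact coeff_eq_zero_of_natDegree_lt (lt_of_le_of_lt (hF.2 j) (by omega))
  have h := hC p F htd hi
  have hfin : Finite {c : ZMod p × ZMod p // F.evalEval c.1 c.2 = 0} := inferInstance
  refine ⟨Finset.univ.filter fun c : ZMod p × ZMod p => F.evalEval c.1 c.2 = 0, ?_, ?_⟩
  · have hcard : Nat.card {c : ZMod p × ZMod p // F.evalEval c.1 c.2 = 0} =
        (Finset.univ.filter fun c : ZMod p × ZMod p => F.evalEval c.1 c.2 = 0).card := by
      rw [Nat.card_eq_fintype_card, Fintype.card_subtype]
    rw [hcard] at h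
    have h1 : (p : ℝ) - C * Real.sqrt p ≤
        ((Finset.univ.filter fun c : ZMod p × ZMod p => F.evalEval c.1 c.2 = 0).card : ℝ) := by
      have := (abs_le.1 h).1
      linarith
    have h2 : ((C + B + 1 : ℕ) : ℝ) ≤ Real.sqrt p := by
      refine Real.le_sqrt_of_sq_le ?_
      exact_mod_cast hp.le
    have h3 : Real.sqrt p * Real.sqrt p = p := Real.mul_self_sqrt (Nat.cast_nonneg p)
    have h4 : ((B : ℝ) + 1) ≤ Real.sqrt p * (Real.sqrt p - C) := by
      push_cast at h2
      have hC0 : (0 : ℝ) ≤ C := Nat.cast_nonneg C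
      have hB0 : (0 : ℝ) ≤ B := Nat.cast_nonneg B
      nlinarith
    have h5 : (B : ℝ) < ((Finset.univ.filter fun c : ZMod p × ZMod p =>
        F.evalEval c.1 c.2 = 0).card : ℝ) := by
      nlinarith
    exact_mod_cast h5
  · intro z hz
    exact (Finset.mem_filter.1 hz).2

end Pool.Agent.Weil
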