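import Pool.Agent.CvZ.Dir

/-!
# Package Weil-Ana: power sums and absolute values

`ana`: `γ_i ∈ ℂ` (`i < b`), `r ≥ 0`, and `Re ∑ γ_i ^ j ≤ C r ^ j` for all `j ≥ J`, `j ≥ 1`. Then
`‖γ_i‖ ≤ r` for all `i`. Proof: if `R = ‖γ_k‖ > r` take `J' ≥ J`, `J' ≥ 1` with
`C r ^ j < 3 / 4 R ^ j` for all `j ≥ J'` (`R > 0`; if `r = 0` the left side is `0` for `j ≥ 1`;
otherwise `(R / r) ^ j` tends to infinity), `CvZ.near_re` for the numbers
`γ_i ^ J'`: there is `m ≥ 1` with `Re γ_i ^ (J' m) ≥ 3/4 ‖γ_i‖ ^ (J' m) ≥ 0` for all `i`, so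
`C r ^ (J' m) ≥ Re ∑ γ_i ^ (J' m) ≥ 3/4 R ^ (J' m)`: contradiction.

`ana_bd`: if moreover `N j = q ^ j - ∑ γ_i ^ j` (as complex numbers) for `j ≥ 1` then
`|N 1 - q| ≤ b r` (when all `‖γ_i‖ ≤ r`).
-/

set_option autoImplicit false

namespace Pool.Agent.Weil

private theorem small_Ana {r C R : ℝ} (hr : 0 ≤ r) (hR : r < R) :
    ∃ J : ℕ, ∀ j, J ≤ j → C * r ^ j < 3 / 4 * R ^ j := by
  have hR0 : 0 < R := lt_of_le_of_lt hr hR
  have hq0 : 0 ≤ r / R := div_nonneg hr hR0.le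
  have hq1 : r / R < 1 := (div_lt_one hR0).2 hR
  have ht : Filter.Tendsto (fun j : ℕ => C * (r / R) ^ j) Filter.atTop (nhds (C * 0)) :=
    (tendsto_pow_atTop_nhds_zero_of_lt_one hq0 hq1).const_mul C
  rw [mul_zero] at ht
  have he : ∀ᶠ j : ℕ in Filter.atTop, C * (r / R) ^ j < 3 / 4 :=
    ht.eventually (gt_mem_nhds (by norm_num))
  obtain ⟨J, hJ⟩ := Filter.eventually_atTop.1 he
  refine ⟨J, fun j hj => ?_⟩
  have h1 := hJ j hj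
  have hRj : 0 < R ^ j := pow_pos hR0 j
  have h2 : C * r ^ j = C * (r / R) ^ j * R ^ j := by
    rw [div_pow, mul_assoc, div_mul_cancel₀ _ hRj.ne']
  rw [h2]
  exact mul_lt_mul_of_pos_right h1 hRj

theorem ana {b : ℕ} (γ : Fin b → ℂ) {r C : ℝ} (hr : 0 ≤ r) (J : ℕ)
    (h : ∀ j, 1 ≤ j → J ≤ j → (∑ i, γ i ^ j).re ≤ C * r ^ j) (i : Fin b) : ‖γ i‖ ≤ r := by
  by_contra hlt
  rw [not_le] at hlt
  obtain ⟨J0, hJ0⟩ := small_Ana (C := C) hr hlt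
  set J1 : ℕ := max (max J J0) 1 with hJ1
  obtain ⟨m, hm, hre⟩ := CvZ.near_re (fun i => γ i ^ J1)
  have h1 : 1 ≤ J1 * m := Nat.mul_pos (by omega) hm
  have hJm : J1 ≤ J1 * m := Nat.le_mul_of_pos_right _ hm
  have h2 : J ≤ J1 * m := le_trans (by omega) hJm
  have h3 : J0 ≤ J1 * m := le_trans (by omega) hJm
  have h4 := h (J1 * m) h1 h2
  have h5 := hJ0 (J1 * m) h3
  have h6 : ∀ k, 3 / 4 * ‖γ k‖ ^ (J1 * m) ≤ (γ k ^ (J1 * m)).re := by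
    intro k
    have := hre k
    simpa only [norm_pow, pow_mul] using this
  have h7 : 3 / 4 * ‖γ i‖ ^ (J1 * m) ≤ (∑ k, γ k ^ (J1 * m)).re := by
    rw [Complex.re_sum]
    refine (h6 i).trans ?_
    refine Finset.single_le_sum (f := fun k => (γ k ^ (J1 * m)).re) (fun k _ => ?_)
      (Finset.mem_univ i)
    exact le_trans (by positivity) (h6 k)
  linarith

theorem ana_bd {b : ℕ} (γ : Fin b → ℂ) {r : ℝ} (h : ∀ i, ‖γ i‖ ≤ r) {N q : ℕ}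
    (hN : (N : ℂ) = q - ∑ i, γ i) : |(N : ℝ) - q| ≤ b * r := by
  have h1 : ((N : ℂ) - q) = -∑ i, γ i := by rw [hN]; ring
  have h2 : |(N : ℝ) - q| = ‖(N : ℂ) - q‖ := by
    have : ((N : ℂ) - q) = (((N : ℝ) - q : ℝ) : ℂ) := by push_cast; ring
    rw [this, Complex.norm_real, Real.norm_eq_abs]
  rw [h2, h1, norm_neg]
  refine (norm_sum_le _ _).trans ?_
  refine (Finset.sum_le_sum (fun i _ => h i)).trans ?_
  simp

end Pool.Agent.Weil
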