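import Pool.Agent.CvB.Defs

/-!
# Points on curves over finite fields (Stepanov, Bombieri): definitions

Page with all proofs: /team-store/weil_page.md. Polynomials in two variables are elements of
`K[X][X]`: the outer variable is `y` (or `T`), the inner one is `x`.

`Flt F n e r0`: `F` is a multiplicative exhaustive filtration of the algebra `A` with
`dim F r = n (r + 1) - e` for `r ≥ r0`.
`WD K w r`: the polynomials of weighted degree at most `r`, where `x` has weight `1` and the outer
variable has weight `w`. `FW μ w r`: their classes in `CA μ = AdjoinRoot μ`.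
`GC f μ Δ ρ y`: the group `G` acts by `ρ` on the ring `CR μ Δ = K[x, θ, 1/Δ]`, `θ` is a root of
`μ`,
the roots of `μ` are the `ρ g θ`, the roots of `f` are the `y i`, transitively permuted.
`NP ρ Ω q g`: the points `ψ : CR μ Δ → Ω` with `ψ(z) ^ q = ψ(g z)`.
-/

set_option autoImplicit false

namespace Pool.Agent.Weil

open Polynomial Pool.Agent.CvB

/-- a filtration with Hilbert function `n (r + 1) - e` -/
structure Flt {K A : Type} [Field K] [CommRing A] [Algebra K A] (F : ℕ → Submodule K A)
    (n e r0 : ℕ) : Prop where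
  n_pos : 1 ≤ n
  one_mem : (1 : A) ∈ F 0
  mul_mem : ∀ r s a b, a ∈ F r → b ∈ F s → a * b ∈ F (r + s)
  mono : Monotone F
  exh : ∀ a, ∃ r, a ∈ F r
  fin : ∀ r, Module.Finite K (F r)
  dim : ∀ r, r0 ≤ r → Module.finrank K (F r) + e = n * (r + 1)

/-- the polynomials of weighted degree at most `r` -/
def WD (K : Type) [Field K] (w r : ℕ) : Submodule K K[X][X] where
  carrier := {g | ∀ i j, r < i + w * j → (g.coeff j).coeff i = 0}
  add_mem' := by
    intro a b ha hb i j h
    rw [coeff_add, coeff_add, ha i j h, hb i j h, add_zero]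
  zero_mem' := by
    intro i j _
    simp
  smul_mem' := by
    intro c a ha i j h
    rw [coeff_smul, coeff_smul, ha i j h, smul_zero]

variable {K : Type} [Field K]

/-- the classes of the polynomials of weighted degree at most `r` -/
noncomputable def FW (μ : K[X][X]) (w r : ℕ) : Submodule K (CA μ) :=
  (WD K w r).map (Ideal.Quotient.mkₐ K (Ideal.span {μ})).toLinearMap

/-- the class of the outer variable in `CR μ Δ` -/
noncomputable def th (μ : K[X][X]) (Δ : K[X]) : CR μ Δ :=
  algebraMap (CA μ) (CR μ Δ) (AdjoinRoot.root μ)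

/-- a Galois cover of the line, over which the curve `f` splits -/
structure GC (f μ : K[X][X]) (Δ : K[X]) {G : Type} [Group G] [Fintype G]
    (ρ : G →* (CR μ Δ ≃ₐ[K[X]] CR μ Δ)) {d : ℕ} (y : Fin d → CR μ Δ) : Prop where
  monic : μ.Monic
  irr : Irreducible μ
  deg : μ.natDegree = Fintype.card G
  ne : Δ ≠ 0
  prod : μ.map (algebraMap K[X] (CR μ Δ)) = ∏ g, (X - C (ρ g (th μ Δ)))
  unit : ∀ g g', g ≠ g' → IsUnit (ρ g (th μ Δ) - ρ g' (th μ Δ))
  fy : f.map (algebraMap K[X] (CR μ Δ)) = ∏ i, (X - C (y i))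
  yunit : ∀ i j, i ≠ j → IsUnit (y i - y j)
  trans : ∀ i j, ∃ g, ρ g (y i) = y j

/-- the points with Frobenius automorphism `g` -/
def NP {μ : K[X][X]} {Δ : K[X]} {G : Type} [Group G] (ρ : G →* (CR μ Δ ≃ₐ[K[X]] CR μ Δ))
    (Ω : Type) [Field Ω] [Algebra K Ω] (q : ℕ) (g : G) : Set (CR μ Δ →ₐ[K] Ω) :=
  {ψ | ∀ z, ψ z ^ q = ψ (ρ g z)}

end Pool.Agent.Weil
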