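import Pool.Agent.Weil.Frob

/-!
# Package Weil-Fix: the points of the curve and the fixed roots

Data as in Weil-Frob. `CP f Δ Ω q`: the points `(a, b)` of the curve `f` with coordinates in the
field
with `q` elements and `Δ(a) ≠ 0`.

`fix_card`: `ψ ∈ NP ρ Ω q g` (`q ≥ 1`): the number of the `b ∈ Ω` with `b ^ q = b` and
`f(xv ψ, b) = 0` is the
number of the `i` with `ρ g (y i) = y i`. Proof: apply `ψ` to `GC.fy`: `f(a, T) = ∏ (T - ψ (y
i))`,
the `ψ (y i)` are pairwise different (`GC.yunit`), and `ψ (y i) ^ q = ψ (ρ g (y i))`, which is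
`ψ (y i)` if and only if `ρ g (y i) = y i`: `ρ g (y i)` is a root of `f.map _` in the domain
`CR μ Δ` (apply `ρ g` to `GC.fy`), so it is `y j` for some `j`, and `ψ (y j) = ψ (y i)` gives
`j = i`. (`CR μ Δ` is a domain: localization of the domain `CA μ` (`gc_dom`) at nonzero elements.)

`fix_sum`: `card G * ncard (CP f Δ Ω q) = ∑ g, #{i | ρ g (y i) = y i} * ncard (NP ρ Ω q g)`: count
the pairs `(ψ, b)` with `xv ψ ^ q = xv ψ`, `b ^ q = b`, `f(xv ψ, b) = 0` in two ways: `pt_card`
for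
each `(a, b)`;
`frob_ex`, `fix_card`.

`burn`: `∑ g, #{i | ρ g (y i) = y i} = card G`: the lemma of Burnside for the transitive action on
`Fin d` (`1 ≤ d`; the action: `ρ g (y i) = y (g i)`, `y` is injective because of `yunit`), or:
for every `i` the number of the `g` with `ρ g (y i) = y j` does not depend on `j` (transitivity),
so
it is `card G / d`; sum over `i` for `j = i`.
-/

set_option autoImplicit false

namespace Pool.Agent.Weil

open Polynomial Pool.Agent.CvB

variable {K : Type} [Field K] {f μ : K[X][X]} {Δ : K[X]} {G : Type} [Group G] [Fintype G]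
  {ρ : G →* (CR μ Δ ≃ₐ[K[X]] CR μ Δ)} {d : ℕ} {y : Fin d → CR μ Δ}
  {Ω : Type} [Field Ω] [Algebra K Ω]

/-- the points of the curve over the field with `q` elements -/
def CP (f : K[X][X]) (Δ : K[X]) (Ω : Type) [Field Ω] [Algebra K Ω] (q : ℕ) : Set (Ω × Ω) :=
  {c | c.1 ^ q = c.1 ∧ c.2 ^ q = c.2 ∧
    (f.map (mapRingHom (algebraMap K Ω))).evalEval c.1 c.2 = 0 ∧ aeval c.1 Δ ≠ 0}

private theorem zero_ne_one_or_eq_Fix {R : Type*} [CommRing R] (h : IsUnit (0 : R)) :
    (0 : R) = 1 := isUnit_zero_iff.1 h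

theorem cr_dom (h : GC f μ Δ ρ y) : IsDomain (CR μ Δ) := by
  have := gc_dom h
  have h0 : AdjoinRoot.of μ Δ ≠ 0 := by
    intro h1
    have h2 : IsUnit (algebraMap (CA μ) (CR μ Δ) (AdjoinRoot.of μ Δ)) :=
      IsLocalization.Away.algebraMap_isUnit (AdjoinRoot.of μ Δ)
    have hz : algebraMap (CA μ) (CR μ Δ) (AdjoinRoot.of μ Δ) = 0 :=
      (congrArg (algebraMap (CA μ) (CR μ Δ)) h1).trans (map_zero _)
    have h3 : (0 : CR μ Δ) = 1 := zero_ne_one_or_eq_Fix (hz ▸ h2)
    have h4 : (0 : CA μ) = 1 := gc_inj h (by rw [map_zero, map_one, h3])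
    exact zero_ne_one h4
  exact IsLocalization.isDomain_of_le_nonZeroDivisors (CR μ Δ)
    (powers_le_nonZeroDivisors_of_noZeroDivisors h0)

private theorem evl_Fix (h : GC f μ Δ ρ y) (ψ : CR μ Δ →ₐ[K] Ω) (b : Ω) :
    (f.map (mapRingHom (algebraMap K Ω))).evalEval (xv ψ) b = ∏ i, (b - ψ (y i)) := by
  have h1 : (evalRingHom (xv ψ)).comp (mapRingHom (algebraMap K Ω)) =
      (ψ : CR μ Δ →+* Ω).comp (algebraMap K[X] (CR μ Δ)) := by
    refine RingHom.ext fun P => ?_
    rw [RingHom.comp_apply, RingHom.comp_apply, coe_mapRingHom, coe_evalRingHom, eval_map,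
      ← aeval_def]
    exact (pt_poly ψ P).symm
  rw [← map_evalRingHom_eval, map_map, h1, ← map_map, h.fy, Polynomial.map_prod, eval_prod]
  refine Finset.prod_congr rfl fun i _ => ?_
  rw [Polynomial.map_sub, map_X, map_C, eval_sub, eval_X, eval_C]
  rfl

private theorem inj_Fix (h : GC f μ Δ ρ y) (ψ : CR μ Δ →ₐ[K] Ω) :
    Function.Injective fun i => ψ (y i) := by
  intro i j hij
  by_contra hne
  have h1 := (h.yunit i j hne).map ψ
  rw [map_sub] at h1
  have h2 : ψ (y i) = ψ (y j) := hij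
  rw [h2, sub_self] at h1
  exact not_isUnit_zero h1

private theorem perm_Fix (h : GC f μ Δ ρ y) [IsDomain (CR μ Δ)] (g : G) (i : Fin d) :
    ∃ j, ρ g (y i) = y j := by
  have h1 : (f.map (algebraMap K[X] (CR μ Δ))).eval (y i) = 0 := by
    rw [h.fy, eval_prod]
    refine Finset.prod_eq_zero (Finset.mem_univ i) ?_
    rw [eval_sub, eval_X, eval_C, sub_self]
  have h2 : (f.map (algebraMap K[X] (CR μ Δ))).eval (ρ g (y i)) = 0 := by
    rw [eval_map, ← aeval_def] at h1 ⊢
    have h3 := aeval_algHom_apply (ρ g : CR μ Δ →ₐ[K[X]] CR μ Δ) (y i) f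
    rw [h1, map_zero] at h3
    exact h3
  rw [h.fy, eval_prod, Finset.prod_eq_zero_iff] at h2
  obtain ⟨j, _, hj⟩ := h2
  rw [eval_sub, eval_X, eval_C] at hj
  exact ⟨j, sub_eq_zero.1 hj⟩

private theorem pow_fin_Fix {q : ℕ} (hq : 2 ≤ q) : {b : Ω | b ^ q = b}.Finite := by
  have h0 : (X ^ q - X : Polynomial Ω) ≠ 0 := by
    intro h1
    have h2 := congrArg (fun P : Polynomial Ω => P.coeff q) h1
    simp only [coeff_sub, coeff_X_pow, coeff_X, coeff_zero] at h2
    rw [if_pos True.intro, if_neg (by omega), sub_zero] at h2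
    exact one_ne_zero h2
  refine (finite_setOfPred_isRoot h0).subset ?_
  intro b hb
  have hb' : b ^ q = b := hb
  show IsRoot _ b
  rw [IsRoot.def, eval_sub, eval_pow, eval_X, hb', sub_self]

theorem fix_card (h : GC f μ Δ ρ y) {q : ℕ} {g : G} {ψ : CR μ Δ →ₐ[K] Ω}
    (hψ : ψ ∈ NP ρ Ω q g) :
    Nat.card {b : Ω // b ^ q = b ∧
      (f.map (mapRingHom (algebraMap K Ω))).evalEval (xv ψ) b = 0} =
      Nat.card {i : Fin d // ρ g (y i) = y i} := by
  have := cr_dom h
  have hinj := inj_Fix h ψ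
  symm
  refine Nat.card_congr (Equiv.ofBijective
    (fun i => ⟨ψ (y i.1), ?_, ?_⟩) ⟨?_, ?_⟩)
  · rw [hψ, i.2]
  · rw [evl_Fix h ψ]
    exact Finset.prod_eq_zero (Finset.mem_univ i.1) (sub_self _)
  · intro i j hij
    exact Subtype.ext (hinj (congrArg Subtype.val hij))
  · rintro ⟨b, hb, hb0⟩
    rw [evl_Fix h ψ, Finset.prod_eq_zero_iff] at hb0
    obtain ⟨i, _, hi⟩ := hb0
    have hi' : b = ψ (y i) := sub_eq_zero.1 hi
    subst hi'
    obtain ⟨j, hj⟩ := perm_Fix h g i
    rw [hψ, hj] at hb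
    have hij := hinj hb
    subst hij
    exact ⟨⟨j, hj⟩, rfl⟩

theorem fix_sum [IsAlgClosed Ω] (h : GC f μ Δ ρ y) (p : ℕ) [Fact p.Prime] [CharP K p] {e : ℕ}
    (he : 1 ≤ e) (hq : ∀ c : K, c ^ p ^ e = c) :
    Fintype.card G * (CP f Δ Ω (p ^ e)).ncard =
      ∑ g : G, Nat.card {i : Fin d // ρ g (y i) = y i} * (NP ρ Ω (p ^ e) g).ncard := by
  classical
  have hp1 := (Fact.out : p.Prime).two_le
  have hq2 : 2 ≤ p ^ e := le_trans hp1 (Nat.le_self_pow (by omega) p)
  set q := p ^ e with hqdef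
  have hbf : {b : Ω | b ^ q = b}.Finite := pow_fin_Fix hq2
  have hCP : (CP f Δ Ω q).Finite := by
    refine (hbf.prod hbf).subset ?_
    rintro ⟨a, b⟩ ⟨h1, h2, -, -⟩
    exact ⟨h1, h2⟩
  have hNP : ∀ g, (NP ρ Ω q g).Finite := fun g => np_fin h hq2 g
  set P : Set ((CR μ Δ →ₐ[K] Ω) × Ω) := {x | xv x.1 ^ q = xv x.1 ∧ x.2 ^ q = x.2 ∧
    (f.map (mapRingHom (algebraMap K Ω))).evalEval (xv x.1) x.2 = 0} with hPdef
  have hPf : P.Finite := by
    refine ((Set.finite_iUnion hNP).prod hbf).subset ?_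
    rintro ⟨ψ, b⟩ ⟨h1, h2, -⟩
    obtain ⟨g, hg, -⟩ := frob_ex h p hq ψ h1
    exact ⟨Set.mem_iUnion.2 ⟨g, hg⟩, h2⟩
  have c1 : hPf.toFinset.card = hCP.toFinset.card * Fintype.card G := by
    rw [Finset.card_eq_sum_card_fiberwise (f := fun x => (xv x.1, x.2)) (t := hCP.toFinset)]
    · rw [Finset.sum_const_nat]
      intro c hc
      rw [Set.Finite.mem_toFinset] at hc
      rw [← pt_card h hc.2.2.2]
      rw [← Nat.subtype_card (p := fun x : (CR μ Δ →ₐ[K] Ω) × Ω => x ∈ P ∧ (xv x.1, x.2) = c)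
        _ (fun x => by rw [Finset.mem_filter, Set.Finite.mem_toFinset])]
      refine Nat.card_congr
        { toFun := fun x => ⟨x.1.1, (congrArg Prod.fst x.2.2 : _)⟩
          invFun := fun ψ => ⟨(ψ.1, c.2), ?_, ?_⟩
          left_inv := ?_
          right_inv := ?_ }
      · refine ⟨?_, hc.2.1, ?_⟩
        · show xv ψ.1 ^ q = xv ψ.1
          rw [ψ.2]
          exact hc.1
        · show (f.map (mapRingHom (algebraMap K Ω))).evalEval (xv ψ.1) c.2 = 0
          rw [ψ.2]
          exact hc.2.2.1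
      · exact Prod.ext ψ.2 rfl
      · rintro ⟨⟨ψ, b⟩, h1, h2⟩
        have h3 : b = c.2 := congrArg Prod.snd h2
        subst h3
        rfl
      · rintro ⟨ψ, h1⟩
        rfl
    · intro x hx
      have hx' : x ∈ P := (Set.Finite.mem_toFinset _).1 hx
      refine (Set.Finite.mem_toFinset _).2 ?_
      exact ⟨hx'.1, hx'.2.1, hx'.2.2, pt_ne x.1⟩
  set U : Finset (CR μ Δ →ₐ[K] Ω) := Finset.univ.biUnion fun g => (hNP g).toFinset with hU
  have c2 : hPf.toFinset.card =
      ∑ g : G, Nat.card {i : Fin d // ρ g (y i) = y i} * (NP ρ Ω q g).ncard := by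
    rw [Finset.card_eq_sum_card_fiberwise (f := fun x => x.1) (t := U)]
    · rw [hU, Finset.sum_biUnion]
      · refine Finset.sum_congr rfl fun g _ => ?_
        rw [Set.ncard_eq_toFinset_card _ (hNP g), mul_comm]
        rw [Finset.sum_const_nat]
        intro ψ hψ
        rw [Set.Finite.mem_toFinset] at hψ
        rw [← fix_card h hψ]
        rw [← Nat.subtype_card (p := fun x : (CR μ Δ →ₐ[K] Ω) × Ω => x ∈ P ∧ x.1 = ψ)
          _ (fun x => by rw [Finset.mem_filter, Set.Finite.mem_toFinset])]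
        refine Nat.card_congr
          { toFun := fun x => ⟨x.1.2, x.2.1.2.1, ?_⟩
            invFun := fun b => ⟨(ψ, b.1), ⟨frob_xv hψ, b.2.1, b.2.2⟩, rfl⟩
            left_inv := ?_
            right_inv := ?_ }
        · have h1 := x.2.1.2.2
          rwa [x.2.2] at h1
        · rintro ⟨⟨ψ', b⟩, h1, h2⟩
          have h3 : ψ' = ψ := h2
          subst h3
          rfl
        · rintro ⟨b, h1, h2⟩
          rfl
      · intro g _ g' _ hgg
        show Disjoint _ _
        rw [Finset.disjoint_left]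
        intro ψ h1 h2
        rw [Set.Finite.mem_toFinset] at h1 h2
        exact hgg ((frob_ex h p hq ψ (frob_xv h1)).unique h1 h2)
    · intro x hx
      have hx' : x ∈ P := (Set.Finite.mem_toFinset _).1 hx
      obtain ⟨g, hg, -⟩ := frob_ex h p hq x.1 hx'.1
      refine Finset.mem_biUnion.2 ⟨g, Finset.mem_univ g, ?_⟩
      exact (Set.Finite.mem_toFinset _).2 hg
  rw [← c2, c1, Set.ncard_eq_toFinset_card _ hCP, mul_comm]

theorem burn (h : GC f μ Δ ρ y) (hd : 1 ≤ d) :
    ∑ g : G, Nat.card {i : Fin d // ρ g (y i) = y i} = Fintype.card G := by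
  classical
  have := cr_dom h
  have yinj : Function.Injective y := by
    intro i j hij
    by_contra hne
    have h1 := h.yunit i j hne
    rw [hij, sub_self] at h1
    exact not_isUnit_zero h1
  set N : Fin d → Fin d → ℕ := fun i j =>
    (Finset.univ.filter fun g : G => ρ g (y i) = y j).card with hN
  have h1 : ∀ i, ∑ j, N i j = Fintype.card G := by
    intro i
    have h2 : ∀ j, N i j = ∑ g : G, if ρ g (y i) = y j then 1 else 0 := by
      intro j
      rw [hN]
      exact Finset.card_filter _ _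
    rw [Finset.sum_congr rfl fun j _ => h2 j, Finset.sum_comm]
    rw [← Finset.card_univ, Finset.card_eq_sum_ones]
    refine Finset.sum_congr rfl fun g _ => ?_
    obtain ⟨j0, hj0⟩ := perm_Fix h g i
    rw [Finset.sum_eq_single j0]
    · rw [if_pos hj0]
    · intro j _ hj
      rw [if_neg]
      intro h3
      exact hj (yinj (h3.symm.trans hj0))
    · intro h3
      exact absurd (Finset.mem_univ j0) h3
  have h2 : ∀ i j, N i j = N i i := by
    intro i j
    obtain ⟨g0, hg0⟩ := h.trans i j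
    rw [hN]
    symm
    refine Finset.card_nbij' (fun g => g0 * g) (fun g => g0⁻¹ * g) ?_ ?_ ?_ ?_
    · intro g hg
      have hg' : ρ g (y i) = y i := (Finset.mem_filter.1 hg).2
      refine Finset.mem_coe.2 (Finset.mem_filter.2 ⟨Finset.mem_univ _, ?_⟩)
      rw [map_mul, AlgEquiv.mul_apply, hg', hg0]
    · intro g hg
      have hg' : ρ g (y i) = y j := (Finset.mem_filter.1 hg).2
      refine Finset.mem_coe.2 (Finset.mem_filter.2 ⟨Finset.mem_univ _, ?_⟩)
      rw [map_mul, AlgEquiv.mul_apply, hg', ← hg0, ← AlgEquiv.mul_apply, ← map_mul,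
        inv_mul_cancel, map_one, AlgEquiv.one_apply]
    · intro g _
      exact inv_mul_cancel_left g0 g
    · intro g _
      exact mul_inv_cancel_left g0 g
  have h3 : ∀ i, d * N i i = Fintype.card G := by
    intro i
    rw [← h1 i, Finset.sum_congr rfl fun j _ => h2 i j, Finset.sum_const, Finset.card_univ,
      Fintype.card_fin, smul_eq_mul]
  have h4 : ∑ g : G, Nat.card {i : Fin d // ρ g (y i) = y i} = ∑ i, N i i := by
    have h5 : ∀ g : G, Nat.card {i : Fin d // ρ g (y i) = y i} =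
        ∑ i, if ρ g (y i) = y i then 1 else 0 := by
      intro g
      rw [Nat.card_eq_fintype_card, Fintype.card_subtype, Finset.card_filter]
    rw [Finset.sum_congr rfl fun g _ => h5 g, Finset.sum_comm]
    refine Finset.sum_congr rfl fun i _ => ?_
    rw [hN]
    exact (Finset.card_filter _ _).symm
  rw [h4]
  have h5 : d * ∑ i, N i i = d * Fintype.card G := by
    rw [Finset.mul_sum, Finset.sum_congr rfl fun i _ => h3 i, Finset.sum_const,
      Finset.card_univ, Fintype.card_fin, smul_eq_mul]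
  exact Nat.eq_of_mul_eq_mul_left (by omega) h5

end Pool.Agent.Weil
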