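import Pool.Agent.CvF.Zd
import Pool.Agent.Weil.Fix

/-!
# Package Weil-Ext: extension of the constants, translation, counting

`ext_ex`: `f ∈ F_p[x][y]` monic in `y` of degree `d`, `C D = u f + v f'`, `D ≠ 0`. There is a
finite
extension
`K` of `F_p`, `a ∈ K` with `D(a) ≠ 0` and `f(a, T) = ∏ (T - b_i)`, pairwise different `b_i ∈ K`.
Proof: in
`Ω = AlgebraicClosure (ZMod p)` (infinite) there is `a` with `D(a) ≠ 0`; `f(a, T)` splits, with
different roots since it is coprime to its derivative. `K` is the field generated by `a` and the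
`b_i` (`IntermediateField.adjoin` of a finite set of algebraic elements: finite over `ZMod p`, so
finite).

`tr f a` is `f(x + a, y)`; `tr_monic`, `tr_irr` (automorphism of the ring `K[X][X]`), `tr_comb`,
`tr_zero` (`x = 0`), `tr_cp`: the points of `tr f a` correspond to those of `f` by `x ↦ x + a`
(`a ^ q = a`, characteristic `p`).

`cp_npt`: for `q = p ^ m`, `m ≥ 1`: `{c ∈ Ω | c ^ q = c}` is a field with `q` elements (`Ω`
algebraically closed;
subring, `FiniteField`: roots of `X ^ q - X`, see `cnt_ge`), and the points of `CP` are the points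
over this field, `CvF.npt_eq` (CvF/Zd.lean; may be imported).
-/

set_option autoImplicit false

namespace Pool.Agent.Weil

open Polynomial Pool.Agent.CvB Pool.Agent.CvF

private theorem mapmap_Ext {F κ L : Type} [Field F] [Field κ] [Field L] [Algebra F κ]
    [Algebra F L] (φ : κ →+* L) (h : φ.comp (algebraMap F κ) = algebraMap F L) (f : F[X][X]) :
    (fm κ f).map (mapRingHom φ) = fm L f := by
  unfold fm
  rw [Polynomial.map_map, mapRingHom_comp, h]

private theorem mapev_Ext {κ L : Type} [Field κ] [Field L] (φ : κ →+* L) (g : κ[X][X]) (a : κ) :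
    (g.map (evalRingHom a)).map φ = (g.map (mapRingHom φ)).map (evalRingHom (φ a)) := by
  rw [Polynomial.map_map, Polynomial.map_map]
  congr 1
  apply Polynomial.ringHom_ext'
  · ext c
    simp
  · simp

theorem ext_ex {p : ℕ} [Fact p.Prime] {f : (ZMod p)[X][X]} (hf : f.Monic) {D : (ZMod p)[X]}
    (hD : D ≠ 0) (hc : ∃ u v : (ZMod p)[X][X], C D = u * f + v * derivative f) :
    ∃ (K : Type) (_ : Field K) (_ : Finite K) (_ : Algebra (ZMod p) K) (a : K)
      (b : Fin f.natDegree → K), Function.Injective b ∧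
      (fm K f).map (evalRingHom a) = ∏ i, (X - C (b i)) := by
  obtain ⟨u, v, huv⟩ := hc
  let Ω : Type := AlgebraicClosure (ZMod p)
  have hD0 : dm Ω D ≠ 0 := by
    intro h
    exact hD ((Polynomial.map_eq_zero _).1 h)
  obtain ⟨a, ha⟩ : ∃ a : Ω, (dm Ω D).eval a ≠ 0 := by
    by_contra hcon
    push Not at hcon
    exact hD0 (Polynomial.funext fun r => by rw [hcon r, eval_zero])
  let G : Polynomial Ω := (fm Ω f).map (evalRingHom a)
  have hGm : G.Monic := (hf.map _).map _
  have hGd : G.natDegree = f.natDegree := by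
    show ((f.map _).map _).natDegree = _
    rw [(hf.map _).natDegree_map, hf.natDegree_map]
  have hsep : G.Separable := by
    have h1 := congrArg (fun g : (ZMod p)[X][X] => (fm Ω g).map (evalRingHom a)) huv
    dsimp only [fm] at h1
    rw [Polynomial.map_add, Polynomial.map_mul, Polynomial.map_mul, Polynomial.map_add,
      Polynomial.map_mul, Polynomial.map_mul, ← derivative_map, ← derivative_map, map_C,
      coe_mapRingHom, map_C, coe_evalRingHom] at h1
    refine ⟨C ((dm Ω D).eval a)⁻¹ * (u.map (mapRingHom (algebraMap (ZMod p) Ω))).map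
      (evalRingHom a), C ((dm Ω D).eval a)⁻¹ * (v.map (mapRingHom (algebraMap (ZMod p) Ω))).map
      (evalRingHom a), ?_⟩
    rw [mul_assoc, mul_assoc, ← mul_add]
    refine (congrArg (fun z => C ((dm Ω D).eval a)⁻¹ * z) h1.symm).trans ?_
    rw [← C_mul, inv_mul_cancel₀ ha, C_1]
  have hspl : G.Splits := IsAlgClosed.splits G
  have hcard : G.roots.card = f.natDegree := by
    rw [splits_iff_card_roots.1 hspl, hGd]
  have hnd : G.roots.Nodup := nodup_roots hsep
  obtain ⟨l, hl⟩ : ∃ l : List Ω, (l : Multiset Ω) = G.roots := ⟨G.roots.toList, by simp⟩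
  have hlen : l.length = f.natDegree := by
    rw [← hcard, ← hl, Multiset.coe_card]
  have hlnd : l.Nodup := by
    rw [← hl] at hnd
    exact hnd
  let b0 : Fin f.natDegree → Ω := fun i => l.get (Fin.cast hlen.symm i)
  have hb0 : Function.Injective b0 := by
    intro i j h
    have h2 := (List.nodup_iff_injective_get.1 hlnd) h
    exact Fin.cast_injective _ h2
  have hprod : G = ∏ i, (X - C (b0 i)) := by
    have h1 := hspl.eq_prod_roots
    rw [hGm.leadingCoeff, C_1, one_mul, ← hl, Multiset.map_coe, Multiset.prod_coe] at h1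
    rw [h1]
    have h2 : ∀ (n : ℕ) (h : l.length = n),
        (l.map fun x => X - C x).prod = ∏ i : Fin n, (X - C (l.get (Fin.cast h.symm i))) := by
      rintro n rfl
      rw [← List.prod_ofFn]
      congr 1
      apply List.ext_get
      · simp
      · intro i h1 h2
        simp
    exact h2 _ hlen
  let S : Set Ω := insert a (Set.range b0)
  have hSf : S.Finite := (Set.finite_range b0).insert a
  have : Finite S := hSf
  let K0 : IntermediateField (ZMod p) Ω := IntermediateField.adjoin (ZMod p) S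
  have : FiniteDimensional (ZMod p) K0 := IntermediateField.finiteDimensional_adjoin
    fun x _ => Algebra.IsIntegral.isIntegral x
  have hK : Finite K0 := Module.finite_of_finite (ZMod p)
  have haK : a ∈ K0 := IntermediateField.subset_adjoin _ _ (Set.mem_insert _ _)
  have hbK : ∀ i, b0 i ∈ K0 := fun i =>
    IntermediateField.subset_adjoin _ _ (Set.mem_insert_of_mem _ ⟨i, rfl⟩)
  refine ⟨K0, inferInstance, hK, inferInstance, ⟨a, haK⟩, fun i => ⟨b0 i, hbK i⟩, ?_, ?_⟩
  · intro i j h
    exact hb0 (congrArg Subtype.val h)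
  · apply Polynomial.map_injective (algebraMap K0 Ω) (algebraMap K0 Ω).injective
    rw [mapev_Ext, mapmap_Ext (algebraMap K0 Ω) (Subsingleton.elim _ _)]
    refine hprod.trans ?_
    rw [Polynomial.map_prod]
    refine Finset.prod_congr rfl fun i _ => ?_
    rw [Polynomial.map_sub, map_X, map_C]
    rfl

variable {K : Type} [Field K]

/-- the curve translated in the direction of `x` -/
noncomputable def tr (f : K[X][X]) (a : K) : K[X][X] := f.map (compRingHom (X + C a))

theorem tr_monic {f : K[X][X]} (hf : f.Monic) (a : K) : (tr f a).Monic := hf.map _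

theorem tr_irr {f : K[X][X]} (hf : Irreducible f) (a : K) : Irreducible (tr f a) := by
  let e : K[X] ≃+* K[X] := (algEquivAevalXAddC a).toRingEquiv
  have he : (compRingHom (X + C a) : K[X] →+* K[X]) = (e : K[X] →+* K[X]) := by
    apply Polynomial.ringHom_ext'
    · ext c
      simp [e]
    · simp [e]
  have h1 : tr f a = (mapEquiv e) f := by
    unfold tr
    rw [he]
    rfl
  rw [h1]
  exact (MulEquiv.irreducible_iff (mapEquiv e)).2 hf

theorem tr_comb {f : K[X][X]} {D : K[X]} (h : ∃ u v : K[X][X], C D = u * f + v * derivative f)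
    (a : K) : ∃ u v : K[X][X], C (D.comp (X + C a)) = u * tr f a + v * derivative (tr f a) := by
  obtain ⟨u, v, huv⟩ := h
  refine ⟨u.map (compRingHom (X + C a)), v.map (compRingHom (X + C a)), ?_⟩
  have h1 := congrArg (Polynomial.map (compRingHom (X + C a))) huv
  rw [Polynomial.map_add, Polynomial.map_mul, Polynomial.map_mul, ← derivative_map, map_C] at h1
  exact h1

theorem tr_zero (f : K[X][X]) (a : K) :
    (tr f a).map (evalRingHom 0) = f.map (evalRingHom a) := by
  unfold tr
  rw [Polynomial.map_map]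
  congr 1
  apply Polynomial.ringHom_ext'
  · ext c
    simp
  · simp

theorem tr_cp (f : K[X][X]) (D : K[X]) (a : K) (Ω : Type) [Field Ω] [Algebra K Ω] (p : ℕ)
    [Fact p.Prime] [CharP K p] {m : ℕ} (ha : a ^ p ^ m = a) :
    (CP (tr f a) (D.comp (X + C a)) Ω (p ^ m)).ncard = (CP f D Ω (p ^ m)).ncard := by
  have : CharP Ω p := charP_of_injective_algebraMap (algebraMap K Ω).injective p
  have ha' : (algebraMap K Ω a) ^ p ^ m = algebraMap K Ω a := by rw [← map_pow, ha]
  have hev : ∀ x y : Ω, ((tr f a).map (mapRingHom (algebraMap K Ω))).evalEval x y =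
      (f.map (mapRingHom (algebraMap K Ω))).evalEval (x + algebraMap K Ω a) y := by
    intro x y
    have h : ((evalEvalRingHom x y).comp (mapRingHom (mapRingHom (algebraMap K Ω)))).comp
        (mapRingHom (compRingHom (X + C a))) =
        (evalEvalRingHom (x + algebraMap K Ω a) y).comp
          (mapRingHom (mapRingHom (algebraMap K Ω))) := by
      apply Polynomial.ringHom_ext'
      · apply Polynomial.ringHom_ext'
        · ext c
          simp
        · simp
      · simp
    exact RingHom.congr_fun h f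
  have hD : ∀ x : Ω, aeval x (D.comp (X + C a)) = aeval (x + algebraMap K Ω a) D := by
    intro x
    rw [aeval_comp]
    simp
  have himg : CP f D Ω (p ^ m) = (fun c : Ω × Ω => (c.1 + algebraMap K Ω a, c.2)) ''
      CP (tr f a) (D.comp (X + C a)) Ω (p ^ m) := by
    ext ⟨x, y⟩
    constructor
    · rintro ⟨h1, h2, h3, h4⟩
      dsimp only at h1 h2 h3 h4
      refine ⟨(x - algebraMap K Ω a, y), ⟨?_, h2, ?_, ?_⟩, ?_⟩
      · show (x - algebraMap K Ω a) ^ p ^ m = x - algebraMap K Ω a
        rw [sub_pow_char_pow, h1, ha']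
      · show ((tr f a).map (mapRingHom (algebraMap K Ω))).evalEval (x - algebraMap K Ω a) y = 0
        rw [hev, sub_add_cancel]
        exact h3
      · show aeval (x - algebraMap K Ω a) (D.comp (X + C a)) ≠ 0
        rw [hD, sub_add_cancel]
        exact h4
      · show (x - algebraMap K Ω a + algebraMap K Ω a, y) = (x, y)
        rw [sub_add_cancel]
    · rintro ⟨⟨x', y'⟩, ⟨h1, h2, h3, h4⟩, h5⟩
      dsimp only at h1 h2 h3 h4 h5
      obtain ⟨h6, h7⟩ := Prod.mk.inj h5
      subst h7
      refine ⟨?_, h2, ?_, ?_⟩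
      · show x ^ p ^ m = x
        rw [← h6, add_pow_char_pow, h1, ha']
      · show (f.map (mapRingHom (algebraMap K Ω))).evalEval x y' = 0
        rw [← h6, ← hev]
        exact h3
      · show aeval x D ≠ 0
        rw [← h6, ← hD]
        exact h4
  rw [himg, Set.ncard_image_of_injective]
  rintro ⟨x, y⟩ ⟨x', y'⟩ h
  obtain ⟨h1, h2⟩ := Prod.mk.inj h
  exact Prod.ext (add_left_injective _ h1) h2

theorem cp_npt {p : ℕ} [Fact p.Prime] (f : (ZMod p)[X][X]) (D : (ZMod p)[X]) (K : Type) [Field K]
    [Algebra (ZMod p) K] (Ω : Type) [Field Ω] [IsAlgClosed Ω] [Algebra K Ω] {m : ℕ}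
    (hm : 1 ≤ m) : (CP (fm K f) (dm K D) Ω (p ^ m)).ncard = npt f D m := by
  have : CharP K p := charP_of_injective_algebraMap (algebraMap (ZMod p) K).injective p
  have : CharP Ω p := charP_of_injective_algebraMap (algebraMap K Ω).injective p
  have : ExpChar Ω p := ExpChar.prime Fact.out
  let F : Subfield Ω := RingHom.eqLocusField (iterateFrobenius Ω p m) (RingHom.id Ω)
  have hF : ∀ x : Ω, x ∈ F ↔ x ^ p ^ m = x := by
    intro x
    show iterateFrobenius Ω p m x = x ↔ _
    rw [iterateFrobenius_def]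
  have hp : 1 < p := (Fact.out : p.Prime).one_lt
  have hne : (X ^ p ^ m - X : Polynomial Ω) ≠ 0 :=
    FiniteField.X_pow_card_pow_sub_X_ne_zero Ω (by omega) hp
  have hcard : Nat.card F = p ^ m := by
    have h1 : (F : Set Ω) = (X ^ p ^ m - X : Polynomial Ω).rootSet Ω := by
      ext x
      rw [SetLike.mem_coe, hF, mem_rootSet]
      simp [hne, sub_eq_zero]
    have h2 : Fintype.card ((X ^ p ^ m - X : Polynomial Ω).rootSet Ω) =
        (X ^ p ^ m - X : Polynomial Ω).natDegree := by
      apply card_rootSet_eq_natDegree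
      · exact galois_poly_separable p _ (dvd_pow_self p (by omega))
      · exact IsAlgClosed.splits _
    have h3 : Nat.card F = Nat.card ((X ^ p ^ m - X : Polynomial Ω).rootSet Ω) :=
      Nat.card_congr (Equiv.setCongr h1)
    rw [h3, Nat.card_eq_fintype_card, h2]
    exact FiniteField.X_pow_card_pow_sub_X_natDegree_eq Ω (by omega) hp
  have : CharP F p := RingHom.charP F.subtype F.subtype.injective p
  letI : Algebra (ZMod p) F := ZMod.algebra F p
  have hj : (F.subtype : F →+* Ω).comp (algebraMap (ZMod p) F) =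
      (algebraMap K Ω).comp (algebraMap (ZMod p) K) := Subsingleton.elim _ _
  have hf : (fm F f).map (mapRingHom F.subtype) = (fm K f).map (mapRingHom (algebraMap K Ω)) := by
    unfold fm
    rw [Polynomial.map_map, Polynomial.map_map, mapRingHom_comp, mapRingHom_comp, hj]
  have hD : (dm F D).map F.subtype = (dm K D).map (algebraMap K Ω) := by
    unfold dm
    rw [Polynomial.map_map, Polynomial.map_map, hj]
  have h1 : ∀ c : F × F, ((fm K f).map (mapRingHom (algebraMap K Ω))).evalEval (c.1 : Ω) c.2 =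
      (((fm F f).evalEval c.1 c.2 : F) : Ω) := by
    intro c
    rw [← hf]
    exact map_mapRingHom_evalEval (f := F.subtype) (p := fm F f) c.1 c.2
  have h2 : ∀ c : F, aeval (c : Ω) (dm K D) = (((dm F D).eval c : F) : Ω) := by
    intro c
    rw [aeval_def, eval₂_eq_eval_map, ← hD]
    exact eval_map_apply F.subtype c
  rw [← npt_eq f D F hm hcard, ← Nat.card_coe_set_eq]
  symm
  refine Nat.card_congr (Equiv.ofBijective (fun c => ⟨((c.1.1 : Ω), (c.1.2 : Ω)), ?_⟩) ⟨?_, ?_⟩)
  · refine ⟨(hF _).1 c.1.1.2, (hF _).1 c.1.2.2, ?_, ?_⟩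
    · show ((fm K f).map (mapRingHom (algebraMap K Ω))).evalEval (c.1.1 : Ω) c.1.2 = 0
      rw [h1 c.1, c.2.1]
      rfl
    · show aeval (c.1.1 : Ω) (dm K D) ≠ 0
      rw [h2 c.1.1]
      intro h
      exact c.2.2 (Subtype.ext h)
  · rintro ⟨⟨a, b⟩, h3⟩ ⟨⟨a', b'⟩, h3'⟩ h
    have h4 := congrArg Subtype.val h
    obtain ⟨h5, h6⟩ := Prod.mk.inj h4
    dsimp only at h5 h6
    have h7 : a = a' := Subtype.ext h5
    have h8 : b = b' := Subtype.ext h6
    subst h7 h8
    rfl
  · rintro ⟨⟨a, b⟩, h3, h4, h5, h6⟩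
    dsimp only at h3 h4 h5 h6
    refine ⟨⟨(⟨a, (hF a).2 h3⟩, ⟨b, (hF b).2 h4⟩), ?_, ?_⟩, rfl⟩
    · have h7 := h1 (⟨a, (hF a).2 h3⟩, ⟨b, (hF b).2 h4⟩)
      dsimp only at h7
      rw [h5] at h7
      exact Subtype.ext h7.symm
    · intro h8
      have h7 := h2 ⟨a, (hF a).2 h3⟩
      dsimp only at h7 h8
      rw [h8] at h7
      exact h6 h7

theorem cp_fin (f : K[X][X]) (D : K[X]) (Ω : Type) [Field Ω] [Algebra K Ω] {q : ℕ}
    (hq : 2 ≤ q) : (CP f D Ω q).Finite := by
  have h1 : {c : Ω | c ^ q = c}.Finite := by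
    have hne : (X ^ q - X : Polynomial Ω) ≠ 0 := FiniteField.X_pow_card_sub_X_ne_zero Ω (by omega)
    refine (rootSet_finite (X ^ q - X : Polynomial Ω) Ω).subset ?_
    intro c hc
    have hc' : c ^ q = c := hc
    rw [mem_rootSet]
    simp [hne, hc']
  refine (h1.prod h1).subset ?_
  rintro ⟨x, y⟩ ⟨h2, h3, -, -⟩
  exact ⟨h2, h3⟩

theorem cp_mono (f : K[X][X]) {D Δ : K[X]} (h : D ∣ Δ) (Ω : Type) [Field Ω] [Algebra K Ω]
    (q : ℕ) : CP f Δ Ω q ⊆ CP f D Ω q := by
  rintro ⟨x, y⟩ ⟨h1, h2, h3, h4⟩
  refine ⟨h1, h2, h3, ?_⟩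
  intro h5
  obtain ⟨E, rfl⟩ := h
  apply h4
  dsimp only at h5 ⊢
  rw [map_mul, h5, zero_mul]

end Pool.Agent.Weil
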