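import Pool.Agent.Weil.FltW

/-!
# Package Weil-FltD: the Hilbert function of the weighted filtration

`μ` monic of degree `n ≥ 1`, `μ ∈ WD K w (w n)`, `w ≥ 1`. For `r ≥ w n`:
`finrank (FW μ w r) + w (n (n - 1) / 2) = n (r + 1)`.

`fw_red`: every element of `FW μ w r` has a representative in `WD K w r` of outer degree `< n`:
`g %ₘ μ`, by induction on the outer degree (subtract `C a * X ^ (j - n) * μ` where `a` is the
leading coefficient of `g`, `j ≥ n`; `C a * X ^ (j - n) ∈ WD K w (r - w n)` when `C a * X ^ j ∈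
WD K w r`, so the product is in `WD K w r` by `wd_mul`), or strong induction on `natDegree`. So
`FW μ w r` is isomorphic to `{g ∈ WD K w r | natDegree g < n}` (`g ↦ mk g` is injective for outer
degree `< n`: `AdjoinRoot.powerBasis'`, `AdjoinRoot.modByMonicHom`,
`Polynomial.modByMonic_eq_self_iff`), whose elements are
the `∑_{j < n} c_j T ^ j` with `deg c_j ≤ r - w j`: dimension `∑_{j < n} (r - w j + 1)`
(`Polynomial.degreeLT`, `finrank_pi`, or a basis of monomials); `∑_{j < n} j = n (n - 1) / 2`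
(`Finset.sum_range_id`).

`flt_fw`: `FW μ w` is a filtration as in `Flt`.
-/

set_option autoImplicit false

namespace Pool.Agent.Weil

open Polynomial Pool.Agent.CvB

variable {K : Type} [Field K]

private theorem mono_mem_FltD {g : K[X][X]} {w r n : ℕ} (hg : g ∈ WD K w r)
    (hn : n ≤ g.natDegree) :
    C g.leadingCoeff * X ^ (g.natDegree - n) ∈ WD K w (r - w * n) := by
  intro i j h
  rw [coeff_C_mul, coeff_X_pow]
  split_ifs with h1
  · subst h1
    rw [mul_one]
    refine hg i g.natDegree ?_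
    have h2 : w * (g.natDegree - n) + w * n = w * g.natDegree := by
      rw [← mul_add, Nat.sub_add_cancel hn]
    omega
  · simp

private theorem degree_le_degree_of_natDegree_le_FltD {R : Type} [CommRing R] {μ g : R[X]}
    (hg : g ≠ 0) (h : μ.natDegree ≤ g.natDegree) : μ.degree ≤ g.degree := by
  rw [degree_eq_natDegree hg]
  exact degree_le_of_natDegree_le h

private theorem natDegree_lt_natDegree_of_degree_lt_FltD {R : Type} [CommRing R] {a g : R[X]}
    (h0 : 0 < g.natDegree) (h : a.degree < g.degree) : a.natDegree < g.natDegree := by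
  by_cases ha : a = 0
  · rw [ha, natDegree_zero]
    exact h0
  · exact natDegree_lt_natDegree ha h

private theorem red_aux_FltD {μ : K[X][X]} (hμ : μ.Monic) {w r : ℕ}
    (hw : μ ∈ WD K w (w * μ.natDegree)) (hn : 1 ≤ μ.natDegree) (N : ℕ) :
    ∀ g ∈ WD K w r, g.natDegree ≤ N →
    ∃ g' ∈ WD K w r, g'.natDegree < μ.natDegree ∧ AdjoinRoot.mk μ g' = AdjoinRoot.mk μ g := by
  induction N with
  | zero =>
    intro g hg h
    exact ⟨g, hg, by omega, rfl⟩
  | succ N ih =>
    intro g hg h
    by_cases h1 : g.natDegree < μ.natDegree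
    · exact ⟨g, hg, h1, rfl⟩
    push Not at h1
    have hg0 : g ≠ 0 := by
      rintro rfl
      simp only [natDegree_zero] at h1
      omega
    have hr : w * μ.natDegree ≤ r := by
      by_contra hr
      push Not at hr
      apply hg0
      rw [← leadingCoeff_eq_zero]
      ext i
      rw [leadingCoeff, coeff_zero]
      refine hg i g.natDegree ?_
      have h2 : w * μ.natDegree ≤ w * g.natDegree := Nat.mul_le_mul_left w h1
      omega
    have hm : μ * (C g.leadingCoeff * X ^ (g.natDegree - μ.natDegree)) ∈ WD K w r := by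
      have h2 := wd_mul hw (mono_mem_FltD hg h1)
      have h3 : w * μ.natDegree + (r - w * μ.natDegree) = r := by omega
      rwa [h3] at h2
    have hd : (g - μ * (C g.leadingCoeff * X ^ (g.natDegree - μ.natDegree))).degree < g.degree := by
      refine div_wf_lemma ⟨?_, hg0⟩ hμ
      exact degree_le_degree_of_natDegree_le_FltD hg0 h1
    have hd' : (g - μ * (C g.leadingCoeff * X ^ (g.natDegree - μ.natDegree))).natDegree ≤ N := by
      have h2 := natDegree_lt_natDegree_of_degree_lt_FltD (by omega) hd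
      omega
    obtain ⟨g', k1, k2, k3⟩ := ih _ ((WD K w r).sub_mem hg hm) hd'
    refine ⟨g', k1, k2, k3.trans ?_⟩
    rw [map_sub, map_mul, AdjoinRoot.mk_self, zero_mul, sub_zero]

theorem fw_red {μ : K[X][X]} (hμ : μ.Monic) {w r : ℕ} (hw : μ ∈ WD K w (w * μ.natDegree))
    {a : CA μ} (ha : a ∈ FW μ w r) (hn : 1 ≤ μ.natDegree) :
    ∃ g ∈ WD K w r, g.natDegree < μ.natDegree ∧ AdjoinRoot.mk μ g = a := by
  obtain ⟨g, hg, rfl⟩ := ha
  obtain ⟨g', k1, k2, k3⟩ := red_aux_FltD hμ hw hn g.natDegree g hg le_rfl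
  exact ⟨g', k1, k2, k3⟩

/-- the polynomials of outer degree `< n` with given coefficients -/
private noncomputable def psi_FltD (K : Type) [Field K] (w r n : ℕ) :
    ((j : Fin n) → degreeLT K (r - w * j + 1)) →ₗ[K] K[X][X] :=
  ∑ j : Fin n, ((monomial (j : ℕ) : K[X] →ₗ[K[X]] K[X][X]).restrictScalars K) ∘ₗ
    (degreeLT K (r - w * j + 1)).subtype ∘ₗ LinearMap.proj j

private theorem psi_apply_FltD (w r n : ℕ) (c : (j : Fin n) → degreeLT K (r - w * j + 1)) :
    psi_FltD K w r n c = ∑ j : Fin n, monomial (j : ℕ) (c j : K[X]) := by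
  simp [psi_FltD]

private theorem psi_coeff_FltD (w r n : ℕ) (c : (j : Fin n) → degreeLT K (r - w * j + 1)) (k : ℕ) :
    (psi_FltD K w r n c).coeff k = if h : k < n then (c ⟨k, h⟩ : K[X]) else 0 := by
  rw [psi_apply_FltD, finsetSum_coeff]
  split_ifs with h
  · rw [Finset.sum_eq_single (⟨k, h⟩ : Fin n)]
    · simp
    · intro j _ hj
      rw [coeff_monomial, if_neg]
      intro h1
      exact hj (Fin.ext h1)
    · intro h1
      exact absurd (Finset.mem_univ _) h1
  · refine Finset.sum_eq_zero fun j _ => ?_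
    rw [coeff_monomial, if_neg]
    intro h1
    have := j.2
    omega

private theorem psi_degree_FltD (w r n : ℕ) (c : (j : Fin n) → degreeLT K (r - w * j + 1)) :
    (psi_FltD K w r n c).degree < n := by
  rw [degree_lt_iff_coeff_zero]
  intro m hm
  rw [psi_coeff_FltD, dif_neg (by omega)]

private theorem psi_mem_FltD (w r n : ℕ) (hr : w * n ≤ r)
    (c : (j : Fin n) → degreeLT K (r - w * j + 1)) : psi_FltD K w r n c ∈ WD K w r := by
  intro i j h
  rw [psi_coeff_FltD]
  split_ifs with h1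
  · have h2 := (c ⟨j, h1⟩).2
    rw [mem_degreeLT, degree_lt_iff_coeff_zero] at h2
    refine h2 i ?_
    change r - w * j + 1 ≤ i
    have h3 : w * j ≤ w * n := Nat.mul_le_mul_left w h1.le
    omega
  · simp

private theorem psi_surj_FltD (w r n : ℕ) (hr : w * n ≤ r) {g : K[X][X]} (hg : g ∈ WD K w r)
    (hd : g.natDegree < n) : ∃ c, psi_FltD K w r n c = g := by
  refine ⟨fun j => ⟨g.coeff j, ?_⟩, ?_⟩
  · rw [mem_degreeLT, degree_lt_iff_coeff_zero]
    intro m hm
    refine hg m j ?_
    have h3 : w * j ≤ w * n := Nat.mul_le_mul_left w j.2.le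
    omega
  · ext1 k
    rw [psi_coeff_FltD]
    split_ifs with h
    · rfl
    · exact (coeff_eq_zero_of_natDegree_lt (by omega)).symm

private noncomputable def phi_FltD (μ : K[X][X]) (w r : ℕ) :
    ((j : Fin μ.natDegree) → degreeLT K (r - w * j + 1)) →ₗ[K] CA μ :=
  (Ideal.Quotient.mkₐ K (Ideal.span {μ})).toLinearMap ∘ₗ psi_FltD K w r μ.natDegree

private theorem psi_inj_FltD {μ : K[X][X]} (hμ : μ.Monic) (w r : ℕ) :
    Function.Injective (phi_FltD μ w r) := by
  rw [← LinearMap.ker_eq_bot, LinearMap.ker_eq_bot']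
  intro c hc
  have h1 : (AdjoinRoot.mk μ) (psi_FltD K w r μ.natDegree c) = 0 := hc
  rw [AdjoinRoot.mk_eq_zero] at h1
  have h2 : psi_FltD K w r μ.natDegree c = 0 := by
    refine eq_zero_of_dvd_of_degree_lt h1 ?_
    rw [degree_eq_natDegree hμ.ne_zero]
    exact psi_degree_FltD w r μ.natDegree c
  ext1 j
  have h3 := psi_coeff_FltD w r μ.natDegree c j
  rw [h2, coeff_zero, dif_pos j.2] at h3
  exact Subtype.ext h3.symm

private theorem psi_range_FltD {μ : K[X][X]} (hμ : μ.Monic) {w r : ℕ}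
    (hw : μ ∈ WD K w (w * μ.natDegree)) (hn : 1 ≤ μ.natDegree) (hr : w * μ.natDegree ≤ r) :
    LinearMap.range (phi_FltD μ w r) = FW μ w r := by
  apply le_antisymm
  · rintro _ ⟨c, rfl⟩
    exact ⟨_, psi_mem_FltD w r μ.natDegree hr c, rfl⟩
  · intro a ha
    obtain ⟨g, k1, k2, k3⟩ := fw_red hμ hw ha hn
    obtain ⟨c, rfl⟩ := psi_surj_FltD w r μ.natDegree hr k1 k2
    exact ⟨c, k3⟩

private theorem finrank_degreeLT_FltD (m : ℕ) : Module.finrank K (degreeLT K m) = m := by
  rw [(degreeLTEquiv K m).finrank_eq, Module.finrank_fin_fun]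

private theorem sum_FltD (w r n : ℕ) (hr : w * n ≤ r) :
    ∑ j : Fin n, (r - w * j + 1) + w * (n * (n - 1) / 2) = n * (r + 1) := by
  rw [Fin.sum_univ_eq_sum_range (fun j => r - w * j + 1) n, ← Finset.sum_range_id, Finset.mul_sum,
    ← Finset.sum_add_distrib]
  have h : ∀ j ∈ Finset.range n, r - w * j + 1 + w * j = r + 1 := by
    intro j hj
    have h3 : w * j ≤ w * n := Nat.mul_le_mul_left w (Finset.mem_range.1 hj).le
    omega
  rw [Finset.sum_congr rfl h, Finset.sum_const, Finset.card_range, smul_eq_mul]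

theorem fw_dim {μ : K[X][X]} (hμ : μ.Monic) {w r : ℕ} (hw1 : 1 ≤ w)
    (hw : μ ∈ WD K w (w * μ.natDegree)) (hn : 1 ≤ μ.natDegree) (hr : w * μ.natDegree ≤ r) :
    Module.finrank K (FW μ w r) + w * (μ.natDegree * (μ.natDegree - 1) / 2) =
      μ.natDegree * (r + 1) := by
  rw [← psi_range_FltD hμ hw hn hr, LinearMap.finrank_range_of_inj (psi_inj_FltD hμ w r)]
  have hfin : ∀ m : ℕ, Module.Finite K (degreeLT K m) := fun m =>
    Module.Finite.equiv (degreeLTEquiv K m).symm
  have h1 : Module.finrank K ((j : Fin μ.natDegree) → degreeLT K (r - w * j + 1)) =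
      ∑ j : Fin μ.natDegree, (r - w * j + 1) := by
    rw [Module.finrank_pi_fintype]
    exact Finset.sum_congr rfl fun j _ => finrank_degreeLT_FltD _
  rw [h1]
  exact sum_FltD w r μ.natDegree hr

theorem flt_fw {μ : K[X][X]} (hμ : μ.Monic) {w : ℕ} (hw1 : 1 ≤ w)
    (hw : μ ∈ WD K w (w * μ.natDegree)) (hn : 1 ≤ μ.natDegree) :
    Flt (FW μ w) μ.natDegree (w * (μ.natDegree * (μ.natDegree - 1) / 2))
      (w * μ.natDegree) where
  n_pos := hn
  one_mem := fw_one μ w
  mul_mem := fw_mul μ w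
  mono := fw_mono μ w
  exh := fw_exh μ w
  fin := fw_fin μ hw1
  dim := fun _ hr => fw_dim hμ hw1 hw hn hr

end Pool.Agent.Weil
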