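import Pool.Agent.Weil.Defs

/-!
# Package Weil-FltW: the weighted filtration of `K[x, T]/(μ)`

`exists_w`: every monic `μ` of degree `n` is in `WD K w (w n)` for some `w ≥ 1`: `w` at least the
degrees of all coefficients (for `j < n`: `i + w j > w n` gives `i > w`).

`wd_mul`: the weighted degree of a product (coefficients of products are sums; `i1 + i2 + w (j1 +
j2) > r + s` implies `i1 + w j1 > r` or `i2 + w j2 > s`).

`fw_one`, `fw_mul`, `fw_mono`, `fw_exh`, `fw_fin`: obvious consequences; `fw_fin`: `WD K w r` is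
finite dimensional for `w ≥ 1` (a polynomial is determined by its coefficients `i + w j ≤ r`, so
`i ≤ r`, `j ≤ r`), so its image is.
-/

set_option autoImplicit false

namespace Pool.Agent.Weil

open Polynomial Pool.Agent.CvB

variable {K : Type} [Field K]

private theorem mem_wd_FltW {w r : ℕ} {g : K[X][X]} :
    g ∈ WD K w r ↔ ∀ i j, r < i + w * j → (g.coeff j).coeff i = 0 := Iff.rfl

private theorem le_sum_FltW (g : K[X][X]) (n j : ℕ) (hj : j ≤ n) :
    (g.coeff j).natDegree ≤ ∑ k ∈ Finset.range (n + 1), (g.coeff k).natDegree :=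
  Finset.single_le_sum (f := fun k => (g.coeff k).natDegree) (fun _ _ => Nat.zero_le _)
    (Finset.mem_range.2 (by omega))

theorem exists_w {μ : K[X][X]} (hμ : μ.Monic) : ∃ w, 1 ≤ w ∧ μ ∈ WD K w (w * μ.natDegree) := by
  refine ⟨1 + ∑ k ∈ Finset.range (μ.natDegree + 1), (μ.coeff k).natDegree, by omega, ?_⟩
  rw [mem_wd_FltW]
  intro i j h
  rcases lt_trichotomy j μ.natDegree with hj | hj | hj
  · refine coeff_eq_zero_of_natDegree_lt ?_
    have h1 := le_sum_FltW μ μ.natDegree j hj.le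
    obtain ⟨t, ht⟩ : ∃ t, μ.natDegree = j + (t + 1) := ⟨μ.natDegree - j - 1, by omega⟩
    set w := 1 + ∑ k ∈ Finset.range (μ.natDegree + 1), (μ.coeff k).natDegree with hw
    have h2 : w * μ.natDegree = w * j + w * t + w := by rw [ht]; ring
    have h3 : 0 ≤ w * t := Nat.zero_le _
    omega
  · subst hj
    have h1 : μ.coeff μ.natDegree = 1 := hμ.coeff_natDegree
    rw [h1, coeff_one, if_neg]
    omega
  · rw [coeff_eq_zero_of_natDegree_lt hj, coeff_zero]

theorem wd_mul {w r s : ℕ} {a b : K[X][X]} (ha : a ∈ WD K w r) (hb : b ∈ WD K w s) :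
    a * b ∈ WD K w (r + s) := by
  rw [mem_wd_FltW] at ha hb ⊢
  intro i j h
  rw [coeff_mul, finsetSum_coeff]
  refine Finset.sum_eq_zero fun p hp => ?_
  rw [coeff_mul]
  refine Finset.sum_eq_zero fun q hq => ?_
  have hp1 : p.1 + p.2 = j := Finset.HasAntidiagonal.mem_antidiagonal.1 hp
  have hq1 : q.1 + q.2 = i := Finset.HasAntidiagonal.mem_antidiagonal.1 hq
  have h1 : w * j = w * p.1 + w * p.2 := by rw [← hp1]; ring
  by_cases h2 : r < q.1 + w * p.1
  · rw [ha _ _ h2, zero_mul]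
  · rw [hb q.2 p.2 (by omega), mul_zero]

private theorem mem_fw_FltW (μ : K[X][X]) (w r : ℕ) (a : CA μ) :
    a ∈ FW μ w r ↔ ∃ g ∈ WD K w r, Ideal.Quotient.mk (Ideal.span {μ}) g = a := Iff.rfl

theorem fw_one (μ : K[X][X]) (w : ℕ) : (1 : CA μ) ∈ FW μ w 0 := by
  rw [mem_fw_FltW]
  refine ⟨1, ?_, map_one _⟩
  rw [mem_wd_FltW]
  intro i j h
  rw [coeff_one]
  split_ifs with hj
  · subst hj
    rw [coeff_one, if_neg]
    omega
  · rw [coeff_zero]

theorem fw_mul (μ : K[X][X]) (w r s : ℕ) (a b : CA μ) (ha : a ∈ FW μ w r) (hb : b ∈ FW μ w s) :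
    a * b ∈ FW μ w (r + s) := by
  rw [mem_fw_FltW] at ha hb ⊢
  obtain ⟨g, hg, rfl⟩ := ha
  obtain ⟨h, hh, rfl⟩ := hb
  exact ⟨g * h, wd_mul hg hh, map_mul _ _ _⟩

theorem fw_mono (μ : K[X][X]) (w : ℕ) : Monotone (FW μ w) := by
  intro r s h
  refine Submodule.map_mono ?_
  intro g hg
  rw [mem_wd_FltW] at hg ⊢
  intro i j h1
  exact hg i j (by omega)

theorem fw_exh (μ : K[X][X]) (w : ℕ) (a : CA μ) : ∃ r, a ∈ FW μ w r := by
  obtain ⟨g, rfl⟩ := Ideal.Quotient.mk_surjective a
  refine ⟨(∑ k ∈ Finset.range (g.natDegree + 1), (g.coeff k).natDegree) + w * g.natDegree, ?_⟩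
  rw [mem_fw_FltW]
  refine ⟨g, ?_, rfl⟩
  rw [mem_wd_FltW]
  intro i j h
  by_cases hj : j ≤ g.natDegree
  · refine coeff_eq_zero_of_natDegree_lt ?_
    have h1 := le_sum_FltW g g.natDegree j hj
    have h2 : w * j ≤ w * g.natDegree := Nat.mul_le_mul_left w hj
    omega
  · rw [coeff_eq_zero_of_natDegree_lt (not_le.1 hj), coeff_zero]

private theorem wd_fin_FltW {w : ℕ} (hw : 1 ≤ w) (r : ℕ) : Module.Finite K (WD K w r) := by
  let φ : K[X][X] →ₗ[K] (Fin (r + 1) → Fin (r + 1) → K) :=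
    { toFun := fun g i j => (g.coeff j).coeff i
      map_add' := by
        intro a b
        funext i j
        simp only [coeff_add, Pi.add_apply]
      map_smul' := by
        intro c a
        funext i j
        simp only [coeff_smul, Pi.smul_apply, RingHom.id_apply] }
  refine Module.Finite.of_injective (φ.comp (WD K w r).subtype) ?_
  refine (injective_iff_map_eq_zero _).2 fun g hg => ?_
  have h1 := g.2
  rw [mem_wd_FltW] at h1
  refine Subtype.ext ?_
  refine Polynomial.ext fun j => Polynomial.ext fun i => ?_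
  by_cases h2 : r < i + w * j
  · rw [h1 i j h2]
    simp
  · have h3 : j ≤ w * j := Nat.le_mul_of_pos_left j (by omega)
    have h4 : ((g : K[X][X]).coeff j).coeff i = 0 :=
      congrFun (congrFun hg (⟨i, by omega⟩ : Fin (r + 1))) (⟨j, by omega⟩ : Fin (r + 1))
    rw [h4]
    simp

theorem fw_fin (μ : K[X][X]) {w : ℕ} (hw : 1 ≤ w) (r : ℕ) : Module.Finite K (FW μ w r) := by
  have := wd_fin_FltW (K := K) hw r
  exact Module.Finite.map _ _

end Pool.Agent.Weil
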