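import Pool.Agent.Weil.Pts

/-!
# Package Weil-Frob: the Frobenius automorphism of a point

Data `GC f μ Δ ρ y`, `q = p ^ e`, `K` of characteristic `p` with `c ^ q = c` for all `c ∈ K`, `Ω`
algebraically closed.

`frob_ex`: a point `ψ` with `xv ψ ^ q = xv ψ` belongs to `NP ρ Ω q g` for exactly one `g`.
Existence: `ψ' z = ψ z ^ q` is a homomorphism of `K`-algebras (`frobenius`, `iterateFrobenius`,
`add_pow_char_pow`; `(algebraMap c) ^ q = algebraMap c`), with the same value of `x`; `pt_conj`.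
Uniqueness: `pt_free`.

`frob_xv`: conversely the points of `NP ρ Ω q g` satisfy `xv ψ ^ q = xv ψ` (`ρ g` fixes `x`).

`np_sum`: the sum of the numbers of the elements of `NP ρ Ω q g` over all `g` is `card G` times
the
number of the `a ∈ Ω` with `a ^ q = a`, `Δ(a) ≠ 0`. (`q ≥ 2`, i.e. `e ≥ 1`: then the set of the
`a` with `a ^ q = a` is
finite, so everything is finite.) The union over `g` of the disjoint sets `NP ρ Ω q g` is the set
of the points with `xv ψ ^ q = xv ψ`, which is the disjoint union over the `a` of the sets in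
`pt_card`.

`cnt_ge`: `q ≤ (number of these a) + natDegree Δ`: the polynomial `X ^ q - X` has `q` different
roots in `Ω`
(`FiniteField.X_pow_card_pow_sub_X_natDegree_eq`, separable: `galois_poly_separable`;
`card_rootSet_eq_natDegree`), at most `natDegree Δ` of them are roots of `Δ`.
-/

set_option autoImplicit false

namespace Pool.Agent.Weil

open Polynomial Pool.Agent.CvB

variable {K : Type} [Field K] {f μ : K[X][X]} {Δ : K[X]} {G : Type} [Group G] [Fintype G]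
  {ρ : G →* (CR μ Δ ≃ₐ[K[X]] CR μ Δ)} {d : ℕ} {y : Fin d → CR μ Δ}
  {Ω : Type} [Field Ω] [Algebra K Ω]

/-- the elements of the field with `q` elements where `Δ` does not vanish -/
def AP (Δ : K[X]) (Ω : Type) [Field Ω] [Algebra K Ω] (q : ℕ) : Set Ω :=
  {a | a ^ q = a ∧ aeval a Δ ≠ 0}

theorem frob_ex (h : GC f μ Δ ρ y) (p : ℕ) [Fact p.Prime] [CharP K p] {e : ℕ}
    (hq : ∀ c : K, c ^ p ^ e = c) (ψ : CR μ Δ →ₐ[K] Ω) (h1 : xv ψ ^ p ^ e = xv ψ) :
    ∃! g, ψ ∈ NP ρ Ω (p ^ e) g := by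
  have : CharP Ω p := charP_of_injective_algebraMap (algebraMap K Ω).injective p
  let ψ' : CR μ Δ →ₐ[K] Ω :=
    { toRingHom := (iterateFrobenius Ω p e).comp ψ.toRingHom
      commutes' := by
        intro c
        show iterateFrobenius Ω p e (ψ (algebraMap K (CR μ Δ) c)) = algebraMap K Ω c
        rw [AlgHom.commutes, iterateFrobenius_def, ← map_pow, hq c] }
  have hψ' : ∀ z, ψ' z = ψ z ^ p ^ e := by
    intro z
    show iterateFrobenius Ω p e (ψ z) = ψ z ^ p ^ e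
    rw [iterateFrobenius_def]
  have h2 : xv ψ = xv ψ' := by
    show xv ψ = ψ' (algebraMap K[X] (CR μ Δ) X)
    rw [hψ']
    exact h1.symm
  obtain ⟨g, hg⟩ := pt_conj h ψ ψ' h2
  refine ⟨g, fun z => ?_, fun g' hg' => ?_⟩
  · rw [← hg z, hψ' z]
  · apply pt_free h ψ
    have h3 : ψ (th μ Δ) ^ p ^ e = ψ (ρ g' (th μ Δ)) := hg' (th μ Δ)
    rw [← h3, ← hψ', hg]

omit [Fintype G] in
theorem frob_xv {q : ℕ} {g : G} {ψ : CR μ Δ →ₐ[K] Ω} (h : ψ ∈ NP ρ Ω q g) :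
    xv ψ ^ q = xv ψ := by
  have h1 : ψ (algebraMap K[X] (CR μ Δ) X) ^ q = ψ (ρ g (algebraMap K[X] (CR μ Δ) X)) :=
    h (algebraMap K[X] (CR μ Δ) X)
  rw [AlgEquiv.commutes] at h1
  exact h1

theorem ap_fin (Δ : K[X]) {q : ℕ} (hq : 2 ≤ q) : (AP Δ Ω q).Finite := by
  classical
  have h0 : (X ^ q - X : Polynomial Ω) ≠ 0 := FiniteField.X_pow_card_sub_X_ne_zero Ω hq
  refine (((X ^ q - X : Polynomial Ω).roots.toFinset).finite_toSet).subset fun a ha => ?_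
  rw [Finset.mem_coe, Multiset.mem_toFinset, mem_roots h0, IsRoot.def]
  simp [ha.1]

private theorem fib_fin_Frob [IsAlgClosed Ω] (h : GC f μ Δ ρ y) {a : Ω} (ha : aeval a Δ ≠ 0) :
    Finite {ψ : CR μ Δ →ₐ[K] Ω // xv ψ = a} := by
  apply Nat.finite_of_card_ne_zero
  rw [pt_card h ha]
  exact Fintype.card_ne_zero

omit [Fintype G] in
private theorem xv_mem_Frob {q : ℕ} {g : G} {ψ : CR μ Δ →ₐ[K] Ω} (h : ψ ∈ NP ρ Ω q g) :
    xv ψ ∈ AP Δ Ω q := ⟨frob_xv h, pt_ne ψ⟩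

theorem np_fin [IsAlgClosed Ω] (h : GC f μ Δ ρ y) {q : ℕ} (hq : 2 ≤ q) (g : G) :
    (NP ρ Ω q g).Finite := by
  have h1 : (⋃ a ∈ AP Δ Ω q, {ψ : CR μ Δ →ₐ[K] Ω | xv ψ = a}).Finite := by
    apply (ap_fin Δ hq).biUnion
    intro a ha
    have := fib_fin_Frob h ha.2
    exact Set.finite_coe_iff.1 (this : Finite {ψ : CR μ Δ →ₐ[K] Ω // xv ψ = a})
  refine h1.subset fun ψ hψ => ?_
  rw [Set.mem_iUnion₂]
  exact ⟨xv ψ, xv_mem_Frob hψ, rfl⟩

theorem np_sum [IsAlgClosed Ω] (h : GC f μ Δ ρ y) (p : ℕ) [Fact p.Prime] [CharP K p] {e : ℕ}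
    (he : 1 ≤ e) (hq : ∀ c : K, c ^ p ^ e = c) :
    ∑ g : G, (NP ρ Ω (p ^ e) g).ncard = Fintype.card G * (AP Δ Ω (p ^ e)).ncard := by
  have hq2 : 2 ≤ p ^ e :=
    (Fact.out : p.Prime).two_le.trans (Nat.le_self_pow (by omega) p)
  have : ∀ g : G, Finite (NP ρ Ω (p ^ e) g) := fun g => (np_fin h hq2 g).to_subtype
  have : Finite (AP Δ Ω (p ^ e)) := (ap_fin Δ hq2).to_subtype
  have : Fintype (AP Δ Ω (p ^ e)) := Fintype.ofFinite _
  have : ∀ a : AP Δ Ω (p ^ e), Finite {ψ : CR μ Δ →ₐ[K] Ω // xv ψ = a} :=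
    fun a => fib_fin_Frob h a.2.2
  let F : (Σ g : G, NP ρ Ω (p ^ e) g) → (CR μ Δ →ₐ[K] Ω) := fun z => z.2.1
  let F2 : (Σ a : AP Δ Ω (p ^ e), {ψ : CR μ Δ →ₐ[K] Ω // xv ψ = a}) → (CR μ Δ →ₐ[K] Ω) :=
    fun z => z.2.1
  have hF : Function.Injective F := by
    rintro ⟨g, ψ, hψ⟩ ⟨g', ψ', hψ'⟩ hh
    have h1 : ψ = ψ' := hh
    subst h1
    have h2 := (frob_ex h p hq ψ (frob_xv hψ)).unique hψ hψ'
    subst h2
    rfl
  have hF2 : Function.Injective F2 := by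
    rintro ⟨⟨a, ha⟩, ψ, hψ⟩ ⟨⟨b, hb⟩, ψ', hψ'⟩ hh
    have h1 : ψ = ψ' := hh
    subst h1
    have h2 : a = b := hψ.symm.trans hψ'
    subst h2
    rfl
  have hr : Set.range F = Set.range F2 := by
    ext ψ
    constructor
    · rintro ⟨⟨g, ψ', hψ⟩, rfl⟩
      exact ⟨⟨⟨xv ψ', xv_mem_Frob hψ⟩, ψ', rfl⟩, rfl⟩
    · rintro ⟨⟨⟨a, ha⟩, ψ', hψ⟩, rfl⟩
      have h1 : xv ψ' = a := hψ
      obtain ⟨g, hg, _⟩ := frob_ex h p hq ψ' (by rw [h1]; exact ha.1)
      exact ⟨⟨g, ψ', hg⟩, rfl⟩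
  have h1 : Nat.card (Σ g : G, NP ρ Ω (p ^ e) g) =
      Nat.card (Σ a : AP Δ Ω (p ^ e), {ψ : CR μ Δ →ₐ[K] Ω // xv ψ = a}) := by
    rw [← Nat.card_range_of_injective hF, ← Nat.card_range_of_injective hF2, hr]
  rw [Nat.card_sigma, Nat.card_sigma] at h1
  simp only [← Nat.card_coe_set_eq] at h1 ⊢
  rw [h1, Finset.sum_congr rfl fun a _ => pt_card h a.2.2, Finset.sum_const, smul_eq_mul,
    Finset.card_univ, mul_comm, Nat.card_eq_fintype_card]

theorem cnt_ge [IsAlgClosed Ω] (p : ℕ) [Fact p.Prime] [CharP K p] {e : ℕ} (he : 1 ≤ e)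
    (hΔ : Δ ≠ 0) : p ^ e ≤ (AP Δ Ω (p ^ e)).ncard + Δ.natDegree := by
  classical
  have : CharP Ω p := charP_of_injective_algebraMap (algebraMap K Ω).injective p
  have hq2 : 1 < p ^ e :=
    lt_of_lt_of_le (Fact.out : p.Prime).one_lt (Nat.le_self_pow (by omega) p)
  have h0 : (X ^ p ^ e - X : Polynomial Ω) ≠ 0 := FiniteField.X_pow_card_sub_X_ne_zero Ω hq2
  have hdeg : (X ^ p ^ e - X : Polynomial Ω).natDegree = p ^ e :=
    FiniteField.X_pow_card_sub_X_natDegree_eq Ω hq2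
  have hsep : (X ^ p ^ e - X : Polynomial Ω).Separable :=
    galois_poly_separable p (p ^ e) (dvd_pow_self p (by omega))
  have hnd : (X ^ p ^ e - X : Polynomial Ω).roots.Nodup := nodup_roots hsep
  have hcard : (X ^ p ^ e - X : Polynomial Ω).roots.card = p ^ e := by
    rw [← (IsAlgClosed.splits (X ^ p ^ e - X : Polynomial Ω)).natDegree_eq_card_roots, hdeg]
  have hA : (X ^ p ^ e - X : Polynomial Ω).roots.toFinset.card = p ^ e := by
    rw [Multiset.toFinset_card_of_nodup hnd, hcard]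
  have hΔ' : Δ.map (algebraMap K Ω) ≠ 0 := (Polynomial.map_ne_zero_iff
    (algebraMap K Ω).injective).2 hΔ
  have hR : (Δ.map (algebraMap K Ω)).roots.toFinset.card ≤ Δ.natDegree := by
    refine (Multiset.toFinset_card_le _).trans ((card_roots' _).trans ?_)
    exact natDegree_map_le
  have hsub : (((X ^ p ^ e - X : Polynomial Ω).roots.toFinset \
      (Δ.map (algebraMap K Ω)).roots.toFinset : Finset Ω) : Set Ω) ⊆ AP Δ Ω (p ^ e) := by
    intro a ha
    rw [Finset.mem_coe, Finset.mem_sdiff, Multiset.mem_toFinset, Multiset.mem_toFinset,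
      mem_roots h0, mem_roots hΔ', IsRoot.def, IsRoot.def, eval_map_algebraMap] at ha
    refine ⟨?_, ha.2⟩
    have := ha.1
    simp only [eval_sub, eval_pow, eval_X] at this
    exact sub_eq_zero.1 this
  have h1 := Set.ncard_le_ncard hsub (ap_fin Δ hq2)
  rw [Set.ncard_coe_finset] at h1
  have h2 := Finset.le_card_sdiff (Δ.map (algebraMap K Ω)).roots.toFinset
    (X ^ p ^ e - X : Polynomial Ω).roots.toFinset
  omega

end Pool.Agent.Weil
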