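import Pool.Agent.Weil.Defs

/-!
# Package Weil-Loc: a ring between the coordinate ring and its field of fractions

`μ ∈ K[X][X]`, `Δ ≠ 0` in `K[X]`, `L` a field, `φ : CA μ → L` an injective homomorphism of
`K[X]`-algebras.

`loc_ext`: `φ` extends to an injective homomorphism `j : CR μ Δ → L` of `K[X]`-algebras with
`φ a = j (ι a)`, and `z ∈ L` is in the image of `j` if and only if `Δ ^ k z` is in the image of
`φ`
for some `k`. (`CR μ Δ = Localization.Away (AdjoinRoot.of μ Δ)`; `φ (of Δ) = algebraMap Δ ≠ 0` by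
`hx`, so it is a unit of the field `L`;
`IsLocalization.Away.lift` / `IsLocalization.liftAlgHom`, `IsLocalization.lift_injective_iff`.)

`loc_act`: an action `σ` of `G` on `L` by automorphisms of `K[X]`-algebras such that every
`σ g (φ root)` is in the image of `j` comes from an action `ρ` on `CR μ Δ`: `j (ρ g z) =
σ g (j z)`. The image of `j` is generated as a ring by the image of `K[X]`, `θ = φ root` and
`1 / Δ`; so `σ g` maps it into itself; `ρ g z` is the unique element with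
`j (ρ g z) = σ g (j z)`; it is a homomorphism
by injectivity, `ρ (g h) = ρ g ρ h`.
-/

set_option autoImplicit false

namespace Pool.Agent.Weil

open Polynomial Pool.Agent.CvB

variable {K : Type} [Field K] {μ : K[X][X]} {L : Type} [Field L] [Algebra K[X] L]

private theorem unit_Loc (μ : K[X][X]) (Δ : K[X]) : IsUnit (algebraMap K[X] (CR μ Δ) Δ) := by
  have h := IsLocalization.Away.algebraMap_isUnit (S := CR μ Δ) (AdjoinRoot.of μ Δ)
  rw [IsScalarTower.algebraMap_apply K[X] (CA μ) (CR μ Δ)]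
  exact h

private theorem surj_Loc (μ : K[X][X]) (Δ : K[X]) (z : CR μ Δ) : ∃ (n : ℕ) (a : CA μ),
    z * algebraMap K[X] (CR μ Δ) Δ ^ n = algebraMap (CA μ) (CR μ Δ) a := by
  obtain ⟨n, a, h⟩ := IsLocalization.Away.surj (AdjoinRoot.of μ Δ) z
  refine ⟨n, a, ?_⟩
  rw [IsScalarTower.algebraMap_apply K[X] (CA μ) (CR μ Δ)]
  exact h

theorem loc_ext (hx : Function.Injective (algebraMap K[X] L)) {Δ : K[X]} (hΔ : Δ ≠ 0)
    (φ : CA μ →ₐ[K[X]] L) (hφ : Function.Injective φ) :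
    ∃ j : CR μ Δ →ₐ[K[X]] L, Function.Injective j ∧
      (∀ a, j (algebraMap (CA μ) (CR μ Δ) a) = φ a) ∧
      ∀ z : L, (∃ r, j r = z) ↔ ∃ (k : ℕ) (a : CA μ), φ a = algebraMap K[X] L (Δ ^ k) * z := by
  have h0 : algebraMap K[X] L Δ ≠ 0 := by
    rw [Ne, map_eq_zero_iff _ hx]
    exact hΔ
  have h1 : φ (AdjoinRoot.of μ Δ) = algebraMap K[X] L Δ := φ.commutes Δ
  have h2 : ∀ y : Submonoid.powers (AdjoinRoot.of μ Δ), IsUnit (φ y) := by
    rintro ⟨_, n, rfl⟩
    change IsUnit (φ (AdjoinRoot.of μ Δ ^ n))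
    rw [map_pow, h1]
    exact (isUnit_iff_ne_zero.2 h0).pow n
  let j : CR μ Δ →ₐ[K[X]] L :=
    IsLocalization.liftAlgHom (M := Submonoid.powers (AdjoinRoot.of μ Δ)) (S := CR μ Δ)
      (f := φ) h2
  have hj : ∀ a, j (algebraMap (CA μ) (CR μ Δ) a) = φ a := fun a =>
    IsLocalization.lift_eq (M := Submonoid.powers (AdjoinRoot.of μ Δ)) (S := CR μ Δ)
      (g := (φ : CA μ →+* L)) h2 a
  have hu : ∀ n : ℕ, j (algebraMap K[X] (CR μ Δ) Δ ^ n) = algebraMap K[X] L Δ ^ n := by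
    intro n
    rw [map_pow, j.commutes]
  refine ⟨j, ?_, hj, fun z => ⟨?_, ?_⟩⟩
  · rw [injective_iff_map_eq_zero]
    intro z hz
    obtain ⟨n, a, h⟩ := surj_Loc μ Δ z
    have h3 : φ a = 0 := by
      rw [← hj, ← h, map_mul, hz, zero_mul]
    rw [map_eq_zero_iff _ hφ] at h3
    rw [h3, map_zero] at h
    exact ((unit_Loc μ Δ).pow n).mul_left_eq_zero.1 h
  · rintro ⟨r, rfl⟩
    obtain ⟨n, a, h⟩ := surj_Loc μ Δ r
    refine ⟨n, a, ?_⟩
    rw [← hj, ← h, map_mul, hu, map_pow, mul_comm]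
  · rintro ⟨k, a, h⟩
    obtain ⟨v, hv⟩ := ((unit_Loc μ Δ).pow k).exists_left_inv
    refine ⟨algebraMap (CA μ) (CR μ Δ) a * v, ?_⟩
    have h4 := congrArg j hv
    rw [map_mul, hu, map_one] at h4
    rw [map_mul, hj, h, map_pow, mul_right_comm, mul_comm (algebraMap K[X] L Δ ^ k), h4,
      one_mul]

private theorem mem_Loc {Δ : K[X]} (j : CR μ Δ →ₐ[K[X]] L) (τ : L ≃ₐ[K[X]] L)
    (hτ : ∃ r, j r = τ (j (th μ Δ))) (z : CR μ Δ) : ∃ r, j r = τ (j z) := by
  let S : Subalgebra K[X] (CR μ Δ) := j.range.comap ((τ : L →ₐ[K[X]] L).comp j)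
  have h1 : ∀ z, z ∈ S ↔ ∃ r, j r = τ (j z) := fun z => Iff.rfl
  have h2 : ∀ a : CA μ, algebraMap (CA μ) (CR μ Δ) a ∈ S := by
    intro a
    obtain ⟨p, rfl⟩ := AdjoinRoot.mk_surjective a
    have h3 : algebraMap (CA μ) (CR μ Δ) (AdjoinRoot.mk μ p) = aeval (th μ Δ) p := by
      rw [← AdjoinRoot.aeval_eq]
      exact (aeval_algebraMap_apply (CR μ Δ) (AdjoinRoot.root μ) p).symm
    rw [h3]
    exact Algebra.adjoin_le (Set.singleton_subset_iff.2 ((h1 _).2 hτ))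
      (aeval_mem_adjoin_singleton K[X] (th μ Δ))
  obtain ⟨n, a, h⟩ := surj_Loc μ Δ z
  obtain ⟨v, hv⟩ := ((unit_Loc μ Δ).pow n).exists_left_inv
  have h4 : v ∈ S := by
    refine (h1 v).2 ⟨v, ?_⟩
    have h5 := congrArg j hv
    rw [map_mul, map_pow, j.commutes, map_one] at h5
    have h6 := congrArg τ h5
    rw [map_mul, map_pow, τ.commutes, map_one] at h6
    have h7 : algebraMap K[X] L Δ ^ n ≠ 0 := right_ne_zero_of_mul_eq_one h5
    exact mul_right_cancel₀ h7 (h5.trans h6.symm)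
  have h5 : z = algebraMap (CA μ) (CR μ Δ) a * v := by
    rw [← h, mul_assoc, mul_comm _ v, hv, mul_one]
  rw [h5]
  exact (h1 _).1 (S.mul_mem (h2 a) h4)

theorem loc_act {Δ : K[X]} (j : CR μ Δ →ₐ[K[X]] L) (hj : Function.Injective j)
    {G : Type} [Group G] (σ : G →* (L ≃ₐ[K[X]] L)) (hσ : ∀ g, ∃ r, j r = σ g (j (th μ Δ))) :
    ∃ ρ : G →* (CR μ Δ ≃ₐ[K[X]] CR μ Δ), ∀ g z, j (ρ g z) = σ g (j z) := by
  have h1 : ∀ g, ∃ f : CR μ Δ →ₐ[K[X]] CR μ Δ, ∀ z, j (f z) = σ g (j z) := by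
    intro g
    have h2 : ∀ z, (((σ g : L ≃ₐ[K[X]] L) : L →ₐ[K[X]] L).comp j) z ∈ j.range :=
      fun z => mem_Loc j (σ g) (hσ g) z
    let J := AlgEquiv.ofInjective j hj
    refine ⟨(J.symm : j.range →ₐ[K[X]] CR μ Δ).comp
      ((((σ g : L ≃ₐ[K[X]] L) : L →ₐ[K[X]] L).comp j).codRestrict j.range h2), fun z => ?_⟩
    have h3 : ∀ y : j.range, j (J.symm y) = y := fun y =>
      congrArg Subtype.val (J.apply_symm_apply y)
    exact h3 _
  choose f hf using h1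
  have h2 : ∀ g h z, f g (f h z) = f (g * h) z := by
    intro g h z
    apply hj
    rw [hf, hf, hf, map_mul]
    rfl
  have h3 : ∀ z, f 1 z = z := by
    intro z
    apply hj
    rw [hf, map_one]
    rfl
  refine ⟨MonoidHom.mk' (fun g => AlgEquiv.ofAlgHom (f g) (f g⁻¹) ?_ ?_) ?_, fun g z => hf g z⟩
  · apply AlgHom.ext
    intro z
    change f g (f g⁻¹ z) = z
    rw [h2, mul_inv_cancel, h3]
  · apply AlgHom.ext
    intro z
    change f g⁻¹ (f g z) = z
    rw [h2, inv_mul_cancel, h3]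
  · intro g h
    apply AlgEquiv.ext
    intro z
    exact (h2 g h z).symm

end Pool.Agent.Weil
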