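import Mathlib

/-!
# Package Weil-Min: a primitive element and its minimal polynomial (only Mathlib)

`E = Frac K[X]`, `L` a finite Galois extension of `E`.

`prim`: there is `θ ∈ L` with `E(θ) = L`, integral over `K[X]` (`Field.exists_primitive_element`;
multiply by a nonzero element of `K[X]`: `IsIntegral.exists_multiple_integral_of_isLocalization`
or
`IsAlgebraic.exists_integral_multiple`; the field generated does not change).

`min_facts`: `μ = minpoly K[X] θ`: `minpoly E θ = μ.map _`
(`minpoly.isIntegrallyClosed_eq_field_fractions'`), so `μ` is monic, irreducible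
(`minpoly.irreducible`, `Monic.irreducible_iff_irreducible_map_fraction_map`), of degree
`[L : E] = card (L ≃ₐ[E] L)` (`IsGalois.card_aut_eq_finrank`), the `g θ` are pairwise different
(an automorphism is determined by its value at `θ`) roots of `μ`, so `μ = ∏ (X - g θ)` over `L`.

`min_inj`: the homomorphism `AdjoinRoot μ → L`, `root ↦ θ` (here: `φ` with `φ root = θ`) is
injective: a polynomial `P ∈ K[X][X]` with `P(θ) = 0` is divisible by `μ`
(`minpoly.isIntegrallyClosed_dvd`).

`min_den`: for `z ∈ L` there is `Δ ≠ 0` in `K[X]` with `Δ z` in the image of `φ`: `L = E[θ]`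
(`IntermediateField.adjoin_simple_toSubalgebra_of_integral` ...), common denominator of the
coefficients
(`IsLocalization.integerNormalization`).
-/

set_option autoImplicit false

namespace Pool.Agent.Weil

open Polynomial

variable {K : Type} [Field K] {E L : Type} [Field E] [Algebra K[X] E] [IsFractionRing K[X] E]
  [Field L] [Algebra K[X] L] [Algebra E L] [IsScalarTower K[X] E L] [FiniteDimensional E L]
  [IsGalois E L]

private theorem inj_Min (K : Type) [Field K] (E L : Type) [Field E] [Algebra K[X] E]
    [IsFractionRing K[X] E] [Field L] [Algebra K[X] L] [Algebra E L] [IsScalarTower K[X] E L] :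
    Function.Injective (algebraMap K[X] L) := by
  rw [IsScalarTower.algebraMap_eq K[X] E L]
  exact (algebraMap E L).injective.comp (IsFractionRing.injective K[X] E)

theorem prim (K : Type) [Field K] (E L : Type) [Field E] [Algebra K[X] E]
    [IsFractionRing K[X] E] [Field L] [Algebra K[X] L] [Algebra E L] [IsScalarTower K[X] E L]
    [FiniteDimensional E L] [IsGalois E L] :
    ∃ θ : L, IsIntegral K[X] θ ∧ IntermediateField.adjoin E {θ} = ⊤ := by
  obtain ⟨α, hα⟩ := Field.exists_primitive_element E L
  have h1 : IsAlgebraic E α := (IsIntegral.of_finite E α).isAlgebraic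
  have h2 : IsAlgebraic K[X] α := (IsFractionRing.isAlgebraic_iff K[X] E L).2 h1
  obtain ⟨y, hy, hint⟩ := h2.exists_integral_multiple
  refine ⟨y • α, hint, ?_⟩
  have hyE : algebraMap K[X] E y ≠ 0 := by
    intro h
    exact hy ((map_eq_zero_iff _ (IsFractionRing.injective K[X] E)).1 h)
  have hsm : y • α = algebraMap K[X] E y • α := by
    rw [IsScalarTower.algebraMap_smul]
  rw [eq_top_iff, ← hα, IntermediateField.adjoin_le_iff, Set.singleton_subset_iff]
  have h3 : y • α ∈ IntermediateField.adjoin E {y • α} :=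
    IntermediateField.mem_adjoin_simple_self E (y • α)
  have h4 : α = (algebraMap K[X] E y)⁻¹ • (y • α) := by
    rw [hsm, smul_smul, inv_mul_cancel₀ hyE, one_smul]
  have h5 : (algebraMap K[X] E y)⁻¹ • (y • α) ∈ IntermediateField.adjoin E {y • α} :=
    IntermediateField.smul_mem _ h3
  rw [← h4] at h5
  exact h5

theorem min_facts {θ : L} (hi : IsIntegral K[X] θ) (ht : IntermediateField.adjoin E {θ} = ⊤) :
    (minpoly K[X] θ).Monic ∧ Irreducible (minpoly K[X] θ) ∧
      (minpoly K[X] θ).natDegree = Fintype.card (L ≃ₐ[E] L) ∧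
      Function.Injective (fun g : L ≃ₐ[E] L => g θ) ∧
      (minpoly K[X] θ).map (algebraMap K[X] L) = ∏ g : L ≃ₐ[E] L, (X - C (g θ)) := by
  classical
  have hmon : (minpoly K[X] θ).Monic := minpoly.monic hi
  have hE : IsIntegral E θ := IsIntegral.of_finite E θ
  have hfr : minpoly E θ = (minpoly K[X] θ).map (algebraMap K[X] E) :=
    minpoly.isIntegrallyClosed_eq_field_fractions' E hi
  have hirr : Irreducible (minpoly K[X] θ) := by
    rw [hmon.irreducible_iff_irreducible_map_fraction_map (K := E), ← hfr]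
    exact minpoly.irreducible hE
  have hdeg : (minpoly K[X] θ).natDegree = Fintype.card (L ≃ₐ[E] L) := by
    have h1 : (minpoly E θ).natDegree = (minpoly K[X] θ).natDegree := by
      rw [hfr, hmon.natDegree_map]
    have h2 : (minpoly E θ).natDegree = Module.finrank E L := by
      rw [← IntermediateField.adjoin.finrank hE, ht, IntermediateField.finrank_top']
    rw [← h1, h2, ← Nat.card_eq_fintype_card, IsGalois.card_aut_eq_finrank]
  have hinj : Function.Injective (fun g : L ≃ₐ[E] L => g θ) := by
    intro g h hgh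
    have hgh' : g θ = h θ := hgh
    have h1 : (g : L →ₐ[E] L) = (h : L →ₐ[E] L) := by
      have hle : (⊤ : IntermediateField E L) ≤
          IntermediateField.fixedField (Subgroup.zpowers (h⁻¹ * g)) := by
        rw [← ht, IntermediateField.adjoin_le_iff, Set.singleton_subset_iff]
        rintro ⟨x, hx⟩
        have hst : h⁻¹ * g ∈ MulAction.stabilizer (L ≃ₐ[E] L) θ := by
          rw [MulAction.mem_stabilizer_iff]
          change (h⁻¹ * g) θ = θ
          rw [AlgEquiv.mul_apply, hgh']
          exact h.symm_apply_apply θ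
        have hsub : Subgroup.zpowers (h⁻¹ * g) ≤ MulAction.stabilizer (L ≃ₐ[E] L) θ := by
          rw [Subgroup.zpowers_le]
          exact hst
        exact hsub hx
      ext x
      have hx := hle (IntermediateField.mem_top (x := x))
      have h2 := hx ⟨h⁻¹ * g, Subgroup.mem_zpowers _⟩
      have h3 : (h⁻¹ * g) x = x := h2
      rw [AlgEquiv.mul_apply] at h3
      have h4 : h (h⁻¹ (g x)) = h x := by rw [h3]
      have h5 : h (h⁻¹ (g x)) = g x := h.apply_symm_apply (g x)
      change g x = h x
      rw [← h4, h5]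
    exact AlgEquiv.ext fun x => by
      have := DFunLike.congr_fun h1 x
      exact this
  refine ⟨hmon, hirr, hdeg, hinj, ?_⟩
  have hroot : ∀ g : L ≃ₐ[E] L, ((minpoly K[X] θ).map (algebraMap K[X] L)).IsRoot (g θ) := by
    intro g
    have h1 : aeval (g θ) (minpoly E θ) = 0 := by
      rw [← AlgEquiv.coe_toAlgHom, aeval_algHom_apply, minpoly.aeval, map_zero]
    have h2 : (minpoly K[X] θ).map (algebraMap K[X] L) =
        (minpoly E θ).map (algebraMap E L) := by
      rw [hfr, Polynomial.map_map, ← IsScalarTower.algebraMap_eq]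
    rw [IsRoot.def, h2, eval_map_algebraMap]
    exact h1
  have hmonL : ((minpoly K[X] θ).map (algebraMap K[X] L)).Monic := hmon.map _
  have hdvd : (∏ g : L ≃ₐ[E] L, (X - C (g θ))) ∣ (minpoly K[X] θ).map (algebraMap K[X] L) := by
    apply Finset.prod_dvd_of_coprime
    · intro g _ h _ hgh
      exact pairwise_coprime_X_sub_C hinj hgh
    · intro g _
      exact dvd_iff_isRoot.2 (hroot g)
  have hmonP : (∏ g : L ≃ₐ[E] L, (X - C (g θ))).Monic :=
    monic_prod_of_monic _ _ fun g _ => monic_X_sub_C _
  symm
  refine (eq_of_monic_of_dvd_of_natDegree_le hmonP hmonL hdvd ?_).symm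
  rw [hmon.natDegree_map, hdeg, natDegree_prod_of_monic _ _ fun g _ => monic_X_sub_C _]
  simp

omit [Algebra K[X] E] [IsFractionRing K[X] E] [Algebra E L] [IsScalarTower K[X] E L]
  [FiniteDimensional E L] [IsGalois E L] in
private theorem phi_mk_Min {θ : L} (φ : AdjoinRoot (minpoly K[X] θ) →ₐ[K[X]] L)
    (hφ : φ (AdjoinRoot.root (minpoly K[X] θ)) = θ) (P : K[X][X]) :
    φ (AdjoinRoot.mk (minpoly K[X] θ) P) = aeval θ P := by
  rw [← AdjoinRoot.aeval_eq, ← aeval_algHom_apply, hφ]

theorem min_inj (hx : Function.Injective (algebraMap K[X] L)) {θ : L}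
    (hi : IsIntegral K[X] θ) (φ : AdjoinRoot (minpoly K[X] θ) →ₐ[K[X]] L)
    (hφ : φ (AdjoinRoot.root (minpoly K[X] θ)) = θ) : Function.Injective φ := by
  rw [injective_iff_map_eq_zero]
  intro a ha
  obtain ⟨P, rfl⟩ := AdjoinRoot.mk_surjective a
  rw [phi_mk_Min φ hφ] at ha
  have : FaithfulSMul K[X] L := (faithfulSMul_iff_algebraMap_injective K[X] L).2 hx
  have : Module.IsTorsionFree K[X] L := inferInstance
  rw [AdjoinRoot.mk_eq_zero]
  exact minpoly.isIntegrallyClosed_dvd hi ha

theorem min_den {θ : L} (hi : IsIntegral K[X] θ) (ht : IntermediateField.adjoin E {θ} = ⊤)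
    (φ : AdjoinRoot (minpoly K[X] θ) →ₐ[K[X]] L)
    (hφ : φ (AdjoinRoot.root (minpoly K[X] θ)) = θ) (z : L) :
    ∃ Δ : K[X], Δ ≠ 0 ∧ ∃ a, φ a = algebraMap K[X] L Δ * z := by
  have hE : IsAlgebraic E θ := (IsIntegral.of_finite E θ).isAlgebraic
  have hz : z ∈ (IntermediateField.adjoin E {θ}).toSubalgebra := by
    rw [ht]
    exact IntermediateField.mem_top
  rw [IntermediateField.adjoin_simple_toSubalgebra_of_isAlgebraic hE] at hz
  obtain ⟨Q, rfl⟩ := (Algebra.adjoin_mem_exists_aeval E θ hz)
  obtain ⟨b, hb0, hb⟩ := IsLocalization.integerNormalization_spec (nonZeroDivisors K[X]) Q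
  refine ⟨b, nonZeroDivisors.ne_zero hb0, AdjoinRoot.mk _
    (IsLocalization.integerNormalization (nonZeroDivisors K[X]) Q), ?_⟩
  rw [phi_mk_Min φ hφ, ← aeval_map_algebraMap E, hb, ← IsScalarTower.algebraMap_smul E,
    map_smul, IsScalarTower.algebraMap_apply K[X] E L, Algebra.smul_def]

end Pool.Agent.Weil
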