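import Pool.Agent.Weil.Spl
import Pool.Agent.Weil.Min
import Pool.Agent.Weil.Loc

/-!
# Package Weil-Gal: the Galois closure of the curve

`f` monic irreducible, `C D = u f + v f'`, `D ≠ 0`, `f(0, T) = ∏ (T - b_i)` with pairwise
different
`b_i ∈ K`: there are data `GC f μ Δ ρ y` with `D ∣ Δ`, and an injective homomorphism
`Ψ : CA μ → K⟦X⟧` of `K`-algebras with `Ψ x = X`.

Proof. `L`, `φ`, `y` from `spl`, `θ` from `prim`, `μ = minpoly K[X] θ` (`min_facts`),
`φ0 : CA μ → L` (`AdjoinRoot.liftAlgHom` or `Minpoly.toAdjoin`), injective (`min_inj`).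
`G = L ≃ₐ[EK K] L`, `σ g = g.restrictScalars K[X]`. Let `Z` be the finite set of the elements `g
θ`,
`y i`, `(g θ - g' θ)⁻¹` (`g ≠ g'`), `(y i - y j)⁻¹` (`i ≠ j`) of `L`; by `min_den` there is `Δ0 ≠
0`
with `Δ0 z` in the image of `φ0` for all `z ∈ Z` (product). `Δ = Δ0 * D`. `loc_ext` gives `j`, and
`Z ⊆` image of `j`. `loc_act` gives `ρ` with `j (ρ g z) = g (j z)`; `j (th μ Δ) = θ`. All
identities in `GC` can be checked after `j` (injective; `Polynomial.map_injective`). Units: an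
element `r` of `CR μ Δ` with `(j r)⁻¹ = j s` is a unit.

`Ψ`: the composition of `φ0`, `φ : L → MK K`: the image of `θ` is integral over `K[X]`, so over
`K⟦X⟧`, and `K⟦X⟧` is integrally closed (`IsIntegrallyClosed`, it is a principal ideal domain), so
it is
`β ∈ K⟦X⟧`; `Ψ` is `AdjoinRoot.lift` with `root ↦ β`; composed with the injection
`K⟦X⟧ → MK K` it is the injective `φ ∘ φ0`.
-/

set_option autoImplicit false

namespace Pool.Agent.Weil

open Polynomial Pool.Agent.CvB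

private theorem den_Gal {K : Type} [Field K] {R L : Type} [CommRing R] [Algebra K[X] R] [Field L]
    [Algebra K[X] L] (φ : R →ₐ[K[X]] L)
    (h : ∀ z : L, ∃ Δ : K[X], Δ ≠ 0 ∧ ∃ a, φ a = algebraMap K[X] L Δ * z) (Z : Finset L) :
    ∃ Δ : K[X], Δ ≠ 0 ∧ ∀ z ∈ Z, ∃ a, φ a = algebraMap K[X] L Δ * z := by
  classical
  induction Z using Finset.induction_on with
  | empty => exact ⟨1, one_ne_zero, fun z hz => absurd hz (Finset.notMem_empty z)⟩
  | insert z Z _ ih =>
    obtain ⟨Δ, hΔ, h1⟩ := ih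
    obtain ⟨Δ', hΔ', a', h2⟩ := h z
    refine ⟨Δ * Δ', mul_ne_zero hΔ hΔ', fun w hw => ?_⟩
    rcases Finset.mem_insert.1 hw with rfl | hw
    · refine ⟨algebraMap K[X] R Δ * a', ?_⟩
      rw [map_mul, AlgHom.commutes, h2, map_mul, mul_assoc]
    · obtain ⟨a, h3⟩ := h1 w hw
      refine ⟨algebraMap K[X] R Δ' * a, ?_⟩
      rw [map_mul, AlgHom.commutes, h3, map_mul]
      ring

theorem galois {K : Type} [Field K] {f : K[X][X]} (hf : f.Monic) (hi : Irreducible f)
    {D : K[X]} (hD : D ≠ 0) (hc : ∃ u v : K[X][X], C D = u * f + v * derivative f) {d : ℕ}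
    {b : Fin d → K} (hb : Function.Injective b) (h : f.map (evalRingHom 0) = ∏ i, (X - C (b i))) :
    ∃ (μ : K[X][X]) (Δ : K[X]) (G : Type) (_ : Group G) (_ : Fintype G)
      (ρ : G →* (CR μ Δ ≃ₐ[K[X]] CR μ Δ)) (y : Fin d → CR μ Δ) (Ψ : CA μ →ₐ[K] PowerSeries K),
      GC f μ Δ ρ y ∧ D ∣ Δ ∧ Function.Injective Ψ ∧ Ψ (AdjoinRoot.of μ X) = PowerSeries.X := by
  classical
  obtain ⟨L, _, _, _, _, φ, y, hfd, hgal, hφ, hfy, hy, htr⟩ := spl hf hi hD hc hb h
  have hx : Function.Injective (algebraMap K[X] L) := by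
    rw [IsScalarTower.algebraMap_eq K[X] (EK K) L, RingHom.coe_comp]
    exact (algebraMap (EK K) L).injective.comp (IsFractionRing.injective K[X] (EK K))
  obtain ⟨θ, hθ, ht⟩ := prim K (EK K) L
  obtain ⟨hm, hirr, hdeg, hginj, hprod⟩ := min_facts (E := EK K) hθ ht
  set μ : K[X][X] := minpoly K[X] θ with hμ
  have hroot : μ.eval₂ (Algebra.ofId K[X] L : K[X] →+* L) θ = 0 := minpoly.aeval K[X] θ
  let φ0 : AdjoinRoot μ →ₐ[K[X]] L := AdjoinRoot.liftAlgHom μ (Algebra.ofId K[X] L) θ hroot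
  have hφ0 : φ0 (AdjoinRoot.root μ) = θ := AdjoinRoot.liftAlgHom_root μ _ _ hroot
  have hφ0i : Function.Injective φ0 := min_inj hx hθ φ0 hφ0
  let Z : Finset L := (Finset.univ.image fun g : L ≃ₐ[EK K] L => g θ) ∪ Finset.univ.image y ∪
    (Finset.univ.image fun g : (L ≃ₐ[EK K] L) × (L ≃ₐ[EK K] L) => (g.1 θ - g.2 θ)⁻¹) ∪
    (Finset.univ.image fun i : Fin d × Fin d => (y i.1 - y i.2)⁻¹)
  obtain ⟨Δ0, hΔ0, hZ⟩ := den_Gal φ0 (min_den (E := EK K) hθ ht φ0 hφ0) Z
  have hΔ : Δ0 * D ≠ 0 := mul_ne_zero hΔ0 hD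
  obtain ⟨j, hj, hja, hjz⟩ := loc_ext hx hΔ φ0 hφ0i
  have hZj : ∀ z ∈ Z, ∃ r, j r = z := by
    intro z hz
    obtain ⟨a, ha⟩ := hZ z hz
    refine (hjz z).2 ⟨1, algebraMap K[X] (AdjoinRoot μ) D * a, ?_⟩
    rw [map_mul, AlgHom.commutes, ha, pow_one, map_mul]
    ring
  have hjth : j (th μ (Δ0 * D)) = θ := by
    rw [th, hja, hφ0]
  let σ : (L ≃ₐ[EK K] L) →* (L ≃ₐ[K[X]] L) :=
    { toFun := fun g => g.restrictScalars K[X]
      map_one' := rfl
      map_mul' := fun _ _ => rfl }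
  have hZ1 : ∀ g : L ≃ₐ[EK K] L, g θ ∈ Z := fun g =>
    Finset.mem_union_left _ (Finset.mem_union_left _ (Finset.mem_union_left _
      (Finset.mem_image_of_mem _ (Finset.mem_univ g))))
  have hZ2 : ∀ i, y i ∈ Z := fun i =>
    Finset.mem_union_left _ (Finset.mem_union_left _ (Finset.mem_union_right _
      (Finset.mem_image_of_mem _ (Finset.mem_univ i))))
  have hZ3 : ∀ g g' : L ≃ₐ[EK K] L, (g θ - g' θ)⁻¹ ∈ Z := fun g g' =>
    Finset.mem_union_left _ (Finset.mem_union_right _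
      (Finset.mem_image.2 ⟨(g, g'), Finset.mem_univ _, rfl⟩))
  have hZ4 : ∀ i k, (y i - y k)⁻¹ ∈ Z := fun i k =>
    Finset.mem_union_right _ (Finset.mem_image.2 ⟨(i, k), Finset.mem_univ _, rfl⟩)
  obtain ⟨ρ, hρ⟩ := loc_act j hj σ (fun g => by
    rw [hjth]
    exact hZj _ (hZ1 g))
  have hρth : ∀ g : L ≃ₐ[EK K] L, j (ρ g (th μ (Δ0 * D))) = g θ := by
    intro g
    rw [hρ, hjth]
    rfl
  choose y' hy' using fun i => hZj (y i) (hZ2 i)
  have hunit : ∀ r : CR μ (Δ0 * D), j r ≠ 0 → (j r)⁻¹ ∈ Z → IsUnit r := by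
    intro r hr hrZ
    obtain ⟨s, hs⟩ := hZj _ hrZ
    refine IsUnit.of_mul_eq_one s (hj ?_)
    rw [map_mul, hs, map_one, mul_inv_cancel₀ hr]
  have hjc : (j : CR μ (Δ0 * D) →+* L).comp (algebraMap K[X] (CR μ (Δ0 * D))) =
      algebraMap K[X] L := RingHom.ext fun a => j.commutes a
  -- the homomorphism to the power series
  have hint : IsIntegral (PowerSeries K) (φ θ) := by
    refine hθ.map_of_comp_eq (algebraMap K[X] (PowerSeries K)) φ ?_
    rw [hφ, ← IsScalarTower.algebraMap_eq K[X] (PowerSeries K) (MK K)]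
  obtain ⟨β, hβ⟩ := IsIntegrallyClosed.isIntegral_iff.1 hint
  let ι : K[X] →ₐ[K] PowerSeries K := IsScalarTower.toAlgHom K K[X] (PowerSeries K)
  have hev : ∀ P : K[X][X], algebraMap (PowerSeries K) (MK K) (P.eval₂ (ι : K[X] →+* _) β) =
      φ (P.eval₂ (Algebra.ofId K[X] L : K[X] →+* L) θ) := by
    intro P
    rw [Polynomial.hom_eval₂, Polynomial.hom_eval₂, hβ]
    congr 1
    have h1 : φ.comp (Algebra.ofId K[X] L : K[X] →+* L) = algebraMap K[X] (MK K) := hφ
    rw [h1, IsScalarTower.algebraMap_eq K[X] (PowerSeries K) (MK K)]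
    rfl
  have hMi : Function.Injective (algebraMap (PowerSeries K) (MK K)) :=
    IsFractionRing.injective (PowerSeries K) (MK K)
  have hβ0 : μ.eval₂ (ι : K[X] →+* PowerSeries K) β = 0 := by
    apply hMi
    rw [hev, hroot, map_zero, map_zero]
  let Ψ : AdjoinRoot μ →ₐ[K] PowerSeries K := AdjoinRoot.liftAlgHom μ ι β hβ0
  have hΨ : ∀ z, algebraMap (PowerSeries K) (MK K) (Ψ z) = φ (φ0 z) := by
    intro z
    induction z using AdjoinRoot.induction_on with
    | ih P => exact hev P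
  refine ⟨μ, Δ0 * D, L ≃ₐ[EK K] L, inferInstance, inferInstance, ρ, y', Ψ, ?_,
    Dvd.intro_left Δ0 rfl, ?_, ?_⟩
  · refine ⟨hm, hirr, hdeg, hΔ, ?_, ?_, ?_, ?_, ?_⟩
    · refine Polynomial.map_injective (j : CR μ (Δ0 * D) →+* L) hj ?_
      rw [Polynomial.map_map, hjc, hprod, Polynomial.map_prod]
      refine Finset.prod_congr rfl fun g _ => ?_
      rw [Polynomial.map_sub, Polynomial.map_X, Polynomial.map_C]
      congr 2
      exact (hρth g).symm
    · intro g g' hgg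
      have h1 : j (ρ g (th μ (Δ0 * D)) - ρ g' (th μ (Δ0 * D))) = g θ - g' θ := by
        rw [map_sub, hρth, hρth]
      refine hunit _ ?_ ?_
      · rw [h1]
        exact sub_ne_zero.2 fun h2 => hgg (hginj h2)
      · rw [h1]
        exact hZ3 g g'
    · refine Polynomial.map_injective (j : CR μ (Δ0 * D) →+* L) hj ?_
      rw [Polynomial.map_map, hjc, hfy, Polynomial.map_prod]
      refine Finset.prod_congr rfl fun i _ => ?_
      rw [Polynomial.map_sub, Polynomial.map_X, Polynomial.map_C]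
      congr 2
      exact (hy' i).symm
    · intro i k hik
      have h1 : j (y' i - y' k) = y i - y k := by
        rw [map_sub, hy', hy']
      refine hunit _ ?_ ?_
      · rw [h1]
        exact sub_ne_zero.2 fun h2 => hik (hy h2)
      · rw [h1]
        exact hZ4 i k
    · intro i k
      obtain ⟨g, hg⟩ := htr i k
      refine ⟨g, hj ?_⟩
      rw [hρ, hy', hy']
      exact hg
  · intro z w hzw
    apply hφ0i
    apply φ.injective
    rw [← hΨ, ← hΨ, hzw]
  · have h1 : Ψ (AdjoinRoot.of μ X) = ι X := AdjoinRoot.liftAlgHom_of μ ι β hβ0 X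
    rw [h1]
    show algebraMap K[X] (PowerSeries K) X = PowerSeries.X
    rw [PowerSeries.algebraMap_apply', Polynomial.coe_X, PowerSeries.map_X]

end Pool.Agent.Weil
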