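import Mathlib

/-!
# Package Weil-Hens: splitting over the power series (only Mathlib)

`hens`: `f ∈ K[x][T]` monic, `f(0, T) = ∏ (T - b_i)` with pairwise different `b_i ∈ K`
(`i < d`). Then `f = ∏ (T - β_i)` over `K⟦X⟧`. Proof: `K⟦X⟧` is complete for the ideal `(X)`
(Mathlib: instance `IsAdicComplete (Ideal.span {X}) (PowerSeries R)` in
RingTheory/AdicCompletion/Completeness, so `HenselianRing` by `IsAdicComplete.henselianRing`):
every
`b_i` is a simple root of `f(0, T)`, so it lifts to a root `β_i ∈ K⟦X⟧` of `f` with constant
coefficient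
`b_i`. The `β_i` are pairwise different roots of the monic polynomial `f` of degree `d` over the
domain `K⟦X⟧`
(`Polynomial.prod_multiset_X_sub_C_of_monic_of_roots_card_eq`, or over the fraction field; the
degree of `f` is `d` by the
condition). The algebra structure of `K⟦X⟧` over `K[X]` is Mathlib's (`Polynomial.coe`).
-/

set_option autoImplicit false

namespace Pool.Agent.Weil

open Polynomial

private theorem cc_comp_Hens {K : Type} [Field K] :
    (PowerSeries.constantCoeff (R := K)).comp (algebraMap K[X] (PowerSeries K)) =
      evalRingHom 0 := by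
  ext x
  · simp [PowerSeries.algebraMap_apply']
  · simp [PowerSeries.algebraMap_apply']

private theorem cc_eval_Hens {K : Type} [Field K] (g : K[X][X]) (a : PowerSeries K) :
    PowerSeries.constantCoeff ((g.map (algebraMap K[X] (PowerSeries K))).eval a) =
      (g.map (evalRingHom 0)).eval (PowerSeries.constantCoeff a) := by
  rw [← cc_comp_Hens, ← Polynomial.map_map, ← Polynomial.eval_map_apply]

theorem hens {K : Type} [Field K] {f : K[X][X]} (hf : f.Monic) {d : ℕ} {b : Fin d → K}
    (hb : Function.Injective b) (h : f.map (evalRingHom 0) = ∏ i, (X - C (b i))) :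
    ∃ β : Fin d → PowerSeries K, Function.Injective β ∧
      f.map (algebraMap K[X] (PowerSeries K)) = ∏ i, (X - C (β i)) := by
  have hmem : ∀ a : PowerSeries K, a ∈ Ideal.span {(PowerSeries.X : PowerSeries K)} ↔
      PowerSeries.constantCoeff a = 0 := fun a => by
    rw [Ideal.mem_span_singleton, PowerSeries.X_dvd_iff]
  have hFm : (f.map (algebraMap K[X] (PowerSeries K))).Monic := hf.map _
  have hsep : (∏ i, (X - C (b i))).Separable := separable_prod_X_sub_C_iff.2 hb
  have hex : ∀ i, ∃ a : PowerSeries K, (f.map (algebraMap K[X] (PowerSeries K))).IsRoot a ∧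
      PowerSeries.constantCoeff a = b i := by
    intro i
    have h1 : PowerSeries.constantCoeff
        ((f.map (algebraMap K[X] (PowerSeries K))).eval (PowerSeries.C (b i))) = 0 := by
      rw [cc_eval_Hens, h, PowerSeries.constantCoeff_C, eval_prod]
      exact Finset.prod_eq_zero (Finset.mem_univ i) (by simp)
    have h2 : PowerSeries.constantCoeff ((f.map (algebraMap K[X] (PowerSeries K))).derivative.eval
        (PowerSeries.C (b i))) ≠ 0 := by
      rw [derivative_map, cc_eval_Hens, ← derivative_map, h, PowerSeries.constantCoeff_C]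
      have h3 := hsep.eval₂_derivative_ne_zero (RingHom.id K) (x := b i)
      rw [eval₂_id, eval₂_id] at h3
      apply h3
      rw [eval_prod]
      exact Finset.prod_eq_zero (Finset.mem_univ i) (by simp)
    have h4 : IsUnit (Ideal.Quotient.mk (Ideal.span {(PowerSeries.X : PowerSeries K)})
        ((f.map (algebraMap K[X] (PowerSeries K))).derivative.eval (PowerSeries.C (b i)))) := by
      apply IsUnit.map
      rw [PowerSeries.isUnit_iff_constantCoeff]
      exact h2.isUnit
    have : HenselianRing (PowerSeries K) (Ideal.span {(PowerSeries.X : PowerSeries K)}) :=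
      IsAdicComplete.henselianRing _ _
    obtain ⟨a, ha, hab⟩ := HenselianRing.is_henselian _ hFm (PowerSeries.C (b i))
      ((hmem _).2 h1) h4
    refine ⟨a, ha, ?_⟩
    rw [hmem, map_sub, PowerSeries.constantCoeff_C, sub_eq_zero] at hab
    exact hab
  choose β hβ hβc using hex
  have hinj : Function.Injective β := by
    intro i j hij
    apply hb
    rw [← hβc i, ← hβc j, hij]
  refine ⟨β, hinj, ?_⟩
  have hdvd : (∏ i, (X - C (β i))) ∣ f.map (algebraMap K[X] (PowerSeries K)) := by
    apply Finset.prod_dvd_of_coprime
    · intro i _ j _ hij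
      apply isCoprime_X_sub_C_of_isUnit_sub
      rw [PowerSeries.isUnit_iff_constantCoeff, map_sub, hβc, hβc]
      exact (sub_ne_zero.2 fun h5 => hij (hb h5)).isUnit
    · intro i _
      exact dvd_iff_isRoot.2 (hβ i)
  refine eq_of_monic_of_dvd_of_natDegree_le (monic_prod_of_monic _ _ fun i _ =>
    monic_X_sub_C _) hFm hdvd ?_
  have h6 : f.natDegree = d := by
    rw [← hf.natDegree_map (evalRingHom 0), h, natDegree_prod_of_monic _ _ fun i _ =>
      monic_X_sub_C _]
    simp
  rw [hf.natDegree_map, h6, natDegree_prod_of_monic _ _ fun i _ => monic_X_sub_C _]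
  simp

end Pool.Agent.Weil
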