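import Mathlib

/-!
# Package Weil-Ker: a nonzero element of the kernel, and the choice of the parameters (only
Mathlib)

`exists_ker`: `K` finite, `V`, `W` finite dimensional subspaces of `A`, `T : A → A` additive,
`S i * T t ∈ W` for all `t ∈ V`, `dim W < u dim V`. Then there is `t ≠ 0` in `V ^ u` with
`∑ S i * T (t i) = 0`. Proof: `card V ^ u = card K ^ (u dim V) > card K ^ (dim W) = card W`
(`Module.card_eq_pow_finrank`, `Module.natCard_eq_pow_finrank`); two different families have the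
same image; take the difference.

`params`: `C = 2 (e + 1) + n (r0 + 1) + (3 e + 2 + n c + n r0 + 2 n)` (or larger). Given
`q0 ≤ q1`, `C ≤ q1` let `l = (q1 - 1) / n`, so `q1 - n ≤ n l ≤ q1 - 1`, `l ≥ r0`,
`u = n (l + 1) - e ≥ q1 - e`. Let `m = (q0 + 3 e + 1 + n c) / n + r0`, so
`n m ≤ q0 + 3 e + 1 + n c + n r0` and `n (m + 1) ≥ q0 + 3 e + 1 + n c`, hence
`M = n (m + 1) - e ≥ q0 + 2 e + 1 + n c`.
Condition `n (l q0 + m + c + 1) - e < u M`: the left side is `n l q0 + n c + M ≤
(q1 - 1) q0 + n c + M`, and the right side is at least `(q1 - e) M`; enough: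
`(q1 - 1) q0 + n c < (q1 - e - 1) M`. Now `(q1 - e - 1) M ≥ (q1 - 1) q0 - e q0 + (q1 - e - 1) (2
e)
+ (q1 - e - 1) + (q1 - e - 1) n c`, and `(q1 - e - 1) 2 e ≥ e q1 ≥ e q0` as `q1 ≥ 2 (e + 1)`.
Last inequality: `n l + q1 n m ≤ q1 + q1 (q0 + 3 e + 1 + n c + n r0)`.
In the statement `u`, `M`, `R` are natural numbers with `u + e = n (l + 1)`, `M + e = n (m + 1)`,
`R + e = n (l q0 + m + c + 1)`.
-/

set_option autoImplicit false

namespace Pool.Agent.Weil

theorem exists_ker {K A : Type} [Field K] [Finite K] [CommRing A] [Algebra K A]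
    (V W : Submodule K A) [Module.Finite K V] [Module.Finite K W] {u : ℕ} (S : Fin u → A)
    (T : A →+ A) (hT : ∀ t ∈ V, ∀ i, S i * T t ∈ W)
    (hd : Module.finrank K W < u * Module.finrank K V) :
    ∃ t : Fin u → A, (∀ i, t i ∈ V) ∧ t ≠ 0 ∧ ∑ i, S i * T (t i) = 0 := by
  classical
  have hfV : Finite V := Module.finite_of_finite K
  have hfW : Finite W := Module.finite_of_finite K
  have hmem : ∀ t : Fin u → V, ∑ i, S i * T (t i : A) ∈ W := fun t =>
    Submodule.sum_mem _ fun i _ => hT _ (t i).2 i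
  let φ : (Fin u → V) → W := fun t => ⟨∑ i, S i * T (t i : A), hmem t⟩
  have hni : ¬ Function.Injective φ := by
    intro hinj
    have h1 : Nat.card (Fin u → V) ≤ Nat.card W := Nat.card_le_card_of_injective φ hinj
    have hV : Nat.card V = Nat.card K ^ Module.finrank K V := Module.natCard_eq_pow_finrank
    have hW : Nat.card W = Nat.card K ^ Module.finrank K W := Module.natCard_eq_pow_finrank
    have h2 : Nat.card (Fin u → V) = Nat.card K ^ (u * Module.finrank K V) := by
      rw [Nat.card_fun, hV, Nat.card_eq_fintype_card (α := Fin u), Fintype.card_fin, ← pow_mul,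
        mul_comm]
    rw [h2, hW] at h1
    have h3 : 1 < Nat.card K := Finite.one_lt_card
    exact absurd h1 (not_le.2 (Nat.pow_lt_pow_right h3 hd))
  unfold Function.Injective at hni
  push Not at hni
  obtain ⟨t, t', htt, hne⟩ := hni
  refine ⟨fun i => (t i : A) - (t' i : A), fun i => V.sub_mem (t i).2 (t' i).2, ?_, ?_⟩
  · intro h0
    apply hne
    funext i
    have h1 := congrFun h0 i
    simp only [Pi.zero_apply] at h1
    exact Subtype.ext (sub_eq_zero.1 h1)
  · have h1 : ∑ i, S i * T (t i : A) = ∑ i, S i * T (t' i : A) := congrArg Subtype.val htt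
    simp only [map_sub, mul_sub, Finset.sum_sub_distrib]
    rw [h1, sub_self]

theorem params (n e r0 c : ℕ) (hn : 1 ≤ n) : ∃ C : ℕ, ∀ q0 q1 : ℕ, 1 ≤ q0 → q0 ≤ q1 → C ≤ q1 →
    ∃ l m : ℕ, r0 ≤ l ∧ r0 ≤ m ∧ n * l < q1 ∧
      (∀ u M R : ℕ, u + e = n * (l + 1) → M + e = n * (m + 1) →
        R + e = n * (l * q0 + m + c + 1) → R < u * M) ∧
      n * (l + q1 * m) ≤ q0 * q1 + C * q1 := by
  refine ⟨2 * (e + 1) + n * (r0 + 1) + (3 * e + 2 + n * c + n * r0 + 2 * n), ?_⟩
  intro q0 q1 h0 h01 hC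
  have hnr : n * (r0 + 1) = n * r0 + n := by ring
  obtain ⟨l, hl⟩ : ∃ l, l = (q1 - 1) / n := ⟨_, rfl⟩
  obtain ⟨k, hk⟩ : ∃ k, k = (q0 + 3 * e + 1 + n * c) / n := ⟨_, rfl⟩
  have hl1 : n * l ≤ q1 - 1 := by rw [hl]; exact Nat.mul_div_le _ _
  have hl2 : q1 - 1 < n * (l + 1) := by
    rw [hl]; exact Nat.lt_mul_div_succ _ (by omega)
  have hk1 : n * k ≤ q0 + 3 * e + 1 + n * c := by rw [hk]; exact Nat.mul_div_le _ _
  have hk2 : q0 + 3 * e + 1 + n * c < n * (k + 1) := by
    rw [hk]; exact Nat.lt_mul_div_succ _ (by omega)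
  have hlr : r0 ≤ l := by
    rw [hl, Nat.le_div_iff_mul_le (by omega), mul_comm]
    omega
  refine ⟨l, k + r0, hlr, by omega, by omega, ?_, ?_⟩
  · intro u M R hu hM hR
    obtain ⟨a, ha⟩ : ∃ a, q1 = a + e + 1 := ⟨q1 - e - 1, by omega⟩
    have hae : e + 1 ≤ a := by omega
    have hu' : a + 1 ≤ u := by omega
    have hM' : q0 + 2 * e + 1 + n * c ≤ M := by
      have : n * (k + r0 + 1) = n * (k + 1) + n * r0 := by ring
      omega
    have hR' : R = n * l * q0 + n * c + M := by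
      have : n * (l * q0 + (k + r0) + c + 1) = n * l * q0 + n * c + n * (k + r0 + 1) := by ring
      omega
    have h1 : n * l * q0 ≤ (a + e) * q0 := Nat.mul_le_mul_right _ (by omega)
    have h2 : (a + 1) * M ≤ u * M := Nat.mul_le_mul_right _ hu'
    have h3 : a * (q0 + 2 * e + 1 + n * c) ≤ a * M := Nat.mul_le_mul_left _ hM'
    have h4 : e * q0 ≤ e * (2 * a) := Nat.mul_le_mul_left _ (by omega)
    have h5 : n * c ≤ a * (n * c) := Nat.le_mul_of_pos_left _ (by omega)
    have h6 : (a + e) * q0 = a * q0 + e * q0 := by ring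
    have h7 : a * (q0 + 2 * e + 1 + n * c) = a * q0 + e * (2 * a) + a + a * (n * c) := by ring
    have h8 : (a + 1) * M = a * M + M := by ring
    omega
  · have h1 : n * (l + q1 * (k + r0)) = n * l + q1 * (n * k + n * r0) := by ring
    have h2 : q1 * (n * k + n * r0) ≤ q1 * (q0 + 3 * e + 1 + n * c + n * r0) :=
      Nat.mul_le_mul_left _ (by omega)
    have h3 : q1 * (q0 + 3 * e + 1 + n * c + n * r0) + q1 =
        q0 * q1 + (3 * e + 2 + n * c + n * r0) * q1 := by ring
    have h4 : (3 * e + 2 + n * c + n * r0) * q1 ≤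
        (2 * (e + 1) + n * (r0 + 1) + (3 * e + 2 + n * c + n * r0 + 2 * n)) * q1 :=
      Nat.mul_le_mul_right _ (by omega)
    omega

end Pool.Agent.Weil
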