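import Pool.Agent.Weil.Upp
import Pool.Agent.Weil.Fix

/-!
# Package Weil-Low: lower bound for the number of the points of the curve

Data as in Weil-Upp, `1 ≤ d`, `Ω` algebraically closed. There is `C` with
`p ^ i * p ^ j ≤ ncard (CP f Δ Ω (p ^ i * p ^ j)) + C * p ^ j` for all `i ≤ j` with `C ≤ p ^ j`,
`1 ≤ j` and
`c ^ (p ^ i * p ^ j) = c` for all `c ∈ K`.

Proof. Let `q = p ^ i * p ^ j`, `C1` from `upper`, `n = card G`, `N_g = ncard (NP ρ Ω q g)`,
`t = natDegree Δ`. By `np_sum` and `cnt_ge`: `∑ N_g = n ncard (AP) ≥ n (q - t)` and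
`N_g ≤ q + C1 p ^ j`, so `N_g ≥ n (q - t) - (n - 1) (q + C1 p ^ j) ≥ q - (n t + n C1) p ^ j`. By
`fix_sum`, `burn`: `n ncard (CP) = ∑ fix g * N_g ≥ (∑ fix g) (q - (n t + n C1) p ^ j) = n (q -
...)`.
So `C = n t + n C1` (at least `C1`, as `n ≥ 1`) works. (`p ^ i * p ^ j = p ^ (i + j)`.)
-/

set_option autoImplicit false

namespace Pool.Agent.Weil

open Polynomial Pool.Agent.CvB

variable {K : Type} [Field K] {f μ : K[X][X]} {Δ : K[X]} {G : Type} [Group G] [Fintype G]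
  {ρ : G →* (CR μ Δ ≃ₐ[K[X]] CR μ Δ)} {d : ℕ} {y : Fin d → CR μ Δ}

theorem lower [Finite K] (p : ℕ) [Fact p.Prime] [CharP K p] (h : GC f μ Δ ρ y) (hd : 1 ≤ d)
    (Ψ : CA μ →ₐ[K] PowerSeries K) (hΨ : Function.Injective Ψ)
    (hx : Ψ (AdjoinRoot.of μ X) = PowerSeries.X) (Ω : Type) [Field Ω] [IsAlgClosed Ω]
    [Algebra K Ω] :
    ∃ C : ℕ, ∀ i j : ℕ, i ≤ j → 1 ≤ j → C ≤ p ^ j → (∀ c : K, c ^ (p ^ i * p ^ j) = c) →
      p ^ i * p ^ j ≤ (CP f Δ Ω (p ^ i * p ^ j)).ncard + C * p ^ j := by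
  classical
  obtain ⟨C1, hC1⟩ := upper p h Ψ hΨ hx Ω
  have hn : 0 < Fintype.card G := Fintype.card_pos
  refine ⟨Fintype.card G * Δ.natDegree + Fintype.card G * C1, fun i j hij hj hC hc => ?_⟩
  have hC1' : C1 ≤ p ^ j :=
    ((Nat.le_mul_of_pos_left C1 hn).trans (Nat.le_add_left _ _)).trans hC
  have hpj : 1 ≤ p ^ j := Nat.one_le_pow _ _ (Fact.out : p.Prime).pos
  have hq : p ^ i * p ^ j = p ^ (i + j) := (pow_add p i j).symm
  have he : 1 ≤ i + j := hj.trans (Nat.le_add_left _ _)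
  have hc' : ∀ c : K, c ^ p ^ (i + j) = c := fun c => by rw [← hq]; exact hc c
  have hsum := np_sum (Ω := Ω) h p he hc'
  have hcnt := cnt_ge (Ω := Ω) (K := K) (Δ := Δ) p he h.ne
  have hfix := fix_sum (Ω := Ω) h p he hc'
  have hburn := burn h hd
  have hup : ∀ g : G, (NP ρ Ω (p ^ (i + j)) g).ncard ≤ p ^ (i + j) + C1 * p ^ j := fun g => by
    have h1 := (hC1 i j hij hC1' g).2
    rwa [hq] at h1
  rw [hq]
  have hlow : ∀ g : G, p ^ (i + j) ≤ (NP ρ Ω (p ^ (i + j)) g).ncard +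
      (Fintype.card G * Δ.natDegree + Fintype.card G * C1) * p ^ j := by
    intro g
    have h1 : ∑ g' : G, (NP ρ Ω (p ^ (i + j)) g').ncard =
        (NP ρ Ω (p ^ (i + j)) g).ncard +
          ∑ g' ∈ Finset.univ.erase g, (NP ρ Ω (p ^ (i + j)) g').ncard :=
      (Finset.add_sum_erase _ _ (Finset.mem_univ g)).symm
    have h2 : ∑ g' ∈ Finset.univ.erase g, (NP ρ Ω (p ^ (i + j)) g').ncard ≤
        (Fintype.card G - 1) * (p ^ (i + j) + C1 * p ^ j) := by
      refine (Finset.sum_le_card_nsmul _ _ _ fun g' _ => hup g').trans (le_of_eq ?_)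
      rw [Finset.card_erase_of_mem (Finset.mem_univ g), Finset.card_univ, smul_eq_mul]
    obtain ⟨m, hm⟩ : ∃ m, Fintype.card G = m + 1 := ⟨Fintype.card G - 1, by omega⟩
    rw [hm] at hsum h2 ⊢
    rw [h1] at hsum
    have h3 : m + 1 - 1 = m := rfl
    rw [h3] at h2
    have h4 : (m + 1) * p ^ (i + j) ≤ (m + 1) * (AP Δ Ω (p ^ (i + j))).ncard +
        (m + 1) * Δ.natDegree := by
      rw [← mul_add]
      exact Nat.mul_le_mul_left _ hcnt
    have h5 : (m + 1) * Δ.natDegree ≤ (m + 1) * Δ.natDegree * p ^ j :=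
      Nat.le_mul_of_pos_right _ hpj
    have h6 : 0 ≤ C1 * p ^ j := Nat.zero_le _
    nlinarith [h2, h4, h5, h6, hsum]
  have h1 : ∑ g : G, Nat.card {i : Fin d // ρ g (y i) = y i} * p ^ (i + j) ≤
      ∑ g : G, Nat.card {i : Fin d // ρ g (y i) = y i} *
        ((NP ρ Ω (p ^ (i + j)) g).ncard +
          (Fintype.card G * Δ.natDegree + Fintype.card G * C1) * p ^ j) :=
    Finset.sum_le_sum fun g _ => Nat.mul_le_mul_left _ (hlow g)
  rw [← Finset.sum_mul, hburn] at h1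
  have h2 : ∑ g : G, Nat.card {i : Fin d // ρ g (y i) = y i} *
      ((NP ρ Ω (p ^ (i + j)) g).ncard +
        (Fintype.card G * Δ.natDegree + Fintype.card G * C1) * p ^ j) =
      Fintype.card G * ((CP f Δ Ω (p ^ (i + j))).ncard +
        (Fintype.card G * Δ.natDegree + Fintype.card G * C1) * p ^ j) := by
    have h3 : ∀ B : ℕ, ∑ g : G, Nat.card {i : Fin d // ρ g (y i) = y i} *
        ((NP ρ Ω (p ^ (i + j)) g).ncard + B) =
          Fintype.card G * ((CP f Δ Ω (p ^ (i + j))).ncard + B) := fun B => by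
      rw [mul_add (Fintype.card G), hfix, Finset.sum_congr rfl fun g _ => mul_add _ _ B,
        Finset.sum_add_distrib, ← Finset.sum_mul, hburn]
    exact h3 _
  rw [h2] at h1
  exact Nat.le_of_mul_le_mul_left h1 hn

end Pool.Agent.Weil
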