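import Pool.Agent.Weil.Low
import Pool.Agent.Weil.Gal
import Pool.Agent.Weil.Ext

/-!
# Package Weil-LowP: lower bound for the number of the points over some extensions of the prime
field

`f` is a curve over all finite extensions of `F_p`. There are `m0 ≥ 1`, `C` such that for all
`t ≥ 1` with `C ≤ p ^ j`: `p ^ (m0 t) ≤ npt f D (m0 t) + C p ^ j`, where `j = m0 t - m0 t / 2`.

Proof. `ext_ex` (`f`, `D` satisfy its conditions: `hOk (ZMod p)`, `fm (ZMod p) f = f`) gives `K`,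
`a`, `b`.
`card K = p ^ m0` (`CharP K p`, `FiniteField.card` or `Module.card_eq_pow_finrank`), `f1 =
tr (fm K f) a`, `D1 = (dm K D).comp (X + C a) ≠ 0`. `galois` for `f1`, `D1` (`tr_monic`, `tr_irr`,
`tr_comb`, `tr_zero`, `hOk K`; the degree of `f` is `d`) gives data `GC f1 μ Δ ρ y`, `D1 ∣ Δ`,
`Ψ`, and `lower` with
`Ω = AlgebraicClosure K` gives `C`. For `i = m0 t / 2`, `j = m0 t - i`:
`p ^ i * p ^ j = p ^ (m0 t) = card K ^ t`, `c ^ (card K ^ t) = c` (`FiniteField.pow_card_pow`).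
`CP f1 Δ ⊆ CP f1 D1` (`cp_mono`, `cp_fin`, `Set.ncard_le_ncard`), `tr_cp`, `cp_npt`.
-/

set_option autoImplicit false

namespace Pool.Agent.Weil

open Polynomial Pool.Agent.CvB Pool.Agent.CvF

private theorem ok_base_LowP {p : ℕ} [Fact p.Prime] {f : (ZMod p)[X][X]} {d : ℕ}
    {D : (ZMod p)[X]}
    (hOk : ∀ (κ : Type) [Field κ] [Algebra (ZMod p) κ] [Finite κ], Ok (fm κ f) d (dm κ D)) :
    Ok f d D := by
  have h := hOk (ZMod p)
  have h1 : fm (ZMod p) f = f := by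
    have h2 : mapRingHom (algebraMap (ZMod p) (ZMod p)) = RingHom.id _ := by
      rw [Algebra.algebraMap_self, mapRingHom_id]
    rw [fm, h2, Polynomial.map_id]
  have h2 : dm (ZMod p) D = D := by
    rw [dm, Algebra.algebraMap_self, Polynomial.map_id]
  rwa [h1, h2] at h

private theorem card_LowP (p : ℕ) [Fact p.Prime] (K : Type) [Field K] [Finite K]
    [Algebra (ZMod p) K] : ∃ m0 : ℕ, 1 ≤ m0 ∧ Nat.card K = p ^ m0 := by
  have : Module.Finite (ZMod p) K := Module.Finite.of_finite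
  refine ⟨Module.finrank (ZMod p) K, Module.finrank_pos, ?_⟩
  rw [Module.natCard_eq_pow_finrank (K := ZMod p), Nat.card_zmod]

private theorem comp_ne_LowP {K : Type} [Field K] {D : K[X]} (hD : D ≠ 0) (a : K) :
    D.comp (X + C a) ≠ 0 := by
  intro h
  apply hD
  have h1 : (D.comp (X + C a)).comp (X - C a) = D := by
    rw [comp_assoc, add_comp, X_comp, C_comp, sub_add_cancel, comp_X]
  rw [← h1, h, zero_comp]

theorem low_p {p : ℕ} [Fact p.Prime] {f : (ZMod p)[X][X]} {d : ℕ} {D : (ZMod p)[X]} (hd : 1 ≤ d)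
    (hOk : ∀ (κ : Type) [Field κ] [Algebra (ZMod p) κ] [Finite κ], Ok (fm κ f) d (dm κ D)) :
    ∃ m0 C : ℕ, 1 ≤ m0 ∧ ∀ t, 1 ≤ t → C ≤ p ^ (m0 * t - m0 * t / 2) →
      p ^ (m0 * t) ≤ npt f D (m0 * t) + C * p ^ (m0 * t - m0 * t / 2) := by
  have h0 : Ok f d D := ok_base_LowP hOk
  obtain ⟨K, _, _, _, a, b, hb, hfa⟩ := ext_ex h0.cv.monic h0.ne h0.comb
  have hK := hOk K
  have : CharP K p := charP_of_injective_algebraMap (algebraMap (ZMod p) K).injective p
  obtain ⟨m0, hm0, hcard⟩ := card_LowP p K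
  have hdeg : f.natDegree = d := h0.cv.deg
  subst hdeg
  obtain ⟨μ, Δ, G, _, _, ρ, y, Ψ, hG, hdv, hΨ, hx⟩ := galois (tr_monic hK.cv.monic a)
    (tr_irr hK.cv.irr a) (comp_ne_LowP hK.ne a) (tr_comb hK.comb a) hb
    ((tr_zero _ _).trans hfa)
  obtain ⟨C, hC⟩ := lower p hG hd Ψ hΨ hx (AlgebraicClosure K)
  refine ⟨m0, C, hm0, fun t ht hCt => ?_⟩
  have h1 : 1 ≤ m0 * t := Nat.one_le_iff_ne_zero.2 (Nat.mul_ne_zero (by omega) (by omega))
  have h2 : m0 * t / 2 + (m0 * t - m0 * t / 2) = m0 * t := by omega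
  have hpow : ∀ c : K, c ^ p ^ (m0 * t) = c := by
    intro c
    have := Fintype.ofFinite K
    rw [pow_mul, ← hcard, Nat.card_eq_fintype_card, FiniteField.pow_card_pow]
  have h3 := hC (m0 * t / 2) (m0 * t - m0 * t / 2) (by omega) (by omega) hCt
    (by rw [← pow_add, h2]; exact hpow)
  rw [← pow_add, h2] at h3
  refine h3.trans (Nat.add_le_add_right ?_ _)
  have hq : 2 ≤ p ^ (m0 * t) :=
    (Fact.out : p.Prime).two_le.trans (Nat.le_self_pow (by omega) p)
  calc _ ≤ (CP (tr (fm K f) a) ((dm K D).comp (X + Polynomial.C a)) (AlgebraicClosure K)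
        (p ^ (m0 * t))).ncard := Set.ncard_le_ncard (cp_mono _ hdv _ _) (cp_fin _ _ _ hq)
    _ = (CP (fm K f) (dm K D) (AlgebraicClosure K) (p ^ (m0 * t))).ncard :=
        tr_cp _ _ _ _ p (hpow a)
    _ = npt f D (m0 * t) := cp_npt f D K _ h1

end Pool.Agent.Weil
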