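import Mathlib

/-!
# The field of the formal Laurent series as an extension of the field of rational functions
-/

set_option autoImplicit false

namespace Pool.Agent.Weil

open Polynomial

variable (K : Type) [Field K]

/-- the field of rational functions -/
abbrev EK : Type := FractionRing K[X]

/-- the field of formal Laurent series -/
abbrev MK : Type := FractionRing (PowerSeries K)

theorem inj_mk : Function.Injective (algebraMap K[X] (MK K)) := by
  rw [IsScalarTower.algebraMap_eq K[X] (PowerSeries K) (MK K), RingHom.coe_comp]
  exact (IsFractionRing.injective (PowerSeries K) (MK K)).comp (Polynomial.coe_injective K)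

instance : FaithfulSMul K[X] (MK K) :=
  (faithfulSMul_iff_algebraMap_injective K[X] (MK K)).2 (inj_mk K)

noncomputable instance : Algebra (EK K) (MK K) := FractionRing.liftAlgebra K[X] (MK K)

instance : IsScalarTower K[X] (EK K) (MK K) := FractionRing.isScalarTower_liftAlgebra K[X] (MK K)

end Pool.Agent.Weil
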