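import Pool.Agent.CvF.Main

/-!
# Package Weil-Rat: the numbers of the points of a plane curve over all extensions

If the curve `f` is a curve over all finite extensions of `F_p` then there are complex numbers
`γ_i`, `i < nn d (natDegree D) + d`, with `npt f D j = p ^ j - ∑ γ_i ^ j` for all `j ≥ 1`.

Proof. See `CvZ.main` and `CvF.final` (CvZ/Main.lean, CvF/Main.lean): `zd_cv` for
`κ = GaloisField p m` gives `ZD (p ^ m) ...` for every `m ≥ 1`; for `m = 1` take the data `a`,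
`δ`;
`delta_one` with the data for `m = δ` gives `δ = 1` (the private theorem `one_Main` in CvZ/Main);
`CvZ.pol` gives `γ` with `N j = (if 1 ∣ j then 1 else 0) * p ^ j - ∑ γ_i ^ j`.
-/

set_option autoImplicit false

namespace Pool.Agent.Weil

open Polynomial Pool.Agent.CvB Pool.Agent.CvF

private theorem zd_Rat {p : ℕ} [Fact p.Prime] {f : (ZMod p)[X][X]} {d : ℕ} {D : (ZMod p)[X]}
    (hOk : ∀ (κ : Type) [Field κ] [Algebra (ZMod p) κ] [Finite κ], Ok (fm κ f) d (dm κ D))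
    {m : ℕ} (hm : 1 ≤ m) :
    ∃ H, 0 < H ∧ Pool.Agent.CvZ.ZD (p ^ m) (nn d D.natDegree) d (ss d D.natDegree) H
      (fun j => npt f D (m * j)) := by
  have hc : Nat.card (GaloisField p m) = p ^ m := GaloisField.card p m (by omega)
  have hf : Finite (GaloisField p m) := Nat.finite_of_card_ne_zero
    (by rw [hc]; exact pow_ne_zero _ (Fact.out : p.Prime).ne_zero)
  exact ⟨_, zd_cv (GaloisField p m) hm hc (hOk (GaloisField p m))⟩

theorem rat {p : ℕ} [Fact p.Prime] {f : (ZMod p)[X][X]} {d : ℕ} {D : (ZMod p)[X]} (hd : 1 ≤ d)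
    (hOk : ∀ (κ : Type) [Field κ] [Algebra (ZMod p) κ] [Finite κ], Ok (fm κ f) d (dm κ D)) :
    ∃ γ : Fin (nn d D.natDegree + d) → ℂ, ∀ j, 1 ≤ j →
      (npt f D j : ℂ) = (p : ℂ) ^ j - ∑ i, γ i ^ j := by
  have hp : 2 ≤ p := (Fact.out : p.Prime).two_le
  obtain ⟨H, h0, a, δ, ha⟩ := zd_Rat hOk (m := 1) le_rfl
  obtain ⟨H', h0', a', δ', ha'⟩ := zd_Rat hOk (m := δ) ha.2.1
  rw [pow_one] at ha
  simp only [one_mul] at ha
  have h3 := Pool.Agent.CvZ.delta_one hp hd h0 h0' ha ha'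
  subst h3
  obtain ⟨γ, e, -, hN, -⟩ := Pool.Agent.CvZ.pol (by omega) hd ha
  refine ⟨γ, fun j hj => ?_⟩
  have h1 := hN j hj
  rw [if_pos (one_dvd j)] at h1
  simpa using h1

end Pool.Agent.Weil
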