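import Pool.Agent.Weil.LowP
import Pool.Agent.Weil.Ana
import Pool.Agent.Weil.Rat

/-!
# Package Weil-Main: the theorem of Weil for plane curves

`f` is a curve over all finite extensions of `F_p`, `D` as in `Ok`. Then the number `npt f D m`
of the
points over the field with `p ^ m` elements with `D ≠ 0` differs from `p ^ m` by at most
`(nn d (natDegree D) + d) p ^ (m / 2)`.

Proof. `rat`: `npt f D j = p ^ j - ∑ γ_i ^ j`. `low_p`: for large `t`, with `N = m0 t`: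
`Re ∑ (γ_i ^ m0) ^ t = p ^ N - npt f D N ≤ C p ^ (N - N / 2) ≤ C √p (√p ^ m0) ^ t` (`N - N / 2 ≤
(N + 1) / 2`, real). `ana` for `γ_i ^ m0`, `r = √p ^ m0`: `‖γ_i‖ ^ m0 ≤ √p ^ m0`, `‖γ_i‖ ≤ √p`
(`pow_le_pow_iff_left₀`). `ana_bd` for `γ_i ^ m`, `r = √p ^ m = √(p ^ m)`.
-/

set_option autoImplicit false

namespace Pool.Agent.Weil

open Polynomial Pool.Agent.CvB Pool.Agent.CvF

private theorem pow_le_Main {p m0 t : ℕ} (hp : 1 ≤ p) :
    (p : ℝ) ^ (m0 * t - m0 * t / 2) ≤ Real.sqrt p * (Real.sqrt p ^ m0) ^ t := by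
  have h1 : (1 : ℝ) ≤ Real.sqrt p := Real.one_le_sqrt.2 (by exact_mod_cast hp)
  have h2 : (p : ℝ) ^ (m0 * t - m0 * t / 2) = Real.sqrt p ^ (2 * (m0 * t - m0 * t / 2)) := by
    rw [pow_mul, Real.sq_sqrt (Nat.cast_nonneg p)]
  rw [h2, ← pow_mul, ← pow_succ']
  exact pow_le_pow_right₀ h1 (by omega)

private theorem norm_Main {p : ℕ} [Fact p.Prime] {f : (ZMod p)[X][X]} {d : ℕ} {D : (ZMod p)[X]}
    (hd : 1 ≤ d)
    (hOk : ∀ (κ : Type) [Field κ] [Algebra (ZMod p) κ] [Finite κ], Ok (fm κ f) d (dm κ D))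
    {b : ℕ} {γ : Fin b → ℂ}
    (hγ : ∀ j, 1 ≤ j → (npt f D j : ℂ) = (p : ℂ) ^ j - ∑ i, γ i ^ j) (i : Fin b) :
    ‖γ i‖ ≤ Real.sqrt p := by
  have hp2 : 2 ≤ p := (Fact.out : p.Prime).two_le
  obtain ⟨m0, C, hm0, hlow⟩ := low_p hd hOk
  have h1 : ‖γ i ^ m0‖ ≤ Real.sqrt p ^ m0 := by
    refine ana (fun i => γ i ^ m0) (C := C * Real.sqrt p) (by positivity) (2 * C)
      (fun t ht hCt => ?_) i
    have hN : 1 ≤ m0 * t := Nat.one_le_iff_ne_zero.2 (Nat.mul_ne_zero (by omega) (by omega))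
    have hj : C ≤ m0 * t - m0 * t / 2 := by
      have : t ≤ m0 * t := Nat.le_mul_of_pos_left t (by omega)
      omega
    have hC : C ≤ p ^ (m0 * t - m0 * t / 2) := by
      refine hj.trans ((Nat.lt_two_pow_self).le.trans ?_)
      exact Nat.pow_le_pow_left hp2 _
    have h2 := hlow t ht hC
    have h3 : ∑ i, (γ i ^ m0) ^ t = (p : ℂ) ^ (m0 * t) - (npt f D (m0 * t) : ℂ) := by
      rw [hγ _ hN]
      simp only [← pow_mul]
      ring
    have h4 : (∑ i, (γ i ^ m0) ^ t).re = (p : ℝ) ^ (m0 * t) - (npt f D (m0 * t) : ℝ) := by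
      rw [h3]
      have h5 : (p : ℂ) ^ (m0 * t) - (npt f D (m0 * t) : ℂ) =
          (((p : ℝ) ^ (m0 * t) - (npt f D (m0 * t) : ℝ) : ℝ) : ℂ) := by
        push_cast
        rfl
      rw [h5, Complex.ofReal_re]
    have h6 : (p : ℝ) ^ (m0 * t) ≤ npt f D (m0 * t) + C * (p : ℝ) ^ (m0 * t - m0 * t / 2) := by
      exact_mod_cast h2
    have h7 := pow_le_Main (m0 := m0) (t := t) (show 1 ≤ p by omega)
    rw [h4, mul_assoc]
    have h8 : (C : ℝ) * (p : ℝ) ^ (m0 * t - m0 * t / 2) ≤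
        C * (Real.sqrt p * (Real.sqrt p ^ m0) ^ t) :=
      mul_le_mul_of_nonneg_left h7 (Nat.cast_nonneg C)
    linarith
  rw [norm_pow] at h1
  exact (pow_le_pow_iff_left₀ (norm_nonneg _) (Real.sqrt_nonneg _) (by omega)).1 h1

theorem weil {p : ℕ} [Fact p.Prime] {f : (ZMod p)[X][X]} {d : ℕ} {D : (ZMod p)[X]} (hd : 1 ≤ d)
    (hOk : ∀ (κ : Type) [Field κ] [Algebra (ZMod p) κ] [Finite κ], Ok (fm κ f) d (dm κ D))
    {m : ℕ} (hm : 1 ≤ m) :
    |(npt f D m : ℝ) - (p : ℝ) ^ m| ≤ ((nn d D.natDegree + d : ℕ) : ℝ) * Real.sqrt p ^ m := by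
  obtain ⟨γ, hγ⟩ := rat hd hOk
  have h1 := norm_Main hd hOk hγ
  have h2 := ana_bd (fun i => γ i ^ m) (r := Real.sqrt p ^ m) (fun i => by
    rw [norm_pow]
    exact pow_le_pow_left₀ (norm_nonneg _) (h1 i) m) (N := npt f D m) (q := p ^ m) (by
    rw [hγ m hm]
    push_cast
    rfl)
  push_cast at h2 ⊢
  exact h2

end Pool.Agent.Weil
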