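import Mathlib

/-!
# Package Weil-Ord: elements with different orders (only Mathlib)

`orders`: a finite dimensional subspace `V` with an injective linear map `Ψ` to `K⟦X⟧` contains
`finrank V` nonzero elements with pairwise different orders.

Proof. Let `O` be the set of the orders of `Ψ v` for `0 ≠ v ∈ V`. If `O' ⊆ O` is a finite set of
natural numbers which contains all elements of `O`, then `V → (O' → K)`, `v ↦ (coeff o (Ψ v))_o`
is
injective (the coefficient of `Ψ v` at its order is not zero), so `finrank V ≤ card O'`. `O` is
finite or not; in both cases it has at least `finrank V` elements: if `O` were finite with fewer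
elements, this is a contradiction; choose `finrank V` different elements of `O` and for each an
element of `V` of this order.

`indep`: `s i` (`i < u`) nonzero with pairwise different orders of `Ψ (s i)`, all less than `q`.
If
`∑ s i * t i ^ q = 0` then all `t i = 0`. Proof: let `a_i = Ψ (s i) Ψ (t i) ^ q`; for `t i ≠ 0`
the
order of `a_i` is `order Ψ (s i) + q order Ψ (t i)` (`PowerSeries.order_mul`, `order_pow`), and
these
natural numbers are pairwise different (residues modulo `q`). If some `t i ≠ 0`, take the one with
the least order `N`: the coefficient of `∑ a_i` at `N` is the one of `a_i`, not zero.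
-/

set_option autoImplicit false

namespace Pool.Agent.Weil

theorem orders {K A : Type} [Field K] [CommRing A] [Algebra K A] (V : Submodule K A)
    [Module.Finite K V] (Ψ : A →ₗ[K] PowerSeries K) (hΨ : Function.Injective Ψ) :
    ∃ s : Fin (Module.finrank K V) → A, (∀ i, s i ∈ V) ∧ (∀ i, s i ≠ 0) ∧
      Function.Injective fun i => (Ψ (s i)).order := by
  classical
  let O : Set ℕ := {n | ∃ v ∈ V, v ≠ 0 ∧ (Ψ v).order = (n : ℕ∞)}
  have key : ∃ f : Fin (Module.finrank K V) → O, Function.Injective f := by
    by_cases hO : O.Finite
    · have : Fintype O := hO.fintype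
      let L : V →ₗ[K] (O → K) :=
        { toFun := fun v o => PowerSeries.coeff (o : ℕ) (Ψ (v : A))
          map_add' := by
            intro a b
            funext o
            simp
          map_smul' := by
            intro c a
            funext o
            simp }
      have hL : Function.Injective L := by
        rw [injective_iff_map_eq_zero]
        intro v hv
        by_contra hne
        have hvA : (v : A) ≠ 0 := by
          intro h
          exact hne (Subtype.ext h)
        have h1 : Ψ (v : A) ≠ 0 := by
          intro h
          apply hvA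
          apply hΨ
          rw [h, map_zero]
        have h2 : (Ψ (v : A)).order = ((Ψ (v : A)).order.toNat : ℕ∞) := by
          rw [ENat.natCast_toNat]
          intro h
          exact h1 (PowerSeries.order_eq_top.1 h)
        have h3 : (Ψ (v : A)).order.toNat ∈ O := ⟨v, v.2, hvA, h2⟩
        have h4 := congrFun hv ⟨_, h3⟩
        exact PowerSeries.coeff_order h1 h4
      have h5 : Module.finrank K V ≤ Fintype.card O := by
        have := LinearMap.finrank_le_finrank_of_injective hL
        rwa [Module.finrank_fintype_fun_eq_card] at this
      have h6 : Fintype.card (Fin (Module.finrank K V)) ≤ Fintype.card O := by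
        rwa [Fintype.card_fin]
      obtain ⟨e⟩ := Function.Embedding.nonempty_of_card_le h6
      exact ⟨e, e.injective⟩
    · have : Infinite O := Set.infinite_coe_iff.2 hO
      refine ⟨fun i => Infinite.natEmbedding O (i : ℕ), ?_⟩
      intro i j hij
      exact Fin.ext ((Infinite.natEmbedding O).injective hij)
  obtain ⟨f, hf⟩ := key
  choose s hs1 hs2 hs3 using fun i => (f i).2
  refine ⟨s, hs1, hs2, ?_⟩
  intro i j hij
  apply hf
  apply Subtype.ext
  have h1 : (((f i : O) : ℕ) : ℕ∞) = (((f j : O) : ℕ) : ℕ∞) := by
    rw [← hs3 i, ← hs3 j]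
    exact hij
  exact_mod_cast h1

theorem indep {K A : Type} [Field K] [CommRing A] [Algebra K A] (Ψ : A →ₐ[K] PowerSeries K)
    (hΨ : Function.Injective Ψ) {u q : ℕ} (s t : Fin u → A) (h0 : ∀ i, s i ≠ 0)
    (h1 : Function.Injective fun i => (Ψ (s i)).order) (h2 : ∀ i, (Ψ (s i)).order < (q : ℕ∞))
    (h : ∑ i, s i * t i ^ q = 0) (i : Fin u) : t i = 0 := by
  classical
  by_contra hi
  have hne : ∀ a : A, a ≠ 0 → Ψ a ≠ 0 := by
    intro a ha h'
    apply ha
    apply hΨ
    rw [h', map_zero]
  have hnat : ∀ a : A, a ≠ 0 → (Ψ a).order = ((Ψ a).order.toNat : ℕ∞) := by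
    intro a ha
    rw [ENat.natCast_toNat]
    intro h'
    exact hne a ha (PowerSeries.order_eq_top.1 h')
  have hq : 0 < q := by
    rcases Nat.eq_zero_or_pos q with h' | h'
    · have := h2 i
      rw [h'] at this
      simp at this
    · exact h'
  let a : Fin u → ℕ := fun j => (Ψ (s j)).order.toNat
  let b : Fin u → ℕ := fun j => (Ψ (t j)).order.toNat
  have ha : ∀ j, a j < q := by
    intro j
    have := h2 j
    rw [hnat _ (h0 j)] at this
    exact_mod_cast this
  have hai : ∀ j k, a j = a k → j = k := by
    intro j k hjk
    apply h1
    show (Ψ (s j)).order = (Ψ (s k)).order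
    rw [hnat _ (h0 j), hnat _ (h0 k)]
    exact_mod_cast hjk
  have hord : ∀ j, t j ≠ 0 → (Ψ (s j * t j ^ q)).order = ((a j + q * b j : ℕ) : ℕ∞) := by
    intro j hj
    rw [map_mul, map_pow, PowerSeries.order_mul, PowerSeries.order_pow, hnat _ (h0 j),
      hnat _ hj]
    push_cast
    rw [nsmul_eq_mul]
  obtain ⟨m, hm, hmin⟩ := Finset.exists_min_image (Finset.univ.filter fun j => t j ≠ 0)
    (fun j => a j + q * b j) ⟨i, by simp [hi]⟩
  have hm' : t m ≠ 0 := by simpa using hm
  have hz : PowerSeries.coeff (a m + q * b m) (Ψ (∑ j, s j * t j ^ q)) = 0 := by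
    rw [h]
    simp
  rw [map_sum, map_sum, Finset.sum_eq_single m] at hz
  · have h3 : Ψ (s m * t m ^ q) ≠ 0 := by
      intro h'
      have := hord m hm'
      rw [h', PowerSeries.order_zero] at this
      exact absurd this.symm (ENat.natCast_ne_top _)
    have h4 := PowerSeries.coeff_order h3
    rw [hord m hm', ENat.toNat_natCast] at h4
    exact h4 hz
  · intro j _ hjm
    by_cases htj : t j = 0
    · rw [htj, zero_pow hq.ne', mul_zero, map_zero, map_zero]
    · apply PowerSeries.coeff_of_lt_order
      rw [hord j htj]
      have h5 : a m + q * b m ≤ a j + q * b j := hmin j (by simp [htj])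
      have h6 : a m + q * b m ≠ a j + q * b j := by
        intro h7
        apply hjm
        apply hai
        have h8 : (a m + q * b m) % q = (a j + q * b j) % q := by rw [h7]
        rw [Nat.add_mul_mod_self_left, Nat.add_mul_mod_self_left, Nat.mod_eq_of_lt (ha m),
          Nat.mod_eq_of_lt (ha j)] at h8
        exact h8.symm
      exact_mod_cast lt_of_le_of_ne h5 h6
  · intro h'
    exact absurd (Finset.mem_univ m) h'

end Pool.Agent.Weil
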