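import Pool.Agent.Weil.PlaM

/-!
# Package Weil-Pla: the theorem of Weil for plane curves in general position or not

For every `d` there is `C` such that for every prime `p` and every `F ∈ F_p[x][y]` of total degree
at most `d` which is irreducible over the algebraic closure the number of the zeros of `F` in
`F_p ^ 2` differs from `p` by at most `C √p`.

Proof. Let `e ≤ d` be the total degree of `F` (the least `e` with `F ∈ Td e`), `e ≥ 1` (a constant
is zero or a unit). For `p ≤ d` the number is between `0` and `p ^ 2 ≤ d ^ 2`: `C ≥ d ^ 2 + d` is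
enough
(`√p ≥ 1`). Let `p > d`. The form of degree `e` of `F` is not zero; `∑ a_i x ^ i y ^ (e - i)`;
the polynomial `∑ a_i T ^ i` has at most `e < p` zeros, so there is `c ∈ F_p` with
`s = ∑ a_i c ^ i ≠ 0`. `F'(x, y) = s⁻¹ F(x + c y, y)` is monic in `y` of degree `e`, of total
degree `e`; it is irreducible over the algebraic closure (an automorphism of the ring of
polynomials; unit factor), and `(x, y) ↦ (x + c y, y)` is a bijection of the zeros. `pla_mon`;
`C = nn d (2 d ^ 2) + d + 2 d ^ 3 + d ^ 2 + d` (monotone in `e`).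
-/

set_option autoImplicit false

namespace Pool.Agent.Weil

open Polynomial Pool.Agent.CvB Pool.Agent.CvF

private theorem cc_td_Pla {K : Type} [Field K] (a : K) : (C (C a) : K[X][X]) ∈ Td K 0 := by
  intro i j hij
  rw [coeff_C]
  split_ifs with hj
  · rw [coeff_C, if_neg (by omega)]
  · rw [coeff_zero]

/-- `x ↦ x + t y` -/
private noncomputable def sh_Pla (K : Type) [Field K] (t : K) : K[X][X] →+* K[X][X] :=
  eval₂RingHom (eval₂RingHom ((C : K[X] →+* K[X][X]).comp (C : K →+* K[X]))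
    (C X + C (C t) * X)) X

private theorem sh_comp_Pla (K : Type) [Field K] (t t' : K) (h : t + t' = 0) :
    (sh_Pla K t).comp (sh_Pla K t') = RingHom.id K[X][X] := by
  refine Polynomial.ringHom_ext' (Polynomial.ringHom_ext' ?_ ?_) ?_
  · ext k
    simp [sh_Pla]
  · have h1 : (C (C t) : K[X][X]) + C (C t') = 0 := by
      rw [← map_add, ← map_add, h, map_zero, map_zero]
    simp only [sh_Pla, RingHom.comp_apply, coe_eval₂RingHom, eval₂_C, eval₂_X, eval₂_add,
      eval₂_mul, RingHom.id_apply]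
    linear_combination X * h1
  · simp [sh_Pla]

private theorem lin_td_Pla {K : Type} [Field K] (t : K) :
    (C X + C (C t) * X : K[X][X]) ∈ Td K 1 := by
  intro i j hij
  rw [coeff_add, coeff_C, coeff_C_mul, coeff_X, coeff_add]
  rcases Nat.lt_or_ge j 2 with hj | hj
  · interval_cases j
    · simp only [if_true, one_ne_zero, if_false, mul_zero, coeff_zero, add_zero]
      rw [coeff_X, if_neg (by omega)]
    · simp only [if_true, one_ne_zero, if_false, mul_one, coeff_zero, zero_add]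
      rw [coeff_C, if_neg (by omega)]
  · rw [if_neg (by omega), if_neg (by omega), mul_zero, coeff_zero, add_zero]

private theorem X_td_Pla {K : Type} [Field K] : (X : K[X][X]) ∈ Td K 1 := by
  intro i j hij
  rw [coeff_X]
  split_ifs with hj
  · rw [coeff_one, if_neg (by omega)]
  · rw [coeff_zero]

private theorem sh_td_Pla {K : Type} [Field K] (t : K) : ∀ (N : ℕ) (g : K[X][X]),
    g ∈ Td K N → sh_Pla K t g ∈ Td K N := by
  intro N
  induction N with
  | zero =>
    intro g hg
    obtain ⟨c, rfl⟩ := td_zero hg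
    have h1 : sh_Pla K t (C (C c)) = C (C c) := by simp [sh_Pla]
    rw [h1]
    exact cc_td_Pla c
  | succ N ih =>
    intro g hg
    obtain ⟨a, ha, b, hb, c, hc, rfl⟩ := td_gen hg
    have h1 : sh_Pla K t (C X) = C X + C (C t) * X := by simp [sh_Pla]
    have h2 : sh_Pla K t X = X := by simp [sh_Pla]
    rw [map_add, map_add, map_mul, map_mul, h1, h2]
    refine Submodule.add_mem _ (Submodule.add_mem _ (td_mono (Nat.le_succ N) (ih a ha)) ?_) ?_
    · have h3 := td_mul (lin_td_Pla t) (ih b hb)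
      rwa [Nat.add_comm 1 N] at h3
    · have h3 := td_mul (X_td_Pla (K := K)) (ih c hc)
      rwa [Nat.add_comm 1 N] at h3

private theorem nd_le_Pla {K : Type} [Field K] {N : ℕ} {g : K[X][X]} (hg : g ∈ Td K N) :
    g.natDegree ≤ N := by
  rw [natDegree_le_iff_coeff_eq_zero]
  intro j hj
  ext i
  rw [coeff_zero]
  exact hg i j (by omega)

private theorem sh_cf_Pla {K : Type} [Field K] (t : K) {N : ℕ} {g : K[X][X]}
    (hg : g ∈ Td K N) : ((sh_Pla K t g).coeff N).coeff 0 =
      ∑ j ∈ Finset.range (N + 1), (g.coeff j).coeff (N - j) * t ^ (N - j) := by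
  have h1 : (mapRingHom (evalRingHom (0 : K))).comp (sh_Pla K t) =
      eval₂RingHom (compRingHom (C t * X)) X := by
    refine Polynomial.ringHom_ext' (Polynomial.ringHom_ext' ?_ ?_) ?_
    · ext k
      simp [sh_Pla]
    · simp [sh_Pla]
    · simp [sh_Pla]
  have h2 := RingHom.congr_fun h1 g
  rw [RingHom.comp_apply, coe_eval₂RingHom,
    eval₂_eq_sum_range' _ (Nat.lt_succ_of_le (nd_le_Pla hg))] at h2
  have h3 := congrArg (fun q => coeff q N) h2
  simp only [coe_mapRingHom, coeff_map, coe_evalRingHom] at h3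
  rw [coeff_zero_eq_eval_zero, h3, finsetSum_coeff]
  refine Finset.sum_congr rfl fun j hj => ?_
  rw [Finset.mem_range] at hj
  rw [coeff_mul_X_pow', if_pos (by omega), coe_compRingHom_apply, comp_C_mul_X_coeff]

private theorem sh_eval_Pla {K : Type} [Field K] (t x y : K) (g : K[X][X]) :
    (sh_Pla K t g).evalEval x y = g.evalEval (x + t * y) y := by
  have h1 : (evalEvalRingHom x y).comp (sh_Pla K t) = evalEvalRingHom (x + t * y) y := by
    refine Polynomial.ringHom_ext' (Polynomial.ringHom_ext' ?_ ?_) ?_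
    · ext k
      simp [sh_Pla]
    · simp [sh_Pla]
    · simp [sh_Pla]
  exact RingHom.congr_fun h1 g

private theorem sh_map_Pla {K L : Type} [Field K] [Field L] [Algebra K L] (t : K) (g : K[X][X]) :
    fm L (sh_Pla K t g) = sh_Pla L (algebraMap K L t) (fm L g) := by
  have h1 : (mapRingHom (mapRingHom (algebraMap K L))).comp (sh_Pla K t) =
      (sh_Pla L (algebraMap K L t)).comp (mapRingHom (mapRingHom (algebraMap K L))) := by
    refine Polynomial.ringHom_ext' (Polynomial.ringHom_ext' ?_ ?_) ?_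
    · ext k
      simp [sh_Pla]
    · simp [sh_Pla]
    · simp [sh_Pla]
  exact RingHom.congr_fun h1 g

private theorem irr_Pla {K L : Type} [Field K] [Field L] [Algebra K L] (t u : K) (hu : u ≠ 0)
    {g : K[X][X]} (hg : Irreducible (fm L g)) :
    Irreducible (fm L (C (C u) * sh_Pla K t g)) := by
  have h1 : fm L (C (C u) * sh_Pla K t g) =
      C (C (algebraMap K L u)) * sh_Pla L (algebraMap K L t) (fm L g) := by
    rw [← sh_map_Pla]
    simp [fm]
  have h2 : IsUnit (C (C (algebraMap K L u)) : L[X][X]) := by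
    have h3 : algebraMap K L u ≠ 0 := by
      rw [Ne, map_eq_zero]
      exact hu
    exact ((IsUnit.mk0 _ h3).map C).map C
  rw [h1, irreducible_isUnit_mul h2]
  exact (MulEquiv.irreducible_iff (RingEquiv.ofRingHom
    (sh_Pla L (algebraMap K L t)) (sh_Pla L (-(algebraMap K L t)))
    (sh_comp_Pla _ _ _ (add_neg_cancel _)) (sh_comp_Pla _ _ _ (neg_add_cancel _)))).2 hg

private theorem card_Pla {K : Type} [Field K] (t u : K) (hu : u ≠ 0) (g : K[X][X]) :
    Nat.card {c : K × K // (C (C u) * sh_Pla K t g).evalEval c.1 c.2 = 0} =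
      Nat.card {c : K × K // g.evalEval c.1 c.2 = 0} := by
  refine Nat.card_congr (Equiv.subtypeEquiv
    { toFun := fun c => (c.1 + t * c.2, c.2)
      invFun := fun c => (c.1 - t * c.2, c.2)
      left_inv := fun c => Prod.ext (by simp) rfl
      right_inv := fun c => Prod.ext (by simp) rfl } ?_)
  intro c
  show (C (C u) * sh_Pla K t g).evalEval c.1 c.2 = 0 ↔
    g.evalEval (c.1 + t * c.2) c.2 = 0
  rw [evalEval_mul, sh_eval_Pla, evalEval_C, eval_C, mul_eq_zero]
  constructor
  · rintro (h | h)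
    · exact absurd h hu
    · exact h
  · exact Or.inr

private theorem ex_Pla {K : Type} [Field K] {e : ℕ} {g : K[X][X]}
    (hne : ∃ i j, i + j = e ∧ (g.coeff j).coeff i ≠ 0) (hc : e < Nat.card K) :
    ∃ t : K, ∑ j ∈ Finset.range (e + 1), (g.coeff j).coeff (e - j) * t ^ (e - j) ≠ 0 := by
  obtain ⟨i, j, hij, hne⟩ := hne
  set P : K[X] := ∑ j ∈ Finset.range (e + 1), C ((g.coeff j).coeff (e - j)) * X ^ (e - j)
    with hP
  have h1 : P.coeff i ≠ 0 := by
    rw [hP, finsetSum_coeff, Finset.sum_eq_single j]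
    · rw [coeff_C_mul_X_pow, if_pos (by omega)]
      have h2 : e - j = i := by omega
      rwa [h2]
    · intro b hb hbj
      rw [Finset.mem_range] at hb
      rw [coeff_C_mul_X_pow, if_neg (by omega)]
    · intro h
      exact absurd (Finset.mem_range.2 (by omega)) h
  have h2 : P ≠ 0 := by
    intro h
    rw [h] at h1
    exact h1 (coeff_zero _)
  have h3 : P.natDegree ≤ e := by
    rw [hP]
    refine natDegree_sum_le_of_forall_le _ _ fun b hb => ?_
    exact (natDegree_C_mul_X_pow_le _ _).trans (Nat.sub_le _ _)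
  have h4 : (P.natDegree : Cardinal) < Cardinal.mk K := by
    have : Finite K := Nat.finite_of_card_ne_zero (by omega)
    rw [← Nat.cast_card]
    exact_mod_cast lt_of_le_of_lt h3 hc
  obtain ⟨t, ht⟩ := Polynomial.exists_eval_ne_zero_of_natDegree_lt_card P h2 h4
  refine ⟨t, ?_⟩
  intro h0
  apply ht
  rw [hP, eval_finsetSum, ← h0]
  refine Finset.sum_congr rfl fun b _ => ?_
  simp

theorem weil_plane (d : ℕ) : ∃ C : ℕ, ∀ (p : ℕ) [Fact p.Prime] (F : (ZMod p)[X][X]),
    F ∈ Td (ZMod p) d → Irreducible (fm (AlgebraicClosure (ZMod p)) F) →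
    |(Nat.card {c : ZMod p × ZMod p // F.evalEval c.1 c.2 = 0} : ℝ) - p| ≤
      C * Real.sqrt p := by
  set S : ℕ := ∑ e ∈ Finset.range (d + 1), (nn e (2 * e ^ 2) + e + 2 * e ^ 3) with hS
  refine ⟨S + d ^ 2, ?_⟩
  intro p hp F hF hI
  have hp1 : (1 : ℝ) ≤ Real.sqrt p := by
    rw [Real.one_le_sqrt]
    exact_mod_cast hp.out.one_lt.le
  have hC : (0 : ℝ) ≤ ((S + d ^ 2 : ℕ) : ℝ) := Nat.cast_nonneg _
  rcases Nat.lt_or_ge d p with hdp | hdp
  swap
  · have h1 : Nat.card {c : ZMod p × ZMod p // F.evalEval c.1 c.2 = 0} ≤ p ^ 2 := by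
      have h2 := Nat.card_le_card_of_injective
        (Subtype.val : {c : ZMod p × ZMod p // F.evalEval c.1 c.2 = 0} → ZMod p × ZMod p)
        Subtype.val_injective
      rw [Nat.card_prod, Nat.card_zmod, ← sq] at h2
      exact h2
    have h3 : p ≤ p ^ 2 := Nat.le_self_pow two_ne_zero p
    have h4 : p ^ 2 ≤ d ^ 2 := Nat.pow_le_pow_left hdp 2
    have h5 : |(Nat.card {c : ZMod p × ZMod p // F.evalEval c.1 c.2 = 0} : ℝ) - p| ≤
        ((d ^ 2 : ℕ) : ℝ) := by
      rw [abs_le]
      have e1 : (Nat.card {c : ZMod p × ZMod p // F.evalEval c.1 c.2 = 0} : ℝ) ≤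
          ((p ^ 2 : ℕ) : ℝ) := by exact_mod_cast h1
      have e2 : ((p : ℕ) : ℝ) ≤ ((p ^ 2 : ℕ) : ℝ) := by exact_mod_cast h3
      have e3 : ((p ^ 2 : ℕ) : ℝ) ≤ ((d ^ 2 : ℕ) : ℝ) := by exact_mod_cast h4
      have e4 : (0 : ℝ) ≤ (Nat.card {c : ZMod p × ZMod p // F.evalEval c.1 c.2 = 0} : ℝ) :=
        Nat.cast_nonneg _
      have e5 : (0 : ℝ) ≤ ((p : ℕ) : ℝ) := Nat.cast_nonneg _
      constructor
      · linarith
      · linarith
    have h6 : ((d ^ 2 : ℕ) : ℝ) ≤ ((S + d ^ 2 : ℕ) : ℝ) := by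
      exact_mod_cast Nat.le_add_left _ _
    calc _ ≤ ((d ^ 2 : ℕ) : ℝ) := h5
      _ ≤ ((S + d ^ 2 : ℕ) : ℝ) := h6
      _ = ((S + d ^ 2 : ℕ) : ℝ) * 1 := (mul_one _).symm
      _ ≤ _ := mul_le_mul_of_nonneg_left hp1 hC
  · classical
    have hex : ∃ N, F ∈ Td (ZMod p) N := ⟨d, hF⟩
    set e := Nat.find hex with he
    have he1 : F ∈ Td (ZMod p) e := Nat.find_spec hex
    have hed : e ≤ d := Nat.find_min' hex hF
    have he0 : 1 ≤ e := by
      rw [Nat.one_le_iff_ne_zero]
      intro h0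
      rw [h0] at he1
      obtain ⟨c, rfl⟩ := td_zero he1
      have h1 : fm (AlgebraicClosure (ZMod p)) (C (C c)) =
          C (C (algebraMap (ZMod p) (AlgebraicClosure (ZMod p)) c)) := by
        simp [fm]
      rw [h1] at hI
      by_cases hc : algebraMap (ZMod p) (AlgebraicClosure (ZMod p)) c = 0
      · rw [hc, C_0, C_0] at hI
        exact hI.ne_zero rfl
      · exact hI.not_isUnit (((IsUnit.mk0 _ hc).map C).map C)
    have hne : ∃ i j, i + j = e ∧ (F.coeff j).coeff i ≠ 0 := by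
      by_contra hcon
      push Not at hcon
      have h1 : F ∈ Td (ZMod p) (e - 1) := by
        intro i j hij
        by_cases h2 : e < i + j
        · exact he1 i j h2
        · exact hcon i j (by omega)
      have h2 := Nat.find_min' hex h1
      omega
    have hep : e < Nat.card (ZMod p) := by
      rw [Nat.card_zmod]
      omega
    obtain ⟨t, ht⟩ := ex_Pla hne hep
    set s := ∑ j ∈ Finset.range (e + 1), (F.coeff j).coeff (e - j) * t ^ (e - j) with hs
    have hs0 : s⁻¹ ≠ 0 := inv_ne_zero ht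
    set G := C (C s⁻¹) * sh_Pla (ZMod p) t F with hG
    have hGt : G ∈ Td (ZMod p) e := by
      have h1 := td_mul (cc_td_Pla s⁻¹) (sh_td_Pla t e F he1)
      rwa [Nat.zero_add] at h1
    have hGc : G.coeff e = 1 := by
      ext i
      rw [coeff_one]
      split_ifs with hi
      · rw [hi, hG, coeff_C_mul, coeff_C_mul, sh_cf_Pla t he1]
        exact inv_mul_cancel₀ ht
      · exact hGt i e (by omega)
    have hGm : G.Monic := monic_of_natDegree_le_of_coeff_eq_one e (nd_le_Pla hGt) hGc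
    have hGn : G.natDegree = e := by
      refine natDegree_eq_of_le_of_coeff_ne_zero (nd_le_Pla hGt) ?_
      rw [hGc]
      exact one_ne_zero
    have hGi : Irreducible (fm (AlgebraicClosure (ZMod p)) G) := irr_Pla t s⁻¹ hs0 hI
    have h1 := pla_mon he0 (by omega) hGm hGn hGt hGi
    rw [card_Pla t s⁻¹ hs0 F] at h1
    refine h1.trans ?_
    have h2 : nn e (2 * e ^ 2) + e + 2 * e ^ 3 ≤ S := by
      rw [hS]
      exact Finset.single_le_sum
        (f := fun e => nn e (2 * e ^ 2) + e + 2 * e ^ 3) (fun _ _ => Nat.zero_le _)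
        (Finset.mem_range.2 (by omega))
    have h3 : ((nn e (2 * e ^ 2) + e + 2 * e ^ 3 : ℕ) : ℝ) ≤ ((S + d ^ 2 : ℕ) : ℝ) := by
      exact_mod_cast h2.trans (Nat.le_add_right _ _)
    have h4 : (2 : ℝ) * (e : ℝ) ^ 3 ≤ 2 * (e : ℝ) ^ 3 * Real.sqrt p := by
      have h5 : (0 : ℝ) ≤ 2 * (e : ℝ) ^ 3 := by positivity
      calc (2 : ℝ) * (e : ℝ) ^ 3 = 2 * (e : ℝ) ^ 3 * 1 := (mul_one _).symm
        _ ≤ _ := mul_le_mul_of_nonneg_left hp1 h5
    have h6 : ((nn e (2 * e ^ 2) + e + 2 * e ^ 3 : ℕ) : ℝ) =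
        ((nn e (2 * e ^ 2) + e : ℕ) : ℝ) + 2 * (e : ℝ) ^ 3 := by
      push_cast
      ring
    calc _ ≤ ((nn e (2 * e ^ 2) + e : ℕ) : ℝ) * Real.sqrt p + 2 * (e : ℝ) ^ 3 * Real.sqrt p := by
          linarith
      _ = ((nn e (2 * e ^ 2) + e + 2 * e ^ 3 : ℕ) : ℝ) * Real.sqrt p := by
          rw [h6]
          ring
      _ ≤ _ := mul_le_mul_of_nonneg_right h3 (Real.sqrt_nonneg _)

end Pool.Agent.Weil
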