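import Pool.Agent.Weil.Main
import Pool.Agent.CvG.Res

/-!
# Package Weil-PlaM: the theorem of Weil for plane curves, monic case

`F ∈ F_p[x][y]` monic in `y` of degree `d`, of total degree `d`, `1 ≤ d < p`, irreducible over the
algebraic closure: the number of the zeros of `F` in `F_p ^ 2` differs from `p` by at most
`(nn d (2 d ^ 2) + d) √p + 2 d ^ 3`.

Proof. `D = CvG.ds d F`. For every finite extension `κ`: `fm κ F` is irreducible (a factorization
over
`κ` gives one over the algebraic closure, into which `κ` embeds: `IsAlgClosed.lift`; monic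
polynomials: `Monic.irreducible_of_irreducible_map`), so
`Ok (fm κ F) d (dm κ D)` (`ds_map`, `ds_comb`, `ds_ne`; `(d : κ) ≠ 0` because `d < p`; see the
proof of `CvG.ok_of` in CvG/OkG.lean). `weil` for `m = 1`, `nn d` is monotone, `ds_deg`; `npt F D
1`
is
the number of the points over `ZMod p` with `D ≠ 0` (see `npt_Main` in CvF/Main.lean). There are
at
most `natDegree D * d ≤ 2 d ^ 3` points with `D(x) = 0`.
-/

set_option autoImplicit false

namespace Pool.Agent.Weil

open Polynomial Pool.Agent.CvB Pool.Agent.CvF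

private theorem ok_PlaM {p : ℕ} [Fact p.Prime] {F : (ZMod p)[X][X]} {d : ℕ} (hd : 1 ≤ d)
    (hp : d < p) (hF : F.Monic) (hn : F.natDegree = d) (ht : F ∈ Td (ZMod p) d)
    (hi : Irreducible (fm (AlgebraicClosure (ZMod p)) F)) (κ : Type) [Field κ]
    [Algebra (ZMod p) κ] [Finite κ] : Ok (fm κ F) d (dm κ (CvG.ds d F)) := by
  have hmκ : (fm κ F).Monic := hF.map _
  have hdκ : (fm κ F).natDegree = d := by
    rw [fm, hF.natDegree_map, hn]
  have hirrZ : Irreducible F := hF.irreducible_of_irreducible_map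
    (mapRingHom (algebraMap (ZMod p) (AlgebraicClosure (ZMod p)))) _ hi
  have hirrκ : Irreducible (fm κ F) := by
    have : Algebra.IsAlgebraic (ZMod p) κ := inferInstance
    let φ : κ →ₐ[ZMod p] AlgebraicClosure (ZMod p) := IsAlgClosed.lift
    refine hmκ.irreducible_of_irreducible_map (mapRingHom φ.toRingHom) _ ?_
    have h1 : (fm κ F).map (mapRingHom φ.toRingHom) = fm (AlgebraicClosure (ZMod p)) F := by
      rw [fm, Polynomial.map_map, Polynomial.mapRingHom_comp, fm]
      congr 2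
      exact φ.comp_algebraMap
    rw [h1]
    exact hi
  have hd0 : ((d : ℕ) : ZMod p) ≠ 0 := by
    intro h0
    have h1 := Nat.le_of_dvd (by omega) ((ZMod.natCast_eq_zero_iff _ _).1 h0)
    omega
  refine ⟨⟨hd, hmκ, hdκ, ?_, hirrκ⟩, ?_, ?_⟩
  · intro i j hij
    have h1 := ht i j hij
    rw [fm, coeff_map, coe_mapRingHom, coeff_map, h1, map_zero]
  · rw [dm, Ne, Polynomial.map_eq_zero]
    exact CvG.ds_ne hd hn hF hirrZ hd0
  · have h1 := CvG.ds_comb hd hdκ.le
    rw [CvG.ds_map] at h1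
    exact h1

private theorem fm_PlaM {p : ℕ} [Fact p.Prime] (f : (ZMod p)[X][X]) : fm (ZMod p) f = f := by
  have h : mapRingHom (algebraMap (ZMod p) (ZMod p)) = RingHom.id _ := by
    rw [Algebra.algebraMap_self]
    exact mapRingHom_id
  show f.map (mapRingHom (algebraMap (ZMod p) (ZMod p))) = f
  rw [h, Polynomial.map_id]

private theorem dm_PlaM {p : ℕ} [Fact p.Prime] (D : (ZMod p)[X]) : dm (ZMod p) D = D := by
  show D.map (algebraMap (ZMod p) (ZMod p)) = D
  rw [Algebra.algebraMap_self, Polynomial.map_id]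

private theorem npt_PlaM {p : ℕ} [Fact p.Prime] (f : (ZMod p)[X][X]) (D : (ZMod p)[X]) :
    Nat.card {c : ZMod p × ZMod p // f.evalEval c.1 c.2 = 0 ∧ D.eval c.1 ≠ 0} = npt f D 1 := by
  have h := npt_eq f D (ZMod p) (n := 1) le_rfl (by rw [Nat.card_zmod, pow_one])
  rw [fm_PlaM, dm_PlaM] at h
  exact h

private theorem bad_PlaM {p : ℕ} [Fact p.Prime] {F : (ZMod p)[X][X]} {d : ℕ} (hF : F.Monic)
    (hn : F.natDegree = d) {D : (ZMod p)[X]} (hD : D ≠ 0) :
    Nat.card {c : ZMod p × ZMod p // F.evalEval c.1 c.2 = 0 ∧ ¬ D.eval c.1 ≠ 0} ≤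
      D.natDegree * d := by
  classical
  have h1 : Nat.card {c : ZMod p × ZMod p // F.evalEval c.1 c.2 = 0 ∧ ¬ D.eval c.1 ≠ 0} ≤
      (D.roots.toFinset.biUnion fun x =>
        ((F.map (evalRingHom x)).roots.toFinset.image fun y => (x, y))).card := by
    rw [← Fintype.card_coe, ← Nat.card_eq_fintype_card]
    refine Nat.card_le_card_of_injective (fun c => ⟨c.1, ?_⟩) ?_
    · obtain ⟨⟨x, y⟩, h2, h3⟩ := c
      rw [Finset.mem_biUnion]
      refine ⟨x, ?_, ?_⟩
      · rw [Multiset.mem_toFinset, mem_roots hD]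
        exact not_not.1 h3
      · rw [Finset.mem_image]
        refine ⟨y, ?_, rfl⟩
        rw [Multiset.mem_toFinset, mem_roots (hF.map _).ne_zero, IsRoot.def,
          map_evalRingHom_eval]
        exact h2
    · intro c c' h
      exact Subtype.ext (Subtype.mk.inj h)
  refine h1.trans ?_
  refine Finset.card_biUnion_le.trans ?_
  refine (Finset.sum_le_card_nsmul _ _ d fun x _ => ?_).trans ?_
  · refine Finset.card_image_le.trans ((Multiset.toFinset_card_le _).trans ?_)
    refine (card_roots' _).trans ?_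
    rw [hF.natDegree_map, hn]
  · rw [smul_eq_mul]
    exact Nat.mul_le_mul_right d ((Multiset.toFinset_card_le _).trans (card_roots' D))

theorem pla_mon {p : ℕ} [Fact p.Prime] {F : (ZMod p)[X][X]} {d : ℕ} (hd : 1 ≤ d) (hp : d < p)
    (hF : F.Monic) (hn : F.natDegree = d) (ht : F ∈ Td (ZMod p) d)
    (hi : Irreducible (fm (AlgebraicClosure (ZMod p)) F)) :
    |(Nat.card {c : ZMod p × ZMod p // F.evalEval c.1 c.2 = 0} : ℝ) - p| ≤
      ((nn d (2 * d ^ 2) + d : ℕ) : ℝ) * Real.sqrt p + 2 * d ^ 3 := by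
  classical
  have hOk := fun (κ : Type) [Field κ] [Algebra (ZMod p) κ] [Finite κ] =>
    ok_PlaM hd hp hF hn ht hi κ
  have hw := weil hd hOk (m := 1) le_rfl
  have hD : CvG.ds d F ≠ 0 := by
    intro h0
    have h1 := (hOk (ZMod p)).ne
    rw [dm_PlaM] at h1
    exact h1 h0
  have hdeg := CvG.ds_deg hd ht
  have hbad := bad_PlaM hF hn hD
  rw [pow_one, pow_one, ← npt_PlaM] at hw
  have hsplit : Nat.card {c : ZMod p × ZMod p // F.evalEval c.1 c.2 = 0} =
      Nat.card {c : ZMod p × ZMod p // F.evalEval c.1 c.2 = 0 ∧ (CvG.ds d F).eval c.1 ≠ 0} +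
      Nat.card {c : ZMod p × ZMod p // F.evalEval c.1 c.2 = 0 ∧
        ¬ (CvG.ds d F).eval c.1 ≠ 0} := by
    rw [Nat.card_eq_fintype_card, Nat.card_eq_fintype_card, Nat.card_eq_fintype_card,
      Fintype.card_subtype, Fintype.card_subtype, Fintype.card_subtype,
      ← Finset.filter_filter, ← Finset.filter_filter,
      Finset.card_filter_add_card_filter_not]
  have hnn : ((nn d (CvG.ds d F).natDegree + d : ℕ) : ℝ) ≤ ((nn d (2 * d ^ 2) + d : ℕ) : ℝ) := by
    rw [Nat.cast_le]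
    unfold nn
    have := Nat.mul_le_mul_left d hdeg
    omega
  have hb2 : ((Nat.card {c : ZMod p × ZMod p // F.evalEval c.1 c.2 = 0 ∧
        ¬ (CvG.ds d F).eval c.1 ≠ 0} : ℕ) : ℝ) ≤ 2 * d ^ 3 := by
    have h1 : Nat.card {c : ZMod p × ZMod p // F.evalEval c.1 c.2 = 0 ∧
        ¬ (CvG.ds d F).eval c.1 ≠ 0} ≤ 2 * d ^ 3 := by
      refine hbad.trans ((Nat.mul_le_mul_right d hdeg).trans (le_of_eq ?_))
      ring
    exact_mod_cast h1
  have hs : 0 ≤ Real.sqrt p := Real.sqrt_nonneg _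
  have h3 := mul_le_mul_of_nonneg_right hnn hs
  rw [hsplit, Nat.cast_add]
  rw [abs_le] at hw ⊢
  have h4 : (0 : ℝ) ≤ (Nat.card {c : ZMod p × ZMod p // F.evalEval c.1 c.2 = 0 ∧
        ¬ (CvG.ds d F).eval c.1 ≠ 0} : ℕ) := Nat.cast_nonneg _
  have h5 : (0 : ℝ) ≤ 2 * (d : ℝ) ^ 3 := by positivity
  constructor
  · linarith [hw.1]
  · linarith [hw.2]

end Pool.Agent.Weil
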