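import Pool.Agent.Weil.Tw

/-!
# Package Weil-Pts: the points of the Galois cover

Data `GC f μ Δ ρ y`, `Ω` an algebraically closed field (`IsAlgClosed`), a `K`-algebra. `xv ψ` is
the
value of `x` at the point `ψ`.

`pt_ext`: a point `ψ` is determined by `ψ x` and `ψ θ` (localization, `AdjoinRoot`; see the
private
theorem `val_PtsB` in CvB/PtsB and the proof of `card_pts` there).

`pt_ne`: `Δ (ψ x) ≠ 0` (`ψ (Δ)` is a unit; `ψ (algebraMap K[X] _ P) = aeval (ψ x) P`).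

`pt_conj`: `ψ`, `ψ'` with the same value of `x`: there is `g` with `ψ' = ψ ∘ ρ g`. Proof: apply
`ψ`
to `GC.prod`: `μ(a, T) = ∏ (T - ψ (ρ g θ))` where `a` is the common value; `ψ' θ` is a root of
`μ(a, T)` (`μ` at `θ` is `0` in `CR μ Δ`), so `ψ' θ = ψ (ρ g θ)` for some `g`; now `pt_ext`
(`ψ ∘ ρ g` is a `K`-algebra homomorphism with `x ↦ a`: `AlgEquiv.restrictScalars`).

`pt_free`: `ψ ∘ ρ g = ψ ∘ ρ g'` implies `g = g'` (`GC.unit`).

`pt_ex`: for every `a ∈ Ω` with `Δ(a) ≠ 0` there is a point with value `a` at `x`: a root `b` of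
the
monic polynomial `μ(a, T)` of degree `≥ 1`, then `AdjoinRoot.lift`, `IsLocalization.Away.lift` (or
use
`card_pts`: the number of the points with ... ; the proof of surjectivity there).

`pt_card`: for every `a ∈ Ω` with `Δ(a) ≠ 0` there are exactly `card G` points with value `a` at
`x`: fix one, `g ↦ ψ ∘ ρ g` is a bijection.
-/

set_option autoImplicit false

namespace Pool.Agent.Weil

open Polynomial Pool.Agent.CvB

variable {K : Type} [Field K] {f μ : K[X][X]} {Δ : K[X]} {G : Type} [Group G] [Fintype G]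
  {ρ : G →* (CR μ Δ ≃ₐ[K[X]] CR μ Δ)} {d : ℕ} {y : Fin d → CR μ Δ}
  {Ω : Type} [Field Ω] [Algebra K Ω]

/-- the value of `x` at a point -/
noncomputable def xv (ψ : CR μ Δ →ₐ[K] Ω) : Ω := ψ (algebraMap K[X] (CR μ Δ) X)

private theorem alg_Pts (P : K[X]) :
    algebraMap K[X] (CR μ Δ) P = algebraMap (CA μ) (CR μ Δ) (AdjoinRoot.of μ P) := by
  rw [IsScalarTower.algebraMap_apply K[X] (CA μ) (CR μ Δ)]
  rfl

theorem pt_poly (ψ : CR μ Δ →ₐ[K] Ω) (P : K[X]) :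
    ψ (algebraMap K[X] (CR μ Δ) P) = aeval (xv ψ) P := by
  have h1 : aeval (algebraMap K[X] (CR μ Δ) X) P = algebraMap K[X] (CR μ Δ) P := by
    rw [aeval_algebraMap_apply, aeval_X_left_apply]
  rw [← h1, xv]
  exact (aeval_algHom_apply ψ (algebraMap K[X] (CR μ Δ) X) P).symm

private theorem val_Pts (φ : CR μ Δ →ₐ[K] Ω) (g : K[X][X]) :
    φ (algebraMap (CA μ) (CR μ Δ) (AdjoinRoot.mk μ g)) =
      (g.map (mapRingHom (algebraMap K Ω))).evalEval (xv φ) (φ (th μ Δ)) := by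
  have h : (φ : CR μ Δ →+* Ω).comp ((algebraMap (CA μ) (CR μ Δ)).comp (AdjoinRoot.mk μ)) =
      (evalEvalRingHom (xv φ) (φ (th μ Δ))).comp
        (mapRingHom (mapRingHom (algebraMap K Ω))) := by
    apply Polynomial.ringHom_ext'
    · apply Polynomial.ringHom_ext'
      · refine RingHom.ext fun c => ?_
        have h1 : algebraMap (CA μ) (CR μ Δ) (AdjoinRoot.mk μ (C (C c))) =
            algebraMap K (CR μ Δ) c := by
          rw [IsScalarTower.algebraMap_apply K (CA μ) (CR μ Δ)]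
          rfl
        change φ (algebraMap (CA μ) (CR μ Δ) (AdjoinRoot.mk μ (C (C c)))) =
          evalEval _ _ ((C (C c)).map (mapRingHom (algebraMap K Ω)))
        rw [h1, AlgHom.commutes, map_C, coe_mapRingHom, map_C, evalEval_C, eval_C]
      · change φ (algebraMap (CA μ) (CR μ Δ) (AdjoinRoot.of μ X)) =
          evalEval _ _ ((C X).map (mapRingHom (algebraMap K Ω)))
        rw [map_C, coe_mapRingHom, map_X, evalEval_C, eval_X, xv, alg_Pts]
    · change φ (algebraMap (CA μ) (CR μ Δ) (AdjoinRoot.root μ)) =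
          evalEval _ _ (X.map (mapRingHom (algebraMap K Ω)))
      rw [map_X, evalEval_X]
      rfl
  exact RingHom.congr_fun h g

theorem pt_ext (ψ ψ' : CR μ Δ →ₐ[K] Ω) (h1 : xv ψ = xv ψ') (h2 : ψ (th μ Δ) = ψ' (th μ Δ)) :
    ψ = ψ' := by
  have h3 : (ψ : CR μ Δ →+* Ω) = (ψ' : CR μ Δ →+* Ω) := by
    refine IsLocalization.ringHom_ext (Submonoid.powers (AdjoinRoot.of μ Δ)) ?_
    refine RingHom.ext fun g => ?_
    obtain ⟨g, rfl⟩ := AdjoinRoot.mk_surjective g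
    rw [RingHom.comp_apply, RingHom.comp_apply]
    change ψ (algebraMap (CA μ) (CR μ Δ) (AdjoinRoot.mk μ g)) =
      ψ' (algebraMap (CA μ) (CR μ Δ) (AdjoinRoot.mk μ g))
    rw [val_Pts, val_Pts, h1, h2]
  exact AlgHom.ext fun x => RingHom.congr_fun h3 x

theorem pt_ne (ψ : CR μ Δ →ₐ[K] Ω) : aeval (xv ψ) Δ ≠ 0 := by
  rw [← pt_poly, alg_Pts]
  have hu : IsUnit (algebraMap (CA μ) (CR μ Δ) (AdjoinRoot.of μ Δ)) :=
    IsLocalization.Away.algebraMap_isUnit (AdjoinRoot.of μ Δ)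
  exact (hu.map ψ).ne_zero

private theorem th_root_Pts : (μ.map (algebraMap K[X] (CR μ Δ))).eval (th μ Δ) = 0 := by
  have h1 : algebraMap K[X] (CR μ Δ) =
      (algebraMap (CA μ) (CR μ Δ)).comp (AdjoinRoot.of μ) := RingHom.ext fun P => alg_Pts P
  rw [h1, ← map_map, th, eval_map_algebraMap, aeval_algebraMap_apply, ← eval_map_algebraMap,
    Algebra.algebraMap_self, map_id, eval_map, AdjoinRoot.eval₂_root, map_zero]

theorem pt_conj (h : GC f μ Δ ρ y) (ψ ψ' : CR μ Δ →ₐ[K] Ω) (h1 : xv ψ = xv ψ') :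
    ∃ g, ∀ z, ψ' z = ψ (ρ g z) := by
  have hc : (ψ : CR μ Δ →+* Ω).comp (algebraMap K[X] (CR μ Δ)) =
      (ψ' : CR μ Δ →+* Ω).comp (algebraMap K[X] (CR μ Δ)) := by
    refine RingHom.ext fun P => ?_
    change ψ (algebraMap K[X] (CR μ Δ) P) = ψ' (algebraMap K[X] (CR μ Δ) P)
    rw [pt_poly, pt_poly, h1]
  have h2 := congrArg (fun P => (P.map (ψ : CR μ Δ →+* Ω)).eval (ψ' (th μ Δ))) h.prod
  rw [map_map, hc, ← map_map] at h2
  have h3 : ((μ.map (algebraMap K[X] (CR μ Δ))).map (ψ' : CR μ Δ →+* Ω)).eval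
      (ψ' (th μ Δ)) = 0 := by
    change ((μ.map (algebraMap K[X] (CR μ Δ))).map (ψ' : CR μ Δ →+* Ω)).eval
      ((ψ' : CR μ Δ →+* Ω) (th μ Δ)) = 0
    rw [eval_map_apply, th_root_Pts, map_zero]
  rw [h3, Polynomial.map_prod, eval_prod] at h2
  obtain ⟨g, -, hg⟩ := Finset.prod_eq_zero_iff.1 h2.symm
  rw [Polynomial.map_sub, map_X, map_C, eval_sub, eval_X, eval_C, sub_eq_zero] at hg
  refine ⟨g, fun z => ?_⟩
  have h4 : ψ' = ψ.comp ((ρ g).toAlgHom.restrictScalars K) := by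
    refine pt_ext _ _ ?_ hg
    rw [← h1]
    change ψ (algebraMap K[X] (CR μ Δ) X) = ψ (ρ g (algebraMap K[X] (CR μ Δ) X))
    rw [AlgEquiv.commutes]
  rw [h4]
  rfl

theorem pt_free (h : GC f μ Δ ρ y) (ψ : CR μ Δ →ₐ[K] Ω) {g g' : G}
    (h1 : ψ (ρ g (th μ Δ)) = ψ (ρ g' (th μ Δ))) : g = g' := by
  by_contra hne
  have h2 := ((h.unit g g' hne).map ψ).ne_zero
  rw [map_sub, h1, sub_self] at h2
  exact h2 rfl

theorem pt_ex [IsAlgClosed Ω] (h : GC f μ Δ ρ y) {a : Ω} (ha : aeval a Δ ≠ 0) :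
    ∃ ψ : CR μ Δ →ₐ[K] Ω, xv ψ = a := by
  have hd : (μ.map ((aeval a : K[X] →ₐ[K] Ω) : K[X] →+* Ω)).degree ≠ 0 := by
    rw [h.monic.degree_map, degree_eq_natDegree h.monic.ne_zero, h.deg]
    have := Fintype.card_pos (α := G)
    exact_mod_cast this.ne'
  obtain ⟨b, hb⟩ := IsAlgClosed.exists_root _ hd
  have h3 : μ.eval₂ ((aeval a : K[X] →ₐ[K] Ω) : K[X] →+* Ω) b = 0 := by
    rw [eval₂_eq_eval_map]
    exact hb
  let ψ : CA μ →ₐ[K] Ω := AdjoinRoot.liftAlgHom μ (aeval a) b h3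
  have hψ : ∀ P : K[X], ψ (AdjoinRoot.of μ P) = aeval a P := fun P => AdjoinRoot.lift_of h3
  have hu : ∀ z : Submonoid.powers (AdjoinRoot.of μ Δ), IsUnit (ψ z) := by
    rintro ⟨z, n, rfl⟩
    dsimp only
    rw [map_pow, hψ]
    exact (IsUnit.mk0 _ ha).pow n
  refine ⟨IsLocalization.liftAlgHom (M := Submonoid.powers (AdjoinRoot.of μ Δ)) (f := ψ) hu,
    ?_⟩
  rw [xv, alg_Pts, IsLocalization.liftAlgHom_apply]
  refine (IsLocalization.lift_eq _ _).trans ?_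
  exact (hψ X).trans (aeval_X a)

theorem pt_card [IsAlgClosed Ω] (h : GC f μ Δ ρ y) {a : Ω} (ha : aeval a Δ ≠ 0) :
    Nat.card {ψ : CR μ Δ →ₐ[K] Ω // xv ψ = a} = Fintype.card G := by
  obtain ⟨ψ, hψ⟩ := pt_ex h ha
  have hx : ∀ g : G, xv (ψ.comp ((ρ g).toAlgHom.restrictScalars K)) = a := by
    intro g
    rw [← hψ]
    change ψ (ρ g (algebraMap K[X] (CR μ Δ) X)) = ψ (algebraMap K[X] (CR μ Δ) X)
    rw [AlgEquiv.commutes]
  rw [← Nat.card_eq_fintype_card]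
  refine (Nat.card_congr (Equiv.ofBijective
    (fun g : G => (⟨ψ.comp ((ρ g).toAlgHom.restrictScalars K), hx g⟩ :
      {ψ : CR μ Δ →ₐ[K] Ω // xv ψ = a})) ⟨?_, ?_⟩)).symm
  · intro g g' h1
    have h2 := congrArg (fun c => c.1 (th μ Δ)) h1
    exact pt_free h ψ h2
  · rintro ⟨ψ', h'⟩
    obtain ⟨g, hg⟩ := pt_conj h ψ ψ' (hψ.trans h'.symm)
    exact ⟨g, Subtype.ext (AlgHom.ext fun z => (hg z).symm)⟩

end Pool.Agent.Weil
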