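import Pool.Agent.Weil.Defs

/-!
# Package Weil-Quo: dimension of the quotient by one element

`A` a domain with filtration `F` (`Flt F n e r0`), `z ≠ 0` in `F r`. Then `A / z A` has dimension
at most `n r`.

Proof. For `m ≥ r0` the image of `F (m + r)` in `A / z A` has dimension at most
`dim F (m + r) - dim (z F m)` (the subspace `z F m` of `F (m + r)` is in the kernel),
multiplication
by `z` is injective, so this is `n (m + r + 1) - e - (n (m + 1) - e) = n r`. Every finite subset
of
`A / z A` comes from some `F (m + r)` with `m ≥ r0` (`exh`, `mono`), so every linearly independent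
finite
subset of `A / z A` has at most `n r` elements: `rank ≤ n r` (for example
`rank_le_of_...`, `Module.rank_le`, `LinearIndependent.fintype_card_le_finrank`); finite
dimension and the bound for `finrank` follow.
-/

set_option autoImplicit false

namespace Pool.Agent.Weil

theorem quo_le {K A : Type} [Field K] [CommRing A] [IsDomain A] [Algebra K A]
    {F : ℕ → Submodule K A} {n e r0 : ℕ} (h : Flt F n e r0) {z : A} (hz : z ≠ 0) {r : ℕ}
    (hr : z ∈ F r) :
    Module.Finite K (A ⧸ Ideal.span {z}) ∧
      Module.finrank K (A ⧸ Ideal.span {z}) ≤ n * r := by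
  classical
  let π : A →ₗ[K] (A ⧸ Ideal.span {z}) := (Ideal.Quotient.mkₐ K (Ideal.span {z})).toLinearMap
  have key : ∀ s : Finset (A ⧸ Ideal.span {z}),
      LinearIndependent K (fun i : s => (i : A ⧸ Ideal.span {z})) → s.card ≤ n * r := by
    intro s hs
    have hlift : ∀ x : A ⧸ Ideal.span {z}, ∃ a : A, π a = x :=
      fun x => Ideal.Quotient.mk_surjective x
    choose l hl using hlift
    have hex : ∃ m, r0 ≤ m ∧ ∀ x ∈ s, l x ∈ F (m + r) := by
      choose ρ hρ using h.exh
      refine ⟨r0 + s.sup fun x => ρ (l x), by omega, fun x hx => ?_⟩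
      refine h.mono ?_ (hρ (l x))
      have : ρ (l x) ≤ s.sup fun x => ρ (l x) := Finset.le_sup (f := fun x => ρ (l x)) hx
      omega
    obtain ⟨m, hm, hmem⟩ := hex
    have hf1 := h.fin (m + r)
    have hf0 := h.fin m
    let g : F (m + r) →ₗ[K] (A ⧸ Ideal.span {z}) := π ∘ₗ (F (m + r)).subtype
    have h1 := LinearMap.finrank_range_add_finrank_ker g
    have h2 : Module.finrank K (F m) ≤ Module.finrank K (LinearMap.ker g) := by
      let φ : F m →ₗ[K] LinearMap.ker g :=
        { toFun := fun a => ⟨⟨z * a, by
              have := h.mul_mem r m z a hr a.2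
              rwa [add_comm] at this⟩, by
            rw [LinearMap.mem_ker]
            show π (z * (a : A)) = 0
            exact Ideal.Quotient.eq_zero_iff_mem.2
              (Ideal.mul_mem_right _ _ (Ideal.mem_span_singleton_self z))⟩
          map_add' := by
            intro a b
            ext
            simp [mul_add]
          map_smul' := by
            intro c a
            ext
            simp }
      refine LinearMap.finrank_le_finrank_of_injective (f := φ) ?_
      intro a b hab
      have : z * (a : A) = z * (b : A) :=
        congrArg (fun t : LinearMap.ker g => ((t : F (m + r)) : A)) hab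
      exact Subtype.ext (mul_left_cancel₀ hz this)
    have h3 : s.card ≤ Module.finrank K (LinearMap.range g) := by
      have hmem' : ∀ i : s, (i : A ⧸ Ideal.span {z}) ∈ LinearMap.range g := fun i =>
        ⟨⟨l i, hmem i i.2⟩, hl i⟩
      have hli : LinearIndependent K
          (fun i : s => (⟨(i : A ⧸ Ideal.span {z}), hmem' i⟩ : LinearMap.range g)) := by
        refine LinearIndependent.of_comp (LinearMap.range g).subtype ?_
        exact hs
      have := hli.fintype_card_le_finrank
      simpa using this
    have h4 := h.dim (m + r) (by omega)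
    have h5 := h.dim m hm
    have h6 : n * (m + r + 1) = n * (m + 1) + n * r := by ring
    omega
  have hrk : Module.rank K (A ⧸ Ideal.span {z}) ≤ ((n * r : ℕ) : Cardinal) :=
    rank_le key
  have hfin : Module.Finite K (A ⧸ Ideal.span {z}) := by
    refine Module.rank_lt_aleph0_iff.1 (lt_of_le_of_lt hrk ?_)
    exact Cardinal.natCast_lt_aleph0
  refine ⟨hfin, ?_⟩
  have := hrk
  rw [← Module.finrank_eq_rank] at this
  exact_mod_cast this

end Pool.Agent.Weil
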