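import Pool.Agent.Weil.MK
import Pool.Agent.Weil.Hens

/-!
# Package Weil-Spl: the splitting field of the curve inside the Laurent series

`f ∈ K[x][T]` monic and irreducible, `C D = u f + v f'` with `D ≠ 0`, `f(0, T) = ∏ (T - b_i)` with
pairwise different `b_i`. `EK K = Frac K[X]`, `MK K = Frac K⟦X⟧`. There is a finite Galois
extension
`L` of `EK K` in which `f` splits, with an embedding in `MK K`, such that the Galois group is
transitive on the roots.

Proof. `hens` gives `f = ∏ (T - β_i)` over `K⟦X⟧`. `L = IntermediateField.adjoin (EK K)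
{β_i} ≤ MK K` (a splitting field: `IntermediateField.adjoin_rootSet_isSplittingField`; `φ` is the
inclusion). `f` is irreducible over `EK K` (`Polynomial.Monic.irreducible_iff_irreducible_map_
fraction_map`) and separable (coprime to its derivative: `D` is a unit of `EK K`), so `L` is
Galois
(`IsGalois.of_separable_splitting_field`), and two roots are conjugate
(`isConjRoot_iff_exists_algEquiv`, `minpoly.eq_of_irreducible_of_monic`; or
`Polynomial.Gal.galAction_isPretransitive`). The roots are pairwise different (`hens`).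
-/

set_option autoImplicit false

namespace Pool.Agent.Weil

open Polynomial

private theorem splW_Spl {K : Type} [Field K] {f : K[X][X]} (hf : f.Monic) {d : ℕ} {b : Fin d → K}
    (hb : Function.Injective b) (h : f.map (evalRingHom 0) = ∏ i, (X - C (b i))) :
    ∃ γ : Fin d → MK K, Function.Injective γ ∧
      f.map (algebraMap K[X] (MK K)) = ∏ i, (X - C (γ i)) := by
  obtain ⟨β, hβ, hp⟩ := hens hf hb h
  refine ⟨fun i => algebraMap (PowerSeries K) (MK K) (β i), fun i j hij =>
    hβ (IsFractionRing.injective (PowerSeries K) (MK K) hij), ?_⟩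
  rw [IsScalarTower.algebraMap_eq K[X] (PowerSeries K) (MK K), ← Polynomial.map_map, hp,
    Polynomial.map_prod]
  simp

private theorem sepW_Spl {K : Type} [Field K] {f : K[X][X]} {D : K[X]}
    (hD : D ≠ 0) (hc : ∃ u v : K[X][X], C D = u * f + v * derivative f) :
    (f.map (algebraMap K[X] (EK K))).Separable := by
  obtain ⟨u, v, h⟩ := hc
  have hD' : algebraMap K[X] (EK K) D ≠ 0 := by
    simpa using hD
  have h1 := congrArg (Polynomial.map (algebraMap K[X] (EK K))) h
  rw [Polynomial.map_C, Polynomial.map_add, Polynomial.map_mul, Polynomial.map_mul,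
    ← Polynomial.derivative_map] at h1
  refine ⟨C (algebraMap K[X] (EK K) D)⁻¹ * u.map (algebraMap K[X] (EK K)),
    C (algebraMap K[X] (EK K) D)⁻¹ * v.map (algebraMap K[X] (EK K)), ?_⟩
  rw [mul_assoc, mul_assoc, ← mul_add, ← h1, ← C_mul, inv_mul_cancel₀ hD', C_1]

theorem spl {K : Type} [Field K] {f : K[X][X]} (hf : f.Monic) (hi : Irreducible f) {D : K[X]}
    (hD : D ≠ 0) (hc : ∃ u v : K[X][X], C D = u * f + v * derivative f) {d : ℕ} {b : Fin d → K}
    (hb : Function.Injective b) (h : f.map (evalRingHom 0) = ∏ i, (X - C (b i))) :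
    ∃ (L : Type) (_ : Field L) (_ : Algebra K[X] L) (_ : Algebra (EK K) L)
      (_ : IsScalarTower K[X] (EK K) L) (φ : L →+* MK K) (y : Fin d → L),
      FiniteDimensional (EK K) L ∧ IsGalois (EK K) L ∧
      φ.comp (algebraMap K[X] L) = algebraMap K[X] (MK K) ∧
      f.map (algebraMap K[X] L) = ∏ i, (X - C (y i)) ∧ Function.Injective y ∧
      ∀ i j, ∃ g : L ≃ₐ[EK K] L, g (y i) = y j := by
  obtain ⟨γ, hγ, hp⟩ := splW_Spl hf hb h
  have hsep := sepW_Spl hD hc
  set p : (EK K)[X] := f.map (algebraMap K[X] (EK K)) with hpd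
  have hpm : p.map (algebraMap (EK K) (MK K)) = ∏ i, (X - C (γ i)) := by
    rw [hpd, Polynomial.map_map, ← IsScalarTower.algebraMap_eq, hp]
  have hmon : p.Monic := hf.map _
  have hirr : Irreducible p := (hf.irreducible_iff_irreducible_map_fraction_map).1 hi
  have hspl : (p.map (algebraMap (EK K) (MK K))).Splits := by
    rw [hpm]
    exact Polynomial.Splits.prod fun i _ => Polynomial.Splits.X_sub_C _
  let L : IntermediateField (EK K) (MK K) :=
    IntermediateField.adjoin (EK K) (p.rootSet (MK K))
  have hsf : IsSplittingField (EK K) L p :=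
    IntermediateField.adjoin_rootSet_isSplittingField hspl
  have hroot : ∀ i, γ i ∈ p.rootSet (MK K) := by
    intro i
    rw [Polynomial.mem_rootSet]
    refine ⟨hmon.ne_zero, ?_⟩
    rw [aeval_def, ← eval_map, hpm, eval_prod]
    exact Finset.prod_eq_zero (Finset.mem_univ i) (by simp)
  let y : Fin d → L := fun i => ⟨γ i, IntermediateField.subset_adjoin _ _ (hroot i)⟩
  have hphi : (algebraMap L (MK K)).comp (algebraMap K[X] L) = algebraMap K[X] (MK K) := by
    rfl
  have hfd : FiniteDimensional (EK K) L := IsSplittingField.finiteDimensional L p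
  have hgal : IsGalois (EK K) L := IsGalois.of_separable_splitting_field hsep
  have hprod : f.map (algebraMap K[X] L) = ∏ i, (X - C (y i)) := by
    apply Polynomial.map_injective (algebraMap L (MK K)) (algebraMap L (MK K)).injective
    rw [Polynomial.map_map, hphi, hp, Polynomial.map_prod]
    refine Finset.prod_congr rfl fun i _ => ?_
    rw [Polynomial.map_sub, Polynomial.map_X, Polynomial.map_C]
    rfl
  have hy : Function.Injective y := fun i j hij => hγ (congrArg Subtype.val hij)
  have hmin : ∀ i, minpoly (EK K) (y i) = p := by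
    intro i
    symm
    apply minpoly.eq_of_irreducible_of_monic hirr _ hmon
    apply (algebraMap L (MK K)).injective
    rw [map_zero]
    have h2 := (Polynomial.mem_rootSet.1 (hroot i)).2
    rw [← h2]
    exact (Polynomial.aeval_algebraMap_apply (MK K) (y i) p).symm
  refine ⟨L, inferInstance, inferInstance, inferInstance, inferInstance, algebraMap L (MK K), y,
    hfd, hgal, hphi, hprod, hy, ?_⟩
  intro i j
  have hcj : IsConjRoot (EK K) (y i) (y j) := by
    rw [isConjRoot_def, hmin, hmin]
  obtain ⟨g, hg⟩ := isConjRoot_iff_exists_algEquiv.1 hcj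
  exact ⟨g.symm, by rw [← hg, AlgEquiv.symm_apply_apply]⟩

end Pool.Agent.Weil
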