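import Pool.Agent.Weil.Zer
import Pool.Agent.Weil.Ord
import Pool.Agent.Weil.Ker

/-!
# Package Weil-Step: the theorem of Stepanov and Bombieri (abstract form)

`K` a finite field of characteristic `p`, `A` a domain with filtration `F`, `Ψ : A → K⟦X⟧` an
injective homomorphism with `X` in the image, `c` a number. There is a constant `C` such that for
`q0 = p ^ i ≤ q1 = p ^ j`, `C ≤ q1`, every `c0 ∈ A` and every additive `T : A → A` with
`T (F m) ⊆ F (m + c)`: the number of the homomorphisms `ψ : A → Ω` with `ψ c0 ≠ 0` and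
`ψ c0 * ψ t ^ (q0 q1) = ψ (T t)` for all `t` is at most `q0 q1 + C q1`.

Proof. `params n e r0 c` gives `C`. Let `l`, `m` be the parameters, `V = F l`,
`u = finrank V`, `u + e = n (l + 1)` (`Flt.dim`). `orders` (for `Ψ` as a linear map) gives nonzero
`s i ∈ F l`, `i < u`, with different orders, and `ord_le` gives
`order Ψ (s i) ≤ n l < q1`. `exists_ker` for `V = F m`, `W = F (l q0 + m + c)`,
`S i = s i ^ q0 ∈ F (l q0)` (induction with `mul_mem`, `one_mem`): `dim W < u dim V` by `params`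
(`l q0 + m + c ≥ r0`). So there are `t i ∈ F m`, not all zero, with `∑ s i ^ q0 * T (t i) = 0`.
Let
`g = ∑ s i * t i ^ q1 ∈ F (l + q1 m)`; `g ≠ 0` by `indep`. If `ψ` is one of the homomorphisms then
`ψ c0 * (ψ g) ^ q0 = ∑ ψ (s i) ^ q0 ψ c0 (ψ (t i)) ^ (q1 q0) = ∑ ψ (s i ^ q0) ψ (T (t i)) = 0`
(`CharP Ω p`: `charP_of_injective_algebraMap`; `sum_pow_char_pow`, `add_pow_char_pow`), so
`ψ g = 0`. By `zeros_le` the number of such `ψ` is at most `n (l + q1 m) ≤ q0 q1 + C q1`.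
-/

set_option autoImplicit false

namespace Pool.Agent.Weil

private theorem pow_mem_Step {K A : Type} [Field K] [CommRing A] [Algebra K A]
    {F : ℕ → Submodule K A} {n e r0 : ℕ} (h : Flt F n e r0) {a : A} {r : ℕ} (ha : a ∈ F r)
    (k : ℕ) : a ^ k ∈ F (k * r) := by
  induction k with
  | zero =>
    rw [pow_zero, zero_mul]
    exact h.one_mem
  | succ k ih =>
    rw [pow_succ, Nat.succ_mul]
    exact h.mul_mem _ _ _ _ ih ha

theorem stepanov {K A : Type} [Field K] [Finite K] [CommRing A] [IsDomain A] [Algebra K A]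
    (p : ℕ) [Fact p.Prime] [CharP K p] {F : ℕ → Submodule K A} {n e r0 : ℕ} (h : Flt F n e r0)
    (Ψ : A →ₐ[K] PowerSeries K) (hΨ : Function.Injective Ψ) {x : A} (hx : Ψ x = PowerSeries.X)
    (Ω : Type) [Field Ω] [Algebra K Ω] (c : ℕ) :
    ∃ C : ℕ, ∀ i j : ℕ, i ≤ j → C ≤ p ^ j → ∀ (c0 : A) (T : A →+ A),
      (∀ m, ∀ t ∈ F m, T t ∈ F (m + c)) →
      {ψ : A →ₐ[K] Ω | ψ c0 ≠ 0 ∧ ∀ t, ψ c0 * ψ t ^ (p ^ i * p ^ j) = ψ (T t)}.Finite ∧
      {ψ : A →ₐ[K] Ω | ψ c0 ≠ 0 ∧ ∀ t, ψ c0 * ψ t ^ (p ^ i * p ^ j) = ψ (T t)}.ncard ≤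
        p ^ i * p ^ j + C * p ^ j := by
  obtain ⟨C, hC⟩ := params n e r0 c h.n_pos
  refine ⟨C, ?_⟩
  intro i j hij hCj c0 T hT
  have hp : p.Prime := Fact.out
  have hcp : CharP Ω p := charP_of_injective_algebraMap (algebraMap K Ω).injective p
  obtain ⟨l, m, hl, hm, hnl, hdim, hcount⟩ := hC (p ^ i) (p ^ j) (Nat.pos_of_ne_zero
    (pow_ne_zero _ hp.ne_zero)) (Nat.pow_le_pow_right hp.pos hij) hCj
  have hfl : Module.Finite K (F l) := h.fin l
  have hfm : Module.Finite K (F m) := h.fin m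
  have hfw : Module.Finite K (F (p ^ i * l + (m + c))) := h.fin _
  obtain ⟨s, hs1, hs2, hs3⟩ := orders (F l) Ψ.toLinearMap hΨ
  have hd1 := h.dim l hl
  have hd2 := h.dim m hm
  have hd3 := h.dim (p ^ i * l + (m + c)) (by omega)
  have hlt := hdim _ _ (Module.finrank K (F (p ^ i * l + (m + c)))) hd1 hd2 (by
    rw [hd3, mul_comm (p ^ i) l]
    ring)
  obtain ⟨t, ht1, ht2, ht3⟩ := exists_ker (F m) (F (p ^ i * l + (m + c)))
    (fun k => s k ^ p ^ i) T (fun t ht k => h.mul_mem _ _ _ _ (pow_mem_Step h (hs1 k) _)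
      (hT m t ht)) hlt
  have hg1 : ∑ k, s k * t k ^ p ^ j ∈ F (l + p ^ j * m) :=
    Submodule.sum_mem _ fun k _ => h.mul_mem _ _ _ _ (hs1 k) (pow_mem_Step h (ht1 k) _)
  have hord : ∀ k, (Ψ (s k)).order < ((p ^ j : ℕ) : ℕ∞) := by
    intro k
    rcases ord_le h (hs2 k) (hs1 k) Ψ hx with h1 | h1
    · exact lt_of_le_of_lt h1 (by exact_mod_cast hnl)
    · exact absurd (hΨ (h1.trans (map_zero Ψ).symm)) (hs2 k)
  have hg2 : ∑ k, s k * t k ^ p ^ j ≠ 0 := by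
    intro h0
    apply ht2
    funext k
    exact indep Ψ hΨ s t hs2 hs3 hord h0 k
  obtain ⟨hz1, hz2⟩ := zeros_le h hg2 hg1 Ω
  have hsub : {ψ : A →ₐ[K] Ω | ψ c0 ≠ 0 ∧ ∀ t, ψ c0 * ψ t ^ (p ^ i * p ^ j) = ψ (T t)} ⊆
      {ψ : A →ₐ[K] Ω | ψ (∑ k, s k * t k ^ p ^ j) = 0} := by
    rintro ψ ⟨h1, h2⟩
    have h3 : ψ c0 * (ψ (∑ k, s k * t k ^ p ^ j)) ^ p ^ i = 0 := by
      have h4 : ψ (∑ k, s k ^ p ^ i * T (t k)) = 0 := by
        rw [show (∑ k, s k ^ p ^ i * T (t k)) = 0 from ht3, map_zero]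
      rw [← h4, map_sum, map_sum, sum_pow_char_pow, Finset.mul_sum]
      refine Finset.sum_congr rfl fun k _ => ?_
      rw [map_mul, map_mul, map_pow, map_pow, mul_pow, ← h2 (t k), ← pow_mul,
        mul_comm (p ^ j) (p ^ i)]
      ring
    rcases mul_eq_zero.1 h3 with h5 | h5
    · exact absurd h5 h1
    · exact pow_eq_zero_iff (pow_ne_zero _ hp.ne_zero) |>.1 h5
  exact ⟨hz1.subset hsub, (Set.ncard_le_ncard hsub hz1).trans (hz2.trans hcount)⟩

end Pool.Agent.Weil
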