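import Pool.Agent.Weil.FltD

/-!
# Package Weil-Tw: the action of the group on the coordinate ring, denominators removed

For the data `GC f μ Δ ρ y`: there are `k`, `c` such that for every `g` there is an additive map
`T : CA μ → CA μ` with `T t = Δ ^ k * g t` in `CR μ Δ` and `T (FW μ w m) ⊆ FW μ w (m + c)`.

Proof. `CR μ Δ` is a localization of `CA μ`, the map `ι : CA μ → CR μ Δ` is injective (`CA μ` is a
domain: `μ` is monic, irreducible, so prime in the unique factorization domain `K[X][X]`;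
`Δ ≠ 0` in `CA μ`, as `μ` is monic of degree `≥ 1` (`GC.deg`, `Fintype.card_pos`) and
`AdjoinRoot.of` is injective; `IsLocalization.injective`). For the finitely many elements
`ρ g θ ^ j` (`j < n`) there is a common `k` with `Δ ^ k * ρ g θ ^ j = ι s_(g, j)`. For `t ∈ CA μ`
with
representative `∑_{j < n} c_j(x) T ^ j` (`AdjoinRoot.modByMonicHom`) put
`T t = ∑ c_j(x) s_(g, j)`: additive, and `ι (T t) = Δ ^ k ρ g (ι t)` because `ρ g` is a
homomorphism of `K[X]`-algebras. (Or define `T t` by choice from the injectivity of `ι`;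
additivity
follows.) Let `c` be such that all `s_(g, j) ∈ FW μ w c`. If `t ∈ FW μ w m` then by `fw_red`
there is
a
representative with `deg c_j ≤ m - w j ≤ m`, so `c_j(x) ∈ FW μ w m`, `T t ∈ FW μ w (m + c)`.
-/

set_option autoImplicit false

namespace Pool.Agent.Weil

open Polynomial Pool.Agent.CvB

variable {K : Type} [Field K] {f μ : K[X][X]} {Δ : K[X]} {G : Type} [Group G] [Fintype G]
  {ρ : G →* (CR μ Δ ≃ₐ[K[X]] CR μ Δ)} {d : ℕ} {y : Fin d → CR μ Δ}

theorem gc_dom (h : GC f μ Δ ρ y) : IsDomain (CA μ) :=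
  AdjoinRoot.isDomain_of_prime h.irr.prime

theorem gc_inj (h : GC f μ Δ ρ y) : Function.Injective (algebraMap (CA μ) (CR μ Δ)) := by
  have hd := gc_dom h
  have hn : 1 ≤ μ.natDegree := by
    rw [h.deg]
    exact Fintype.card_pos
  have h1 : μ.degree ≠ 0 := by
    intro h0
    rw [natDegree_eq_of_degree_eq_some (n := 0) (by rw [h0]; rfl)] at hn
    exact absurd hn (by norm_num)
  have h2 : AdjoinRoot.of μ Δ ≠ 0 := by
    intro h0
    exact h.ne ((injective_iff_map_eq_zero _).1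
      (AdjoinRoot.of.injective_of_degree_ne_zero h1) Δ h0)
  exact IsLocalization.injective (CR μ Δ) (powers_le_nonZeroDivisors_of_noZeroDivisors h2)

theorem gc_deg (h : GC f μ Δ ρ y) : 1 ≤ μ.natDegree := by
  rw [h.deg]
  exact Fintype.card_pos

/-- the twisted map -/
private noncomputable def tT_Tw (hμ : μ.Monic) (s : ℕ → CA μ) : CA μ →+ CA μ where
  toFun t := ∑ j ∈ Finset.range μ.natDegree,
    AdjoinRoot.of μ ((AdjoinRoot.modByMonicHom hμ t).coeff j) * s j
  map_zero' := by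
    refine Finset.sum_eq_zero fun j _ => ?_
    rw [map_zero, coeff_zero, map_zero, zero_mul]
  map_add' a b := by
    rw [← Finset.sum_add_distrib]
    refine Finset.sum_congr rfl fun j _ => ?_
    rw [map_add, coeff_add, map_add, add_mul]

private theorem tT_apply_Tw (hμ : μ.Monic) (s : ℕ → CA μ) (t : CA μ) :
    tT_Tw hμ s t = ∑ j ∈ Finset.range μ.natDegree,
      AdjoinRoot.of μ ((AdjoinRoot.modByMonicHom hμ t).coeff j) * s j := rfl

/-- the representative of an element -/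
private theorem rep_Tw (hμ : μ.Monic) (hn : 1 ≤ μ.natDegree) (t : CA μ) :
    t = ∑ j ∈ Finset.range μ.natDegree,
      AdjoinRoot.of μ ((AdjoinRoot.modByMonicHom hμ t).coeff j) * AdjoinRoot.root μ ^ j := by
  have hμ1 : μ ≠ 1 := by
    rintro rfl
    rw [natDegree_one] at hn
    exact absurd hn (by norm_num)
  have h1 : AdjoinRoot.mk μ (AdjoinRoot.modByMonicHom hμ t) = t :=
    AdjoinRoot.mk_leftInverse hμ t
  have h2 : (AdjoinRoot.modByMonicHom hμ t).natDegree < μ.natDegree := by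
    obtain ⟨q, rfl⟩ := AdjoinRoot.mk_surjective t
    rw [AdjoinRoot.modByMonicHom_mk]
    exact natDegree_modByMonic_lt q hμ hμ1
  conv_lhs => rw [← h1, (AdjoinRoot.modByMonicHom hμ t).as_sum_range_C_mul_X_pow' h2]
  rw [map_sum]
  refine Finset.sum_congr rfl fun j _ => ?_
  rw [map_mul, map_pow, AdjoinRoot.mk_C, AdjoinRoot.mk_X]

private theorem amap_Tw (c : K[X]) : algebraMap (CA μ) (CR μ Δ) (AdjoinRoot.of μ c) =
    algebraMap K[X] (CR μ Δ) c := by
  rw [IsScalarTower.algebraMap_apply K[X] (CA μ) (CR μ Δ)]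
  rfl

theorem twist (h : GC f μ Δ ρ y) {w : ℕ} (hw1 : 1 ≤ w) (hw : μ ∈ WD K w (w * μ.natDegree)) :
    ∃ k c : ℕ, ∀ g : G, ∃ T : CA μ →+ CA μ,
      (∀ t, algebraMap (CA μ) (CR μ Δ) (T t) =
        algebraMap (CA μ) (CR μ Δ) (AdjoinRoot.of μ (Δ ^ k)) *
          ρ g (algebraMap (CA μ) (CR μ Δ) t)) ∧
      ∀ m, ∀ t ∈ FW μ w m, T t ∈ FW μ w (m + c) := by
  have hn := gc_deg h
  have hμ := h.monic
  obtain ⟨⟨b, hb⟩, hbi⟩ := IsLocalization.exist_integer_multiples_of_finite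
    (Submonoid.powers (AdjoinRoot.of μ Δ))
    (fun i : G × Fin μ.natDegree => (ρ i.1 (th μ Δ) ^ (i.2 : ℕ) : CR μ Δ))
  obtain ⟨k, hk⟩ := hb
  have hs : ∀ i : G × Fin μ.natDegree, ∃ s : CA μ, algebraMap (CA μ) (CR μ Δ) s =
      algebraMap (CA μ) (CR μ Δ) (AdjoinRoot.of μ (Δ ^ k)) *
        ρ i.1 (th μ Δ) ^ (i.2 : ℕ) := by
    intro i
    obtain ⟨s, hs⟩ := hbi i
    refine ⟨s, ?_⟩
    rw [hs, Algebra.smul_def, map_pow (AdjoinRoot.of μ)]
    have hk' : AdjoinRoot.of μ Δ ^ k = b := hk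
    rw [hk']
  choose s hs using hs
  have hc : ∃ c : ℕ, ∀ i, s i ∈ FW μ w c := by
    have h1 : ∀ i, ∃ r, s i ∈ FW μ w r := fun i => fw_exh μ w (s i)
    choose r hr using h1
    refine ⟨Finset.univ.sup r, fun i => ?_⟩
    exact fw_mono μ w (Finset.le_sup (Finset.mem_univ i)) (hr i)
  obtain ⟨c, hc⟩ := hc
  refine ⟨k, c, fun g => ?_⟩
  have hsg : ∃ sg : ℕ → CA μ, ∀ j < μ.natDegree, algebraMap (CA μ) (CR μ Δ) (sg j) =
      algebraMap (CA μ) (CR μ Δ) (AdjoinRoot.of μ (Δ ^ k)) * ρ g (th μ Δ) ^ j ∧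
        sg j ∈ FW μ w c := by
    refine ⟨fun j => if hj : j < μ.natDegree then s (g, ⟨j, hj⟩) else 0, fun j hj => ?_⟩
    simp only [dif_pos hj]
    exact ⟨hs (g, ⟨j, hj⟩), hc _⟩
  obtain ⟨sg, hsg⟩ := hsg
  refine ⟨tT_Tw hμ sg, fun t => ?_, fun m t ht => ?_⟩
  · rw [tT_apply_Tw, map_sum]
    conv_rhs => rw [rep_Tw hμ hn t]
    rw [map_sum, map_sum, Finset.mul_sum]
    refine Finset.sum_congr rfl fun j hj => ?_
    have h1 := (hsg j (Finset.mem_range.1 hj)).1
    have h2 : algebraMap (CA μ) (CR μ Δ) (AdjoinRoot.root μ ^ j) = th μ Δ ^ j := by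
      rw [map_pow]
      rfl
    rw [map_mul, h1, map_mul, map_mul, h2, map_pow (ρ g), amap_Tw, amap_Tw,
      AlgEquiv.commutes]
    ring
  · obtain ⟨q, hq, hqd, rfl⟩ := fw_red hμ hw ht hn
    rw [tT_apply_Tw]
    refine Submodule.sum_mem _ fun j hj => ?_
    have h3 : AdjoinRoot.modByMonicHom hμ (AdjoinRoot.mk μ q) = q := by
      rw [AdjoinRoot.modByMonicHom_mk, (modByMonic_eq_self_iff hμ).2]
      exact degree_lt_degree hqd
    rw [h3]
    refine fw_mul μ w m c _ _ ?_ (hsg j (Finset.mem_range.1 hj)).2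
    refine ⟨C (q.coeff j), ?_, rfl⟩
    intro i l hil
    rw [coeff_C]
    split_ifs with h4
    · subst h4
      rw [mul_zero, add_zero] at hil
      exact hq i j (by omega)
    · exact coeff_zero i

end Pool.Agent.Weil
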