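import Pool.Agent.Weil.Step
import Pool.Agent.Weil.Tw

/-!
# Package Weil-Upp: upper bound for the number of the points with given Frobenius automorphism

For the data `GC f μ Δ ρ y` over a finite field `K` of characteristic `p` and an injective
homomorphism `Ψ : CA μ → K⟦X⟧` with `Ψ x = X` there is a constant `C` with
`ncard (NP ρ Ω (p ^ i * p ^ j) g) ≤ p ^ i * p ^ j + C * p ^ j` for all `i ≤ j` with `C ≤ p ^ j`
and
all `g`.

Proof. `w` from `exists_w`, `Flt` from `flt_fw`, `k`, `c` and `T` from `twist`, `stepanov` for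
`A = CA μ`, `c0 = AdjoinRoot.of μ (Δ ^ k)`. The map `ψ ↦ ψ ∘ ι` (`ι : CA μ → CR μ Δ`, as a
homomorphism of `K`-algebras, `IsScalarTower.toAlgHom` or `Algebra.ofId`) is injective
(`IsLocalization.algHom_ext` or `IsLocalization.ringHom_ext`) and sends `NP ρ Ω q g` to the set
of `stepanov`: `ψ (ι c0) ≠ 0` because `ι c0` is a unit (a power of `Δ`), and
`ψ (ι c0) ψ(ι t) ^ q = ψ (ι c0) ψ (ρ g (ι t)) = ψ (ι (T t))`. `Set.Finite.preimage`,
`Set.ncard_le_ncard_of_injOn`.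
-/

set_option autoImplicit false

namespace Pool.Agent.Weil

open Polynomial Pool.Agent.CvB

variable {K : Type} [Field K] {f μ : K[X][X]} {Δ : K[X]} {G : Type} [Group G] [Fintype G]
  {ρ : G →* (CR μ Δ ≃ₐ[K[X]] CR μ Δ)} {d : ℕ} {y : Fin d → CR μ Δ}

theorem upper [Finite K] (p : ℕ) [Fact p.Prime] [CharP K p] (h : GC f μ Δ ρ y)
    (Ψ : CA μ →ₐ[K] PowerSeries K) (hΨ : Function.Injective Ψ)
    (hx : Ψ (AdjoinRoot.of μ X) = PowerSeries.X) (Ω : Type) [Field Ω] [Algebra K Ω] :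
    ∃ C : ℕ, ∀ i j : ℕ, i ≤ j → C ≤ p ^ j → ∀ g : G,
      (NP ρ Ω (p ^ i * p ^ j) g).Finite ∧
        (NP ρ Ω (p ^ i * p ^ j) g).ncard ≤ p ^ i * p ^ j + C * p ^ j := by
  have hdom : IsDomain (CA μ) := gc_dom h
  obtain ⟨w, hw1, hw⟩ := exists_w h.monic
  have hF := flt_fw h.monic hw1 hw (gc_deg h)
  obtain ⟨k, c, hT⟩ := twist h hw1 hw
  obtain ⟨C, hC⟩ := stepanov p hF Ψ hΨ hx Ω c
  refine ⟨C, fun i j hij hCj g => ?_⟩
  obtain ⟨T, hT1, hT2⟩ := hT g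
  obtain ⟨hfin, hcard⟩ := hC i j hij hCj (AdjoinRoot.of μ (Δ ^ k)) T hT2
  have hR : Function.Injective (fun ψ : CR μ Δ →ₐ[K] Ω =>
      ψ.comp (IsScalarTower.toAlgHom K (CA μ) (CR μ Δ))) := by
    intro ψ φ hh
    refine IsLocalization.algHom_ext (Submonoid.powers (AdjoinRoot.of μ Δ)) ?_
    exact hh
  have hmaps : ∀ ψ ∈ NP ρ Ω (p ^ i * p ^ j) g,
      ψ.comp (IsScalarTower.toAlgHom K (CA μ) (CR μ Δ)) ∈
        {ψ : CA μ →ₐ[K] Ω | ψ (AdjoinRoot.of μ (Δ ^ k)) ≠ 0 ∧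
          ∀ t, ψ (AdjoinRoot.of μ (Δ ^ k)) * ψ t ^ (p ^ i * p ^ j) = ψ (T t)} := by
    intro ψ hψ
    have hu : IsUnit (algebraMap (CA μ) (CR μ Δ) (AdjoinRoot.of μ (Δ ^ k))) := by
      rw [map_pow, map_pow]
      exact (IsLocalization.map_units (CR μ Δ)
        (⟨AdjoinRoot.of μ Δ, Submonoid.mem_powers _⟩ :
          Submonoid.powers (AdjoinRoot.of μ Δ))).pow k
    refine ⟨(hu.map ψ).ne_zero, fun t => ?_⟩
    change ψ (algebraMap (CA μ) (CR μ Δ) (AdjoinRoot.of μ (Δ ^ k))) *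
      ψ (algebraMap (CA μ) (CR μ Δ) t) ^ (p ^ i * p ^ j) =
        ψ (algebraMap (CA μ) (CR μ Δ) (T t))
    rw [hψ (algebraMap (CA μ) (CR μ Δ) t), ← map_mul, hT1]
  exact ⟨(hfin.preimage hR.injOn).subset hmaps,
    le_trans (Set.ncard_le_ncard_of_injOn _ hmaps hR.injOn hfin) hcard⟩

end Pool.Agent.Weil
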