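import Pool.Agent.Weil.Quo

/-!
# Package Weil-Zer: number of zeros and order of an element

`zeros_le`: `z ≠ 0` in `F r`: at most `n r` homomorphisms of `K`-algebras `ψ : A → Ω` (`Ω` a
field)
have `ψ z = 0`. Proof: they are the homomorphisms `A / z A → Ω` (`Ideal.Quotient.liftₐ`), and
`A / z A` has dimension at most `n r` (`quo_le`); `card_algHom_le_finrank`, and the set of the
homomorphisms is finite (`cardinalMk_algHom_le_rank` or an instance).

`ord_le`: `Ψ : A → K⟦X⟧` with `Ψ x = X`, `z ≠ 0` in `F r`, `Ψ z ≠ 0`: the order of `Ψ z` is at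
most
`n r`. Proof: let `N` be a natural number with `N ≤ order (Ψ z)`. The linear map
`A → (Fin N → K)`, `a ↦ (coeff i (Ψ a))_i` is zero on `z A` (order of a product) and onto
(`x ^ i ↦` the unit vector), so `N ≤ finrank K (A / z A) ≤ n r`.
-/

set_option autoImplicit false

namespace Pool.Agent.Weil

variable {K A : Type} [Field K] [CommRing A] [IsDomain A] [Algebra K A]
  {F : ℕ → Submodule K A} {n e r0 : ℕ}

theorem zeros_le (h : Flt F n e r0) {z : A} (hz : z ≠ 0) {r : ℕ} (hr : z ∈ F r) (Ω : Type)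
    [Field Ω] [Algebra K Ω] :
    {ψ : A →ₐ[K] Ω | ψ z = 0}.Finite ∧ {ψ : A →ₐ[K] Ω | ψ z = 0}.ncard ≤ n * r := by
  obtain ⟨hfin, hfr⟩ := quo_le h hz hr
  have hset : {ψ : A →ₐ[K] Ω | ψ z = 0} = Set.range
      (fun φ : (A ⧸ Ideal.span {z}) →ₐ[K] Ω => φ.comp (Ideal.Quotient.mkₐ K (Ideal.span {z}))) := by
    ext ψ
    constructor
    · intro hψ
      have hψ' : ψ z = 0 := hψ
      have hk : ∀ a : A, a ∈ Ideal.span {z} → ψ a = 0 := by
        intro a ha
        obtain ⟨b, rfl⟩ := Ideal.mem_span_singleton'.mp ha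
        rw [map_mul, hψ', mul_zero]
      refine ⟨Ideal.Quotient.liftₐ _ ψ hk, ?_⟩
      ext a
      rfl
    · rintro ⟨φ, rfl⟩
      have h1 : (Ideal.Quotient.mkₐ K (Ideal.span {z})) z = 0 := by
        rw [Ideal.Quotient.mkₐ_eq_mk, Ideal.Quotient.eq_zero_iff_mem]
        exact Ideal.mem_span_singleton_self z
      change φ ((Ideal.Quotient.mkₐ K (Ideal.span {z})) z) = 0
      rw [h1, map_zero]
  rw [hset]
  refine ⟨Set.finite_range _, ?_⟩
  rw [← Set.image_univ]
  refine (Set.ncard_image_le Set.finite_univ).trans ?_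
  rw [Set.ncard_univ]
  exact (card_algHom_le_finrank K (A ⧸ Ideal.span {z}) Ω).trans hfr

theorem ord_le (h : Flt F n e r0) {z : A} (hz : z ≠ 0) {r : ℕ} (hr : z ∈ F r)
    (Ψ : A →ₐ[K] PowerSeries K) {x : A} (hx : Ψ x = PowerSeries.X) :
    (Ψ z).order ≤ ((n * r : ℕ) : ℕ∞) ∨ Ψ z = 0 := by
  by_cases h0 : Ψ z = 0
  · exact Or.inr h0
  left
  by_contra hlt
  rw [not_le] at hlt
  obtain ⟨hfin, hfr⟩ := quo_le h hz hr
  have hdvd : (PowerSeries.X : PowerSeries K) ^ (n * r + 1) ∣ Ψ z := by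
    rw [PowerSeries.X_pow_dvd_iff]
    intro m hm
    apply PowerSeries.coeff_of_lt_order
    refine lt_of_le_of_lt ?_ hlt
    exact_mod_cast Nat.lt_succ_iff.mp hm
  have hli : LinearIndependent K
      (fun i : Fin (n * r + 1) => Ideal.Quotient.mk (Ideal.span {z}) (x ^ (i : ℕ))) := by
    rw [Fintype.linearIndependent_iff]
    intro g hg j
    have h1 : Ideal.Quotient.mk (Ideal.span {z}) (∑ i, g i • x ^ (i : ℕ)) = 0 := by
      rw [map_sum, ← hg]
      refine Finset.sum_congr rfl fun i _ => ?_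
      rw [← Ideal.Quotient.mkₐ_eq_mk K, map_smul]
    rw [Ideal.Quotient.eq_zero_iff_mem] at h1
    obtain ⟨b, hb⟩ := Ideal.mem_span_singleton'.mp h1
    have h2 : (PowerSeries.X : PowerSeries K) ^ (n * r + 1) ∣ Ψ (∑ i, g i • x ^ (i : ℕ)) := by
      rw [← hb, map_mul]
      exact Dvd.dvd.mul_left hdvd _
    rw [PowerSeries.X_pow_dvd_iff] at h2
    have h3 := h2 j j.2
    rw [map_sum, map_sum, Finset.sum_eq_single j] at h3
    · rw [map_smul, map_pow, hx, map_smul, PowerSeries.coeff_X_pow_self, smul_eq_mul,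
        mul_one] at h3
      exact h3
    · intro i _ hij
      rw [map_smul, map_pow, hx, map_smul, PowerSeries.coeff_X_pow, if_neg, smul_zero]
      intro h4
      exact hij (Fin.ext h4.symm)
    · intro h4
      exact absurd (Finset.mem_univ j) h4
  have h5 := hli.fintype_card_le_finrank
  rw [Fintype.card_fin] at h5
  omega

end Pool.Agent.Weil
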